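import Pool.Agent.Helper90.HB.Defs
import Pool.Agent.N65.TK.Alg
set_option autoImplicit false

/-!
The element `alpha` is a cocycle.
-/

namespace Pool.Agent.Helper90.HB

open scoped TensorProduct WithZero
open Pool.Agent.N65.TK (Pt Five UQ tu D Kap red Red tu_mul tu_one tu_inv tu_zpow tu_pow tu_torsion
  tu_prod tu_co_inv)

section span

variable {k r : ℕ} {C : ℕ}

/-- a vector (with entries in a `ℚ`-vector space) orthogonal to a spanning set is zero -/
theorem eq_zero_of_span {W : Type*} [AddCommGroup W] [Module ℚ W] {k r : ℕ}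
    {v : Fin r → Fin (k + 1) → ℤ}
    (hs : Submodule.span ℚ (Set.range fun j s => (v j s : ℚ)) = ⊤)
    (w : Fin (k + 1) → W) (h : ∀ j, ∑ s, (v j s : ℚ) • w s = 0) : w = 0 := by
  have key : ∀ q : Fin (k + 1) → ℚ, ∑ s, q s • w s = 0 := by
    intro q
    have hq : q ∈ Submodule.span ℚ (Set.range fun j s => (v j s : ℚ)) := by rw [hs]; trivial
    refine Submodule.span_induction (p := fun q _ => ∑ s, q s • w s = 0) ?_ ?_ ?_ ?_ hq
    · rintro _ ⟨j, rfl⟩
      exact h j
    · simp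
    · intro a b _ _ ha hb
      simp only [Pi.add_apply, add_smul, Finset.sum_add_distrib]
      rw [ha, hb, add_zero]
    · intro c a _ ha
      simp only [Pi.smul_apply, smul_assoc]
      rw [← Finset.smul_sum, ha, smul_zero]
  funext t
  have := key (Pi.single t 1)
  rw [Finset.sum_eq_single t] at this
  · simpa using this
  · intro s _ hs
    rw [Pi.single_eq_of_ne hs, zero_smul]
  · simp

end span

section alt

variable {R V W : Type*} [CommRing R] [AddCommGroup V] [Module R V] [AddCommGroup W] [Module R W]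
  {n : ℕ}

theorem alt_cons_self (φ : V [⋀^Fin (n + 1)]→ₗ[R] W) (X : Fin (n + 1) → V) (s : Fin (n + 1)) :
    φ (Fin.cons (X s) fun l => X (s.succAbove l)) = (-1 : R) ^ (s : ℕ) • φ X := by
  have h := φ.map_insertNth s (X s) (fun l => X (s.succAbove l))
  have e : s.insertNth (X s) (fun l => X (s.succAbove l)) = X :=
    Fin.insertNth_self_removeNth s X
  rw [e] at h
  have h2 : φ (Fin.cons (X s) fun l => X (s.succAbove l)) =
      φ (Matrix.vecCons (X s) fun l => X (s.succAbove l)) := rfl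
  have h3 : ((-1 : ℤ) ^ (s : ℕ)) • φ (Matrix.vecCons (X s) fun l => X (s.succAbove l)) =
      φ X := by
    rw [h]
  rw [h2, ← h3, ← Int.cast_smul_eq_zsmul R, smul_smul]
  push_cast
  rw [← mul_pow]
  norm_num

theorem alt_cons_other (φ : V [⋀^Fin (n + 1)]→ₗ[R] W) (X : Fin (n + 1) → V) {s t : Fin (n + 1)}
    (h : t ≠ s) : φ (Fin.cons (X t) fun l => X (s.succAbove l)) = 0 := by
  obtain ⟨l, hl⟩ := Fin.exists_succAbove_eq h
  refine φ.map_eq_zero_of_eq _ (i := 0) (j := l.succ) ?_ (Fin.succ_ne_zero l).symm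
  rw [Fin.cons_zero, Fin.cons_succ, hl]

theorem alt_cons_sum (φ : V [⋀^Fin (n + 1)]→ₗ[R] W) {ι : Type*} (T : Finset ι) (c : ι → R)
    (Y : ι → V) (X : Fin n → V) :
    φ (Fin.cons (∑ t ∈ T, c t • Y t) X) = ∑ t ∈ T, c t • φ (Fin.cons (Y t) X) := by
  let ψ : V →ₗ[R] W :=
    { toFun := fun a => φ.curryLeft a X
      map_add' := fun a b => by rw [map_add]; rfl
      map_smul' := fun a b => by rw [map_smul]; rfl }
  have h : ∀ a : V, φ (Fin.cons a X) = ψ a := fun a => rfl
  rw [h, map_sum]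
  refine Finset.sum_congr rfl fun t _ => ?_
  rw [h, map_smul]

theorem alt_cons_comb (φ : V [⋀^Fin (n + 1)]→ₗ[R] W) (X : Fin (n + 1) → V) (c : Fin (n + 1) → R)
    (s : Fin (n + 1)) :
    φ (Fin.cons (∑ t, c t • X t) fun l => X (s.succAbove l)) =
      (c s * (-1 : R) ^ (s : ℕ)) • φ X := by
  rw [alt_cons_sum, Finset.sum_eq_single s, alt_cons_self, smul_smul]
  · intro t _ ht
    rw [alt_cons_other φ X ht, smul_zero]
  · simp

end alt

section hyp

variable {K : Type*} [Field K] {k r : ℕ} {C : Dat K k r}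

theorem mo_mul (a b : Kˣ) (v w : Fin (k + 1) → ℤ) :
    mo (a * b) (v + w) = mo a v * mo b w := by
  ext1
  show AddMonoidAlgebra.single (v + w) ((a * b : Kˣ) : K) =
    AddMonoidAlgebra.single v (a : K) * AddMonoidAlgebra.single w (b : K)
  rw [AddMonoidAlgebra.single_mul_single]
  rfl

theorem mn_mul (a b : Kˣ) (v w : Fin (k + 1) → ℤ) :
    C.mn (a * b) (v + w) = C.mn a v * C.mn b w := by
  unfold Dat.mn
  rw [mo_mul, map_mul]

theorem mn_one : C.mn 1 0 = 1 := by
  have h := mn_mul (C := C) 1 1 0 0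
  rw [mul_one, add_zero] at h
  exact (mul_eq_left.1 h.symm)

theorem mn_zpow (a : Kˣ) (v : Fin (k + 1) → ℤ) (n : ℤ) : C.mn a v ^ n = C.mn (a ^ n) (n • v) := by
  induction n using Int.induction_on with
  | zero => simp [mn_one]
  | succ i ih =>
    rw [zpow_add_one, ih, ← mn_mul, ← zpow_add_one, add_smul, one_smul]
  | pred i ih =>
    rw [zpow_sub_one, ih, mul_inv_eq_iff_eq_mul, ← mn_mul, ← zpow_add_one]
    congr 1
    · congr 1
      ring
    · rw [sub_smul, one_smul, sub_add_cancel]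

theorem mn_sum {ι : Type*} (T : Finset ι) (v : ι → Fin (k + 1) → ℤ) :
    C.mn 1 (∑ t ∈ T, v t) = ∏ t ∈ T, C.mn 1 (v t) := by
  classical
  induction T using Finset.induction_on with
  | empty => simp [mn_one]
  | insert i t hi ih =>
    rw [Finset.sum_insert hi, Finset.prod_insert hi, ← ih, ← mn_mul, mul_one]

theorem mn_eq (a : Kˣ) (v : Fin (k + 1) → ℤ) :
    C.mn a v = C.mn a 0 * ∏ s, C.x s ^ v s := by
  have h1 : v = ∑ s, v s • (Pi.single s 1 : Fin (k + 1) → ℤ) := by
    funext t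
    simp [Finset.sum_apply, Pi.single_apply]
  have h2 : ∏ s, C.x s ^ v s = C.mn 1 v := by
    conv_rhs => rw [h1]
    rw [mn_sum]
    refine Finset.prod_congr rfl fun s _ => ?_
    unfold Dat.x
    rw [mn_zpow, one_zpow]
  rw [h2, ← mn_mul, mul_one, zero_add]

theorem mn_torsion {a : Kˣ} {N : ℕ} (ha : a ^ N = 1) : C.mn a 0 ^ N = 1 := by
  have := mn_zpow (C := C) a 0 N
  rw [zpow_natCast, zpow_natCast, ha, smul_zero, mn_one] at this
  exact this

theorem tu_mn {a : Kˣ} {N : ℕ} (hN : 0 < N) (ha : a ^ N = 1) (v : Fin (k + 1) → ℤ) :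
    tu (C.mn a v) = ∑ s, (v s : ℚ) • tu (C.x s) := by
  rw [mn_eq, tu_mul, tu_torsion hN (mn_torsion ha), zero_add, tu_prod]
  simp only [tu_zpow]

theorem tu_m (hC : C.Admissible) (j : Fin r) :
    tu (Dat.pt hC j).1 = ∑ s, (C.v j s : ℚ) • tu (C.x s) := by
  obtain ⟨N, hN, hN'⟩ := hC.tors j
  exact tu_mn hN hN' _

theorem sum_rel (hC : C.Admissible) :
    ∑ j, (C.n j : ℚ) • tu (Dat.pt hC j).co =
      ∑ s, ((1 / 2 : ℚ) * ∑ j, (C.n j : ℚ) * (C.v j s : ℚ)) • tu (C.x s) := by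
  have h1 : ∀ j, IsUnit (1 - ((((Dat.pt hC j).1)⁻¹ : C.Ringˣ) : C.Ring)) := by
    intro j
    have h1 := C.prod_eq_one
    rw [← Finset.mul_prod_erase Finset.univ _ (Finset.mem_univ j)] at h1
    have h2 := IsUnit.of_mul_eq_one _ h1
    rw [isUnit_pow_iff (hC.pos j).ne'] at h2
    exact isUnit_of_mul_isUnit_right h2
  choose g hg using h1
  have h2 : ∏ j, ((Dat.pt hC j).co * g j) ^ C.n j = 1 := by
    ext1
    rw [Units.coe_prod, Units.val_one]
    rw [← C.prod_eq_one]
    refine Finset.prod_congr rfl fun j _ => ?_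
    rw [Units.val_pow_eq_pow_val, Units.val_mul, hg]
    rfl
  have h3 := congrArg tu h2
  rw [tu_prod, tu_one] at h3
  have h4 : ∀ j, tu (((Dat.pt hC j).co * g j) ^ C.n j) =
      (2 : ℚ) • ((C.n j : ℚ) • tu (Dat.pt hC j).co) -
        (C.n j : ℚ) • ∑ s, (C.v j s : ℚ) • tu (C.x s) := by
    intro j
    rw [tu_pow, tu_mul, tu_co_inv (Dat.pt hC j) (hg j), tu_m hC]
    module
  rw [Finset.sum_congr rfl fun j _ => h4 j, Finset.sum_sub_distrib, ← Finset.smul_sum,
    sub_eq_zero] at h3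
  have h5 : ∑ j, (C.n j : ℚ) • tu (Dat.pt hC j).co =
      (1 / 2 : ℚ) • ∑ j, (C.n j : ℚ) • ∑ s, (C.v j s : ℚ) • tu (C.x s) := by
    rw [← h3, smul_smul]
    norm_num
  rw [h5]
  simp only [Finset.smul_sum, smul_smul]
  rw [Finset.sum_comm]
  refine Finset.sum_congr rfl fun s _ => ?_
  rw [← Finset.sum_smul, Finset.mul_sum]

theorem v_ne_zero (hC : C.Admissible) (hr : 2 ≤ r) (j : Fin r) : C.v j ≠ 0 := by
  intro h
  obtain ⟨i, hi⟩ : ∃ i : Fin r, i ≠ j := by
    have : Nontrivial (Fin r) := Fin.nontrivial_iff_two_le.2 hr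
    exact exists_ne j
  have := hC.indep j i hi.symm 1 0 (by rw [h, smul_zero, zero_smul])
  exact one_ne_zero this.1

theorem norm_ne (hC : C.Admissible) (hr : 2 ≤ r) (j : Fin r) : ∑ s, C.v j s ^ 2 ≠ 0 := by
  intro h
  apply v_ne_zero hC hr j
  funext s
  rw [Finset.sum_eq_zero_iff_of_nonneg (fun s _ => sq_nonneg _)] at h
  have := h s (Finset.mem_univ s)
  simpa using this

/-- the number of monomials is at least the dimension of the torus -/
theorem le_of_span (hC : C.Admissible) : k + 1 ≤ r := by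
  have h := finrank_range_le_card (R := ℚ) (fun (j : Fin r) (s : Fin (k + 1)) => (C.v j s : ℚ))
  rw [Set.finrank, hC.span, finrank_top, Module.finrank_fin_fun, Fintype.card_fin] at h
  exact h

theorem dif_alpha (hC : C.Admissible) (hr : 2 ≤ r) : dif C.Ring k (Dat.alpha hC) = 0 := by
  unfold Dat.alpha
  rw [map_sum]
  set X : Fin (k + 1) → UQ C.Ring := fun s => tu (C.x s) with hX
  -- the alternating map `u, w ↦ e ∧ u ∧ w`
  have hφ : ∀ (e u : UQ C.Ring) (w : Fin k → UQ C.Ring),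
      alt C.Ring (k + 2) (Fin.cons e (Fin.cons u w : Fin (k + 1) → UQ C.Ring)) =
        (alt C.Ring (k + 2)).curryLeft e (Fin.cons u w : Fin (k + 1) → UQ C.Ring) :=
    fun _ _ _ => rfl
  have h1 : ∀ j, dif C.Ring k (((C.n j : ℚ) / (∑ s, C.v j s ^ 2 : ℤ)) •
      ∑ s : Fin (k + 1), ((-1) ^ (s : ℕ) * (C.v j s : ℚ)) • br (Dat.pt hC j)
        fun l => C.x (s.succAbove l)) =
      (C.n j : ℚ) • alt C.Ring (k + 2) (Fin.cons (tu (Dat.pt hC j).co) X) := by
    intro j
    rw [map_smul, map_sum]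
    have h2 : ∀ s : Fin (k + 1), dif C.Ring k (((-1) ^ (s : ℕ) * (C.v j s : ℚ)) •
        br (Dat.pt hC j) fun l => C.x (s.succAbove l)) =
        ((C.v j s : ℚ) ^ 2) • alt C.Ring (k + 2) (Fin.cons (tu (Dat.pt hC j).co) X) := by
      intro s
      rw [map_smul]
      unfold br dif
      rw [Finsupp.linearCombination_single, one_smul]
      have h3 : wedge (Fin.cons (Dat.pt hC j).co (Fin.cons (Dat.pt hC j).1
          fun l => C.x (s.succAbove l) : Fin (k + 1) → C.Ringˣ) : Fin (k + 2) → C.Ringˣ) =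
          (alt C.Ring (k + 2)).curryLeft (tu (Dat.pt hC j).co)
            (Fin.cons (∑ t, (C.v j t : ℚ) • X t) fun l => X (s.succAbove l)) := by
        unfold wedge
        rw [← tu_m hC, ← hφ]
        congr 1
        funext i
        refine Fin.cases ?_ (fun i => ?_) i
        · rfl
        · refine Fin.cases ?_ (fun i => ?_) i
          · rfl
          · rfl
      rw [h3, alt_cons_comb, smul_smul]
      have h4 : (-1 : ℚ) ^ (s : ℕ) * (C.v j s : ℚ) * ((C.v j s : ℚ) * (-1) ^ (s : ℕ)) =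
          (C.v j s : ℚ) ^ 2 := by
        have : (-1 : ℚ) ^ (s : ℕ) * (-1) ^ (s : ℕ) = 1 := by
          rw [← mul_pow]
          norm_num
        linear_combination (C.v j s : ℚ) ^ 2 * this
      rw [h4]
      rfl
    rw [Finset.sum_congr rfl fun s _ => h2 s, ← Finset.sum_smul, smul_smul]
    congr 1
    have h7 : ((∑ s, C.v j s ^ 2 : ℤ) : ℚ) ≠ 0 := by exact_mod_cast norm_ne hC hr j
    have h8 : ((∑ s, C.v j s ^ 2 : ℤ) : ℚ) = ∑ s, (C.v j s : ℚ) ^ 2 := by push_cast; rfl
    rw [← h8]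
    field_simp
  rw [Finset.sum_congr rfl fun j _ => h1 j, ← alt_cons_sum (alt C.Ring (k + 2)), sum_rel hC,
    alt_cons_sum]
  refine Finset.sum_eq_zero fun s _ => ?_
  have : alt C.Ring (k + 2) (Fin.cons (tu (C.x s)) X) = 0 :=
    (alt C.Ring (k + 2)).map_eq_zero_of_eq _ (i := 0) (j := s.succ) rfl (Fin.succ_ne_zero s).symm
  rw [this, smul_zero]

end hyp

end Pool.Agent.Helper90.HB
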