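import Pool.Agent.Helper90.HB.Cone
import Pool.Agent.N65.TK.Base
set_option autoImplicit false

/-!
The spheres on the hypersurfaces, and their regulators.
-/

namespace Pool.Agent.Helper90.HB

open MeasureTheory Set Filter Topology Real Pool.Agent.TH826.MK
open Pool.Agent.N65.TK (Pt D Ls Dc hasDerivAt_Dc hasDerivAt_Ls exists_gt_one norm_root exists_angle
  norm_one_sub_exp sin_half_pos D_eq_BW)

variable {K : Type*} [Field K] {k r : ℕ} {C : Dat K (k + 1) r} (σ : K →+* ℂ)

/-- `m ↦ exp(i ⟨m, w⟩)` -/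
noncomputable def chr (w : Fin (k + 2) → ℝ) : Multiplicative (Fin (k + 2) → ℤ) →* ℂ where
  toFun m := Complex.exp (((∑ s, m.toAdd s * w s : ℝ) : ℂ) * Complex.I)
  map_one' := by simp
  map_mul' m m' := by
    rw [← Complex.exp_add, toAdd_mul, ← add_mul, ← Complex.ofReal_add, ← Finset.sum_add_distrib]
    congr 3
    refine Finset.sum_congr rfl fun s _ => ?_
    rw [Pi.add_apply]
    push_cast
    ring

/-- The value at the point with the coordinates `exp(i w_s)`. -/
noncomputable def ev (w : Fin (k + 2) → ℝ) : LP K (k + 1) →+* ℂ :=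
  AddMonoidAlgebra.liftNCRingHom σ (chr w) fun _ _ => mul_comm _ _

theorem ev_single (w : Fin (k + 2) → ℝ) (m : Fin (k + 2) → ℤ) (a : K) :
    ev σ w (AddMonoidAlgebra.single m a) =
      σ a * Complex.exp (((∑ s, m s * w s : ℝ) : ℂ) * Complex.I) :=
  AddMonoidAlgebra.liftNCRingHom_single _ _ _ _ _

theorem ev_mo (w : Fin (k + 2) → ℝ) (a : Kˣ) (m : Fin (k + 2) → ℤ) :
    ev σ w (mo a m : LP K (k + 1)) =
      σ a * Complex.exp (((∑ s, m s * w s : ℝ) : ℂ) * Complex.I) :=
  ev_single σ w m a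

theorem ev_eq (w : Fin (k + 2) → ℝ) (P : LP K (k + 1)) :
    ev σ w P = ∑ m ∈ P.coeff.support, σ (P.coeff m) *
      Complex.exp (((∑ s, m s * w s : ℝ) : ℂ) * Complex.I) := by
  conv_lhs => rw [← AddMonoidAlgebra.sum_coeff_single P]
  unfold Finsupp.sum
  rw [map_sum]
  simp only [ev_single]

theorem exists_generic (hC : C.Admissible) : ∃ q : Fin (k + 2) → ℤ, ∀ j, ∑ s, C.v j s * q s ≠ 0 := by
  have hr : 2 ≤ r := by
    have := le_of_span hC
    omega
  set P : Fin r → Polynomial ℤ := fun j =>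
    ∑ s : Fin (k + 2), Polynomial.C (C.v j s) * Polynomial.X ^ (s : ℕ) with hP
  have hPne : ∀ j, P j ≠ 0 := by
    intro j h
    apply v_ne_zero hC hr j
    funext s
    have h1 := congrArg (fun p => Polynomial.coeff p (s : ℕ)) h
    simp only [hP, Polynomial.finsetSum_coeff, Polynomial.coeff_C_mul_X_pow,
      Polynomial.coeff_zero] at h1
    rw [Finset.sum_eq_single s] at h1
    · simpa using h1
    · intro t _ ht
      rw [if_neg]
      intro e
      exact ht (Fin.ext e.symm)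
    · simp
  have hprod : ∏ j, P j ≠ 0 := Finset.prod_ne_zero_iff.2 fun j _ => hPne j
  obtain ⟨B, hB⟩ : ∃ B : ℤ, Polynomial.eval B (∏ j, P j) ≠ 0 := by
    by_contra hcon
    push Not at hcon
    exact hprod (Polynomial.funext fun x => by rw [hcon x, Polynomial.eval_zero])
  refine ⟨fun s => B ^ (s : ℕ), fun j h => ?_⟩
  rw [Polynomial.eval_prod, Finset.prod_ne_zero_iff] at hB
  apply hB j (Finset.mem_univ j)
  rw [hP]
  simp only [Polynomial.eval_finsetSum, Polynomial.eval_mul, Polynomial.eval_C,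
    Polynomial.eval_pow, Polynomial.eval_X]
  exact h

/-- The base point. -/
theorem exists_base (hC : C.Admissible) : ∃ (z : Fin (k + 2) → ℝ) (e : Fin r → ℝ),
    (∀ j, 0 < e j ∧ e j < 2 * π) ∧
    (∀ j, σ (C.ε j) * Complex.exp (((∑ s, C.v j s * z s : ℝ) : ℂ) * Complex.I) =
      Complex.exp (e j * Complex.I)) ∧ 0 < ∑ j, C.n j * Ls (e j) := by
  obtain ⟨q, hq⟩ := exists_generic hC
  have hr : 2 ≤ r := by
    have := le_of_span hC
    omega
  have i : Fin r := ⟨0, by omega⟩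
  set d : Fin r → ℤ := fun j => ∑ s, C.v j s * q s with hd
  obtain ⟨t, ht, hP⟩ := exists_gt_one (fun j => (d j).natAbs)
    (fun j => Int.natAbs_pos.2 (hq j))
    (fun j => if 0 < d j then σ (C.ε j) else (σ (C.ε j))⁻¹) (fun j => by
      split_ifs
      · exact norm_root σ (hC.tors j)
      · rw [norm_inv, norm_root σ (hC.tors j), inv_one]) C.n hC.pos i
  obtain ⟨φ, hφ⟩ : ∃ φ : ℝ, t = Complex.exp (φ * Complex.I) := by
    refine ⟨t.arg, ?_⟩
    have := Complex.norm_mul_exp_arg_mul_I t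
    rw [ht, Complex.ofReal_one, one_mul] at this
    exact this.symm
  have hm : ∀ j, σ (C.ε j) * Complex.exp (((∑ s, C.v j s * (q s * φ) : ℝ) : ℂ) * Complex.I) =
      σ (C.ε j) * t ^ d j := by
    intro j
    rw [hφ, ← Complex.exp_int_mul]
    congr 2
    have h1 : (∑ s, (C.v j s : ℝ) * (q s * φ) : ℝ) = (d j : ℝ) * φ := by
      rw [hd]
      push_cast
      rw [Finset.sum_mul]
      exact Finset.sum_congr rfl fun s _ => by ring
    rw [h1]
    push_cast
    ring
  have ht0 : t ≠ 0 := by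
    rw [hφ]
    exact Complex.exp_ne_zero _
  have hnm : ∀ j, ‖σ (C.ε j) * t ^ d j‖ = 1 := by
    intro j
    rw [norm_mul, norm_root σ (hC.tors j), norm_zpow, ht, one_zpow, mul_one]
  have hn1 : ∀ j, ‖1 - (if 0 < d j then σ (C.ε j) else (σ (C.ε j))⁻¹) * t ^ (d j).natAbs‖ =
      ‖1 - σ (C.ε j) * t ^ d j‖ := by
    intro j
    split_ifs with h
    · rw [← zpow_natCast, Int.natAbs_of_nonneg h.le]
    · have h2 : ((d j).natAbs : ℤ) = - d j := by
        have := hq j
        omega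
      have h3 : (σ (C.ε j))⁻¹ * t ^ (d j).natAbs = (σ (C.ε j) * t ^ d j)⁻¹ := by
        rw [← zpow_natCast, h2, zpow_neg, mul_inv]
      have h4 := hnm j
      have h5 : σ (C.ε j) * t ^ d j ≠ 0 := by
        intro h
        rw [h, norm_zero] at h4
        exact zero_ne_one h4
      rw [h3]
      have h6 : 1 - (σ (C.ε j) * t ^ d j)⁻¹ =
          -((1 - σ (C.ε j) * t ^ d j) * (σ (C.ε j) * t ^ d j)⁻¹) := by
        field_simp
        ring
      rw [h6, norm_neg, norm_mul, norm_inv, h4, inv_one, mul_one]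
  rw [norm_prod] at hP
  simp only [norm_pow, hn1] at hP
  have hne : ∀ j, σ (C.ε j) * t ^ d j ≠ 1 := by
    intro j h
    have h2 : ∏ j, ‖1 - σ (C.ε j) * t ^ d j‖ ^ C.n j = 0 := by
      refine Finset.prod_eq_zero (Finset.mem_univ j) ?_
      rw [h, sub_self, norm_zero, zero_pow (hC.pos j).ne']
    rw [h2] at hP
    linarith
  choose e he he' using fun j => exists_angle (hnm j) (hne j)
  refine ⟨fun s => q s * φ, e, he, fun j => ?_, ?_⟩
  · rw [hm, he']
  · have h7 : ∑ j, C.n j * Ls (e j) = Real.log (∏ j, ‖1 - σ (C.ε j) * t ^ d j‖ ^ C.n j) := by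
      rw [Real.log_prod]
      · refine Finset.sum_congr rfl fun j _ => ?_
        rw [Real.log_pow, he', norm_one_sub_exp (he j).1 (he j).2]
        rfl
      · intro j _
        refine pow_ne_zero _ ?_
        rw [norm_ne_zero_iff, sub_ne_zero]
        exact (hne j).symm
    rw [h7]
    exact Real.log_pos hP

section path

variable {z : Fin (k + 2) → ℝ} {e : Fin r → ℝ}

/-- the data -/
theorem cond_of (hC : C.Admissible) (he : ∀ j, 0 < e j ∧ e j < 2 * π)
    (hpos : 0 < ∑ j, C.n j * Ls (e j)) : Cond e C.n where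
  he := he
  hn := hC.pos
  pos := hpos

/-- the real exponent vectors -/
def rv (C : Dat K (k + 1) r) (j : Fin r) (s : Fin (k + 2)) : ℝ := C.v j s

theorem rv_span (hC : C.Admissible) (w : Fin (k + 2) → ℝ) (h : ∀ j, ∑ s, rv C j s * w s = 0) :
    w = 0 := by
  refine eq_zero_of_span hC.span w fun j => ?_
  rw [← h j]
  refine Finset.sum_congr rfl fun s _ => ?_
  rw [Rat.smul_def]
  simp [rv]

theorem ev_m (he' : ∀ j, σ (C.ε j) * Complex.exp (((∑ s, C.v j s * z s : ℝ) : ℂ) * Complex.I) =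
      Complex.exp (e j * Complex.I)) (x : Fin (k + 2) → ℝ) (j : Fin r) :
    ev σ (z + x) (C.m j : LP K (k + 1)) =
      Complex.exp (((e j + ∑ s, rv C j s * x s : ℝ) : ℂ) * Complex.I) := by
  unfold Dat.m
  rw [ev_mo, Complex.ofReal_add (e j), add_mul, Complex.exp_add, ← he' j, mul_assoc,
    ← Complex.exp_add, ← add_mul, ← Complex.ofReal_add, ← Finset.sum_add_distrib]
  congr 4
  refine Finset.sum_congr rfl fun s _ => ?_
  rw [Pi.add_apply, mul_add]
  rfl

theorem ev_eqn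
    (he' : ∀ j, σ (C.ε j) * Complex.exp (((∑ s, C.v j s * z s : ℝ) : ℂ) * Complex.I) =
      Complex.exp (e j * Complex.I)) (x : Fin (k + 2) → ℝ)
    (hr : ∀ j, 0 < e j + ∑ s, rv C j s * x s ∧ e j + ∑ s, rv C j s * x s < 2 * π)
    (h0 : ∑ j, C.n j * Ls (e j + ∑ s, rv C j s * x s) = 0) :
    ev σ (z + x) C.eqn = 0 := by
  unfold Dat.eqn
  rw [map_sub, map_one, sub_eq_zero, map_prod]
  have h1 : ∀ j, ev σ (z + x) (((1 - (C.m j : LP K (k + 1))) *
      (1 - ((C.m j)⁻¹ : (LP K (k + 1))ˣ))) ^ C.n j) =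
      ((Real.exp (2 * (C.n j * Ls (e j + ∑ s, rv C j s * x s))) : ℝ) : ℂ) := by
    intro j
    set θ := e j + ∑ s, rv C j s * x s with hθ
    have h2 : ev σ (z + x) (((C.m j)⁻¹ : (LP K (k + 1))ˣ) : LP K (k + 1)) =
        (Complex.exp ((θ : ℂ) * Complex.I))⁻¹ := by
      rw [← ev_m σ he' x j]
      refine eq_inv_of_mul_eq_one_right ?_
      rw [← map_mul, Units.mul_inv, map_one]
    rw [map_pow, map_mul, map_sub, map_sub, map_one, ev_m σ he', h2, ← hθ]
    have h3 : (1 - Complex.exp ((θ : ℂ) * Complex.I)) *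
        (1 - (Complex.exp ((θ : ℂ) * Complex.I))⁻¹) = ((2 * Real.sin (θ / 2)) ^ 2 : ℝ) := by
      rw [← norm_one_sub_exp (hr j).1 (hr j).2, ← hθ, ← Complex.normSq_eq_norm_sq,
        ← Complex.mul_conj]
      congr 1
      rw [map_sub, map_one, ← Complex.exp_neg, ← Complex.exp_conj]
      simp
    rw [h3, ← Complex.ofReal_pow]
    congr 1
    have hs := sin_half_pos (hr j).1 (hr j).2
    have h4 : Real.exp (Ls θ) = 2 * Real.sin (θ / 2) := by
      unfold Ls
      rw [Real.exp_log (by positivity)]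
    have h5 : Real.exp (2 * Ls θ) = (2 * Real.sin (θ / 2)) ^ 2 := by
      rw [two_mul, Real.exp_add, h4]
      ring
    rw [mul_left_comm, Real.exp_nat_mul, h5]
  rw [Finset.prod_congr rfl fun j _ => h1 j, ← Complex.ofReal_prod, ← Real.exp_sum,
    ← Finset.mul_sum, h0]
  simp

section build

variable (hC : C.Admissible) (he : ∀ j, 0 < e j ∧ e j < 2 * π)
  (he' : ∀ j, σ (C.ε j) * Complex.exp (((∑ s, C.v j s * z s : ℝ) : ℂ) * Complex.I) =
      Complex.exp (e j * Complex.I))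
  (hpos : 0 < ∑ j, C.n j * Ls (e j))

/-- the level hypersurface -/
noncomputable def lv (C : Dat K (k + 1) r) (e : Fin r → ℝ) :
    (Fin (k + 1) → ℝ) → Fin (k + 2) → ℝ := lev e C.n (rv C)

include hC he he' hpos in
theorem ev_zero (θ : Fin (k + 1) → ℝ) (P : LP K (k + 1)) (hP : P ∈ Ideal.span {C.eqn}) :
    ev σ (z + lv C e θ) P = 0 := by
  have hc := cond_of hC he hpos
  have hv := rv_span hC
  have h1 : ev σ (z + lv C e θ) C.eqn = 0 := by
    refine ev_eqn σ he' _ (fun j => ?_) (level_lev hc hv θ)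
    have := range_lev hc hv j 1 (right_mem_Icc.2 zero_le_one) θ
    simp only [one_mul] at this
    exact this
  rw [Ideal.mem_span_singleton'] at hP
  obtain ⟨Q, rfl⟩ := hP
  rw [map_mul, h1, mul_zero]

/-- The sphere on the hypersurface. -/
noncomputable def cyc : Cyc C.Ring (k + 1) where
  e θ := Ideal.Quotient.lift (Ideal.span {C.eqn}) (ev σ (z + lv C e θ))
    (ev_zero σ hC he he' hpos θ)
  smooth h := by
    obtain ⟨P, rfl⟩ := Ideal.Quotient.mk_surjective h
    have hφ := closed_lev (cond_of hC he hpos) (rv_span hC)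
    have h3 : (fun θ => Ideal.Quotient.lift (Ideal.span {C.eqn}) (ev σ (z + lv C e θ))
        (ev_zero σ hC he he' hpos θ) (Ideal.Quotient.mk _ P)) =
        fun θ => ∑ m ∈ P.coeff.support, σ (P.coeff m) *
          Complex.exp (((∑ s, m s * (z s + lv C e θ s) : ℝ) : ℂ) * Complex.I) := by
      funext θ
      rw [Ideal.Quotient.lift_mk, ev_eq]
      rfl
    have h4 : ContDiff ℝ 2 fun θ => ∑ m ∈ P.coeff.support, σ (P.coeff m) *
          Complex.exp (((∑ s, m s * (z s + lv C e θ s) : ℝ) : ℂ) * Complex.I) := by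
      refine ContDiff.sum fun m _ => contDiff_const.mul ?_
      have h5 : ContDiff ℝ 2 fun θ => (∑ s, m s * (z s + lv C e θ s) : ℝ) :=
        ContDiff.sum fun s _ => contDiff_const.mul (contDiff_const.add (hφ.smooth s))
      exact ((Complex.ofRealCLM.contDiff.comp h5).mul contDiff_const).cexp
    rw [← h3] at h4
    exact h4
  closed i := by
    have hφ := closed_lev (cond_of hC he hpos) (rv_span hC)
    have key : ∀ θ θ' : Fin (k + 1) → ℝ, lv C e θ = lv C e θ' →
        Ideal.Quotient.lift (Ideal.span {C.eqn}) (ev σ (z + lv C e θ))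
          (ev_zero σ hC he he' hpos θ) =
        Ideal.Quotient.lift (Ideal.span {C.eqn}) (ev σ (z + lv C e θ'))
          (ev_zero σ hC he he' hpos θ') := by
      intro θ θ' h
      simp only [h]
    rcases hφ.closed i with h | ⟨⟨j, hj, hj'⟩, ⟨l, hl, hl'⟩⟩
    · exact Or.inl fun θ => key _ _ (h θ)
    · exact Or.inr ⟨⟨j, hj, fun θ s h => key _ _ (hj' θ s h)⟩,
        ⟨l, hl, fun θ s h => key _ _ (hl' θ s h)⟩⟩

theorem cyc_proj (θ : Fin (k + 1) → ℝ) (P : LP K (k + 1)) :
    (cyc σ hC he he' hpos).e θ (C.proj P) = ev σ (z + lv C e θ) P :=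
  Ideal.Quotient.lift_mk _ _ _

theorem cyc_mn (θ : Fin (k + 1) → ℝ) (a : Kˣ) (m : Fin (k + 2) → ℤ) :
    (cyc σ hC he he' hpos).e θ (C.mn a m) = σ a *
      Complex.exp (((∑ s, m s * (z + lv C e θ) s : ℝ) : ℂ) * Complex.I) := by
  rw [← ev_mo σ (z + lv C e θ) a m, ← cyc_proj σ hC he he' hpos]
  rfl

theorem cyc_cst (θ : Fin (k + 1) → ℝ) (a : K) : (cyc σ hC he he' hpos).e θ (C.cst a) = σ a := by
  show (cyc σ hC he he' hpos).e θ (C.proj (AddMonoidAlgebra.singleZeroRingHom a)) = σ a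
  rw [cyc_proj]
  show ev σ (z + lv C e θ) (AddMonoidAlgebra.single 0 a) = σ a
  rw [ev_single]
  simp

theorem cyc_x (θ : Fin (k + 1) → ℝ) (s : Fin (k + 2)) :
    (cyc σ hC he he' hpos).e θ (C.x s) =
      Complex.exp (((z s + lv C e θ s : ℝ) : ℂ) * Complex.I) := by
  unfold Dat.x
  rw [cyc_mn, Units.val_one, map_one, one_mul]
  congr 3
  rw [Finset.sum_eq_single s]
  · simp
  · intro t _ ht
    rw [Pi.single_eq_of_ne ht]
    simp
  · simp

theorem cyc_pt (θ : Fin (k + 1) → ℝ) (j : Fin r) :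
    (cyc σ hC he he' hpos).e θ (Dat.pt hC j).1 = Complex.exp (((e j +
      aa (lv C e) (rv C j) θ : ℝ) : ℂ) * Complex.I) := by
  have := ev_m σ he' (lv C e θ) j
  unfold aa
  rw [← this]
  exact cyc_proj σ hC he he' hpos θ _

theorem lw_expI {u : (Fin (k + 1) → ℝ) → ℝ} (hu : ContDiff ℝ 2 u) (i : Fin (k + 1))
    (θ : Fin (k + 1) → ℝ) : lw (fun θ => Complex.exp ((u θ : ℂ) * Complex.I)) i θ =
      Complex.I * ((fderiv ℝ u θ (Pi.single i 1) : ℝ) : ℂ) := by
  have h1 : HasFDerivAt u (fderiv ℝ u θ) θ := (hu.differentiable (by norm_num) θ).hasFDerivAt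
  have h2 : HasFDerivAt (fun θ => (u θ : ℂ)) (Complex.ofRealCLM.comp (fderiv ℝ u θ)) θ :=
    Complex.ofRealCLM.hasFDerivAt.comp θ h1
  have h3 := (h2.mul_const Complex.I).cexp
  unfold lw
  have h4 : fderiv ℝ (fun θ => Complex.exp ((u θ : ℂ) * Complex.I)) θ = _ := h3.fderiv
  rw [h4]
  simp only [smul_apply, smul_eq_mul, ContinuousLinearMap.comp_apply]
  rw [mul_div_cancel_left₀ _ (Complex.exp_ne_zero _)]
  rfl

theorem cyc_lw_x (t : Fin (k + 2)) (i : Fin (k + 1)) (θ : Fin (k + 1) → ℝ) :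
    lw ((cyc σ hC he he' hpos).fn (C.x t)) i θ = Complex.I * ((dp (lv C e) t i θ : ℝ) : ℂ) := by
  have hφ : ClosedMap (lv C e) := closed_lev (cond_of hC he hpos) (rv_span hC)
  have h1 : (cyc σ hC he he' hpos).fn (C.x t) = fun θ =>
      Complex.exp (((z t + lv C e θ t : ℝ) : ℂ) * Complex.I) := funext fun θ => cyc_x _ _ _ _ _ _ _
  rw [h1, lw_expI (u := fun θ => z t + lv C e θ t) (contDiff_const.add (hφ.smooth t))]
  congr 3
  rw [fderiv_const_add]

theorem cyc_Pst (j : Fin r) (y : Fin (k + 2) → ℝ) :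
    Pst ((cyc σ hC he he' hpos).fn (Dat.pt hC j).1) y =
      Pi.single 0 (-(Complex.I * ((Dc (e j + aa (lv C e) (rv C j) (tl (k + 1) y)) : ℝ) : ℂ))) := by
  have hφ : ClosedMap (lv C e) := closed_lev (cond_of hC he hpos) (rv_span hC)
  have h1 : (cyc σ hC he he' hpos).fn (Dat.pt hC j).1 = fun θ =>
      Complex.exp (((e j + aa (lv C e) (rv C j) θ : ℝ) : ℂ) * Complex.I) :=
    funext fun θ => cyc_pt _ _ _ _ _ _ _
  funext l
  refine Fin.cases ?_ (fun l => ?_) l
  · rw [Pi.single_eq_same]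
    unfold Dc
    rw [D_eq_BW, h1]
    rfl
  · rw [Pi.single_eq_of_ne (Fin.succ_ne_zero l), Pst_eq]
    have h2 : lam ((cyc σ hC he he' hpos).fn (Dat.pt hC j).1) l (tl (k + 1) y) = 0 := by
      unfold lam
      have h3 : (lw ((cyc σ hC he he' hpos).fn (Dat.pt hC j).1) l (tl (k + 1) y)).re = 0 := by
        rw [h1, lw_expI (u := fun θ => e j + aa (lv C e) (rv C j) θ)
          (contDiff_const.add (contDiff_aa hφ (rv C j)))]
        simp
      have h4 : Real.log ‖(cyc σ hC he he' hpos).fn (Dat.pt hC j).1 (tl (k + 1) y)‖ = 0 := by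
        rw [h1]
        simp only []
        rw [Complex.norm_exp_ofReal_mul_I, Real.log_one]
      rw [h3, h4]
      ring
    rw [h2, mul_zero, Complex.ofReal_zero]

theorem cyc_fr (j : Fin r) (s : Fin (k + 2)) (y : Fin (k + 2) → ℝ) :
    (cyc σ hC he he' hpos).fr (Dat.pt hC j) (fun l => C.x (s.succAbove l)) y =
      Dc (e j + aa (lv C e) (rv C j) (tl (k + 1) y)) * minor (lv C e) s (tl (k + 1) y) := by
  unfold Cyc.fr Cyc.mat
  rw [cyc_Pst, det_cons_single]
  have h1 : (Matrix.of fun l i : Fin (k + 1) =>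
      grow ((cyc σ hC he he' hpos).fn (C.x (s.succAbove l))) y i.succ) =
      Matrix.of fun l i : Fin (k + 1) => (fun _ : Fin (k + 1) => Complex.I) l *
        (Matrix.of fun l i : Fin (k + 1) =>
          ((dp (lv C e) (s.succAbove l) i (tl (k + 1) y) : ℝ) : ℂ)) l i := by
    ext l i
    rw [Matrix.of_apply, Matrix.of_apply, Matrix.of_apply, grow_succ, cyc_lw_x]
    simp
  rw [h1, Matrix.det_mul_column, Finset.prod_const, Finset.card_univ, Fintype.card_fin, det_ofReal]
  have h2 : (Matrix.of fun l i : Fin (k + 1) => dp (lv C e) (s.succAbove l) i (tl (k + 1) y)).det =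
    minor (lv C e) s (tl (k + 1) y) := rfl
  rw [h2]
  set a := Dc (e j + aa (lv C e) (rv C j) (tl (k + 1) y))
  set b := minor (lv C e) s (tl (k + 1) y)
  have h3 : (-Complex.I) ^ (k + 1) * Complex.I ^ (k + 1) = 1 := by
    rw [← mul_pow]
    simp
  have h4 : (-Complex.I) ^ (k + 1) * Complex.I * (-(Complex.I * (a : ℂ)) *
      (Complex.I ^ (k + 1) * (b : ℂ))) = ((a * b : ℝ) : ℂ) := by
    have h5 : Complex.I * Complex.I = -1 := Complex.I_mul_I
    push_cast
    linear_combination (a : ℂ) * b * h3 - ((-Complex.I) ^ (k + 1) * Complex.I ^ (k + 1) * a * b) * h5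
  rw [h4, Complex.ofReal_re]

/-- The regulator of the class on the sphere. -/
theorem reg_alpha : (cyc σ hC he he' hpos).reg (Dat.alpha hC) =
    ∑ j, (C.n j : ℝ) / (∑ s, rv C j s ^ 2) * ∑ s : Fin (k + 2), ((-1) ^ (s : ℕ) * rv C j s) *
      ∫ x in Icc (0 : Fin (k + 1) → ℝ) 1,
        Dc (e j + aa (lv C e) (rv C j) x) * minor (lv C e) s x := by
  unfold Dat.alpha
  rw [map_sum]
  refine Finset.sum_congr rfl fun j _ => ?_
  rw [map_smul, map_sum, Rat.smul_def]
  have hcoef : (((C.n j : ℚ) / (∑ s, C.v j s ^ 2 : ℤ) : ℚ) : ℝ) =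
      (C.n j : ℝ) / (∑ s, rv C j s ^ 2) := by
    push_cast
    rfl
  rw [hcoef]
  congr 1
  refine Finset.sum_congr rfl fun s _ => ?_
  rw [map_smul, Rat.smul_def, Cyc.reg_br]
  simp only [cyc_fr]
  rw [integral_tl fun x => Dc (e j + aa (lv C e) (rv C j) x) * minor (lv C e) s x]
  congr 1
  push_cast
  rfl

theorem reg_alpha_neg : (cyc σ hC he he' hpos).reg (Dat.alpha hC) < 0 := by
  rw [reg_alpha]
  refine sum_neg (cond_of hC he hpos) (rv_span hC) fun j => ?_
  have h1 := norm_ne hC (by have := le_of_span hC; omega) j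
  have h2 : (∑ s, rv C j s ^ 2) = ((∑ s, C.v j s ^ 2 : ℤ) : ℝ) := by
    push_cast
    rfl
  rw [h2]
  exact_mod_cast h1

end build

/-- For every complex embedding there is a sphere with nonzero regulator. -/
theorem exists_cyc (hC : C.Admissible) (σ : K →+* ℂ) : ∃ γ : Cyc C.Ring (k + 1),
    (∀ θ a, γ.e θ (C.cst a) = σ a) ∧
    (∀ θ s, ‖γ.e θ (C.x s)‖ = 1) ∧ γ.reg (Dat.alpha hC) < 0 := by
  obtain ⟨z, e, he, he', hpos⟩ := exists_base σ hC
  refine ⟨cyc σ hC he he' hpos, fun θ a => cyc_cst σ hC he he' hpos θ a, fun θ s => ?_,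
    reg_alpha_neg σ hC he he' hpos⟩
  rw [cyc_x, Complex.norm_exp_ofReal_mul_I]

end path

end Pool.Agent.Helper90.HB
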