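import Pool.Agent.N65.TK.Ray
set_option autoImplicit false

/-!
The zero on a ray of a sum of the functions `n_j log (2 sin (θ_j / 2))`, `θ_j = e_j + ρ a_j`, as a
function of the direction `a`.
-/

namespace Pool.Agent.Helper90.HB

open Set Filter Topology Real
open Pool.Agent.N65.TK (Ls sin_half_pos hasDerivAt_Ls Ls_le_tangent)

section ray

variable {r : ℕ} (e : Fin r → ℝ) (n : Fin r → ℕ)

/-- the angle `θ_j` -/
def th (j : Fin r) (a : Fin r → ℝ) (ρ : ℝ) : ℝ := e j + ρ * a j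

/-- the sum of the logarithms -/
noncomputable def Hs (a : Fin r → ℝ) (ρ : ℝ) : ℝ := ∑ j, n j * Ls (th e j a ρ)

/-- the product -/
noncomputable def Ps (a : Fin r → ℝ) (ρ : ℝ) : ℝ := ∏ j, (2 * Real.sin (th e j a ρ / 2)) ^ n j

/-- the chamber -/
def Ch (a : Fin r → ℝ) (ρ : ℝ) : Prop := ∀ j, 0 < th e j a ρ ∧ th e j a ρ < 2 * π

variable {e n}

theorem exp_Hs {a : Fin r → ℝ} {ρ : ℝ} (h : Ch e a ρ) : Real.exp (Hs e n a ρ) = Ps e n a ρ := by
  unfold Hs Ps
  rw [Real.exp_sum]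
  refine Finset.prod_congr rfl fun j _ => ?_
  have hs := sin_half_pos (h j).1 (h j).2
  unfold Ls
  rw [Real.exp_nat_mul, Real.exp_log (by positivity)]

theorem th_zero (j : Fin r) (a : Fin r → ℝ) : th e j a 0 = e j := by
  unfold th; ring

theorem Ch_zero (he : ∀ j, 0 < e j ∧ e j < 2 * π) (a : Fin r → ℝ) : Ch e a 0 := by
  intro j
  rw [th_zero]
  exact he j

theorem continuous_Ps (a : Fin r → ℝ) : Continuous (Ps e n a) := by
  unfold Ps th
  fun_prop

theorem Hs_tangent {a : Fin r → ℝ} {ρ ρ' : ℝ} (h : Ch e a ρ) (h' : Ch e a ρ') :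
    Hs e n a ρ' ≤ Hs e n a ρ + (ρ' - ρ) * ∑ j, n j * (a j *
      (Real.cos (th e j a ρ / 2) / (2 * Real.sin (th e j a ρ / 2)))) := by
  unfold Hs
  rw [Finset.mul_sum, ← Finset.sum_add_distrib]
  refine Finset.sum_le_sum fun j _ => ?_
  have h1 := Ls_le_tangent (h' j).1 (h' j).2 (h j).1 (h j).2
  have h2 : th e j a ρ' - th e j a ρ = (ρ' - ρ) * a j := by
    unfold th; ring
  rw [h2] at h1
  have h3 : (0 : ℝ) ≤ n j := Nat.cast_nonneg _
  have h4 := mul_le_mul_of_nonneg_left h1 h3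
  linarith

variable (e n) in
/-- the radius -/
noncomputable def rad (a : Fin r → ℝ) : ℝ := sInf {ρ : ℝ | 0 ≤ ρ ∧ Ps e n a ρ ≤ 1}

/-- the conditions -/
structure Cond (e : Fin r → ℝ) (n : Fin r → ℕ) : Prop where
  he : ∀ j, 0 < e j ∧ e j < 2 * π
  hn : ∀ j, 0 < n j
  pos : 0 < ∑ j, n j * Ls (e j)

variable (hc : Cond e n)

include hc

theorem Cond.Hs_zero (a : Fin r → ℝ) : 0 < Hs e n a 0 := by
  unfold Hs
  simp only [th_zero]
  exact hc.pos

theorem Cond.nonempty {a : Fin r → ℝ} (ha : a ≠ 0) : {ρ : ℝ | 0 ≤ ρ ∧ Ps e n a ρ ≤ 1}.Nonempty := by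
  obtain ⟨j, hj⟩ := Function.ne_iff.1 ha
  rw [Pi.zero_apply] at hj
  obtain ⟨h1, h2⟩ := hc.he j
  obtain ⟨ρ, h0, hρ⟩ : ∃ ρ : ℝ, 0 ≤ ρ ∧ Real.sin (th e j a ρ / 2) = 0 := by
    rcases lt_or_gt_of_ne hj with h | h
    · refine ⟨-e j / a j, div_nonneg_of_nonpos (by linarith) h.le, ?_⟩
      have : th e j a (-e j / a j) = 0 := by
        unfold th
        field_simp
        ring
      rw [this]
      simp
    · refine ⟨(2 * π - e j) / a j, div_nonneg (by linarith) h.le, ?_⟩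
      have : th e j a ((2 * π - e j) / a j) = 2 * π := by
        unfold th
        field_simp
        ring
      rw [this, mul_div_cancel_left₀ _ (by norm_num : (2 : ℝ) ≠ 0), Real.sin_pi]
  refine ⟨ρ, h0, ?_⟩
  have : Ps e n a ρ = 0 := by
    unfold Ps
    refine Finset.prod_eq_zero (Finset.mem_univ j) ?_
    rw [hρ, mul_zero, zero_pow (hc.hn j).ne']
  rw [this]
  exact zero_le_one

omit hc in
theorem Cond.isClosed (a : Fin r → ℝ) : IsClosed {ρ : ℝ | 0 ≤ ρ ∧ Ps e n a ρ ≤ 1} :=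
  (isClosed_le continuous_const continuous_id).inter
    (isClosed_le (continuous_Ps a) continuous_const)

omit hc in
theorem Cond.bddBelow (a : Fin r → ℝ) : BddBelow {ρ : ℝ | 0 ≤ ρ ∧ Ps e n a ρ ≤ 1} :=
  ⟨0, fun _ h => h.1⟩

theorem Cond.rad_mem {a : Fin r → ℝ} (ha : a ≠ 0) :
    0 ≤ rad e n a ∧ Ps e n a (rad e n a) ≤ 1 :=
  (Cond.isClosed a).csInf_mem (hc.nonempty ha) (Cond.bddBelow a)

theorem Cond.one_lt_Ps_zero (a : Fin r → ℝ) : 1 < Ps e n a 0 := by
  rw [← exp_Hs (Ch_zero hc.he a)]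
  exact Real.one_lt_exp_iff.2 (hc.Hs_zero a)

theorem Cond.rad_pos {a : Fin r → ℝ} (ha : a ≠ 0) : 0 < rad e n a := by
  obtain ⟨h0, h1⟩ := hc.rad_mem ha
  refine lt_of_le_of_ne h0 fun h => ?_
  rw [← h] at h1
  exact absurd h1 (not_le.2 (hc.one_lt_Ps_zero a))

omit hc in
theorem Cond.one_lt_of_lt {a : Fin r → ℝ} {ρ : ℝ} (h0 : 0 ≤ ρ) (h1 : ρ < rad e n a) :
    1 < Ps e n a ρ := by
  by_contra hcon
  exact absurd (csInf_le (Cond.bddBelow a) ⟨h0, not_lt.1 hcon⟩) (not_le.2 h1)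

theorem Cond.Ps_rad {a : Fin r → ℝ} (ha : a ≠ 0) : Ps e n a (rad e n a) = 1 := by
  refine le_antisymm (hc.rad_mem ha).2 ?_
  have hρ := hc.rad_pos ha
  have h1 : Tendsto (Ps e n a) (𝓝[<] (rad e n a)) (𝓝 (Ps e n a (rad e n a))) :=
    ((continuous_Ps a).tendsto _).mono_left nhdsWithin_le_nhds
  refine ge_of_tendsto h1 ?_
  have h2 : Ioo 0 (rad e n a) ∈ 𝓝[<] (rad e n a) := Ioo_mem_nhdsLT hρ
  filter_upwards [h2] with ρ hρ'
  exact (Cond.one_lt_of_lt hρ'.1.le hρ'.2).le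

theorem Cond.Ch_of_le {a : Fin r → ℝ} (ha : a ≠ 0) {ρ : ℝ} (h0 : 0 ≤ ρ) (h1 : ρ ≤ rad e n a) :
    Ch e a ρ := by
  have hpos : ∀ x, 0 ≤ x → x ≤ rad e n a → ∀ j, Real.sin (th e j a x / 2) ≠ 0 := by
    intro x hx0 hx1 j hs
    have h2 : Ps e n a x = 0 := by
      unfold Ps
      refine Finset.prod_eq_zero (Finset.mem_univ j) ?_
      rw [hs, mul_zero, zero_pow (hc.hn j).ne']
    rcases eq_or_lt_of_le hx1 with h | h
    · have := hc.Ps_rad ha
      rw [← h, h2] at this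
      exact zero_ne_one this
    · have := Cond.one_lt_of_lt hx0 h
      rw [h2] at this
      linarith
  intro j
  obtain ⟨h2, h3⟩ := hc.he j
  constructor
  · by_contra hcon
    rw [not_lt] at hcon
    have h4 : e j + ρ * a j ≤ 0 := hcon
    have ha0 : a j < 0 := by
      by_contra h
      rw [not_lt] at h
      have := mul_nonneg h0 h
      linarith
    refine hpos (-e j / a j) (div_nonneg_of_nonpos (by linarith) ha0.le) ?_ j ?_
    · refine le_trans ?_ h1
      rw [div_le_iff_of_neg ha0]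
      linarith
    · have : th e j a (-e j / a j) = 0 := by
        unfold th
        rw [div_mul_cancel₀ _ ha0.ne]
        ring
      rw [this]
      simp
  · by_contra hcon
    rw [not_lt] at hcon
    have h4 : 2 * π ≤ e j + ρ * a j := hcon
    have ha0 : 0 < a j := by
      by_contra h
      rw [not_lt] at h
      have := mul_nonpos_of_nonneg_of_nonpos h0 h
      linarith
    refine hpos ((2 * π - e j) / a j) (div_nonneg (by linarith) ha0.le) ?_ j ?_
    · refine le_trans ?_ h1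
      rw [div_le_iff₀ ha0]
      linarith
    · have : th e j a ((2 * π - e j) / a j) = 2 * π := by
        unfold th
        rw [div_mul_cancel₀ _ ha0.ne']
        ring
      rw [this, mul_div_cancel_left₀ _ (by norm_num : (2 : ℝ) ≠ 0), Real.sin_pi]

theorem Cond.Hs_rad {a : Fin r → ℝ} (ha : a ≠ 0) : Hs e n a (rad e n a) = 0 := by
  have h := exp_Hs (n := n) (hc.Ch_of_le ha (hc.rad_pos ha).le le_rfl)
  rw [hc.Ps_rad ha] at h
  exact Real.exp_eq_one_iff _ |>.1 h

theorem Cond.Hs_pos {a : Fin r → ℝ} (ha : a ≠ 0) {ρ : ℝ} (h0 : 0 ≤ ρ) (h1 : ρ < rad e n a) :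
    0 < Hs e n a ρ := by
  have h := exp_Hs (n := n) (hc.Ch_of_le ha h0 h1.le)
  have h2 := Cond.one_lt_of_lt h0 h1
  rw [← h] at h2
  exact Real.one_lt_exp_iff.1 h2

theorem Cond.slope_neg {a : Fin r → ℝ} (ha : a ≠ 0) : ∑ j, n j * (a j *
      (Real.cos (th e j a (rad e n a) / 2) / (2 * Real.sin (th e j a (rad e n a) / 2)))) < 0 := by
  have hR := hc.rad_pos ha
  have hChR := hc.Ch_of_le ha hR.le le_rfl
  have t1 := Hs_tangent (n := n) hChR (Ch_zero hc.he a)
  rw [hc.Hs_rad ha, zero_add] at t1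
  have hz := hc.Hs_zero a
  by_contra h
  rw [not_lt] at h
  have := mul_nonneg hR.le h
  linarith

theorem Cond.eq_rad {a : Fin r → ℝ} (ha : a ≠ 0) {ρ : ℝ} (h0 : 0 < ρ) (h1 : Ch e a ρ)
    (h2 : Hs e n a ρ = 0) : rad e n a = ρ := by
  have h3 : rad e n a ≤ ρ := by
    refine csInf_le (Cond.bddBelow a) ⟨h0.le, ?_⟩
    rw [← exp_Hs h1, h2, Real.exp_zero]
  refine le_antisymm h3 ?_
  have hR := hc.rad_pos ha
  have hChR := hc.Ch_of_le ha hR.le le_rfl
  have t2 := Hs_tangent (n := n) hChR h1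
  rw [hc.Hs_rad ha, zero_add, h2] at t2
  have hS0 := hc.slope_neg ha
  by_contra hcon
  rw [not_le] at hcon
  have : (ρ - rad e n a) * ∑ j, n j * (a j *
      (Real.cos (th e j a (rad e n a) / 2) / (2 * Real.sin (th e j a (rad e n a) / 2)))) < 0 :=
    mul_neg_of_pos_of_neg (by linarith) hS0
  linarith

theorem Cond.contDiffAt_rad {a : Fin r → ℝ} (ha : a ≠ 0) : ContDiffAt ℝ 2 (rad e n) a := by
  have hR := hc.rad_pos ha
  have hCh := hc.Ch_of_le ha hR.le le_rfl
  set f : (Fin r → ℝ) × ℝ → ℝ := fun p => Hs e n p.1 p.2 with hf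
  have hcd : ContDiffAt ℝ 2 f (a, rad e n a) := by
    rw [hf]
    unfold Hs Ls th
    refine ContDiffAt.sum fun j _ => ContDiffAt.mul contDiffAt_const ?_
    refine ContDiffAt.log (by fun_prop) ?_
    have := sin_half_pos (hCh j).1 (hCh j).2
    exact (mul_pos two_pos this).ne'
  have hder : HasDerivAt (fun ρ => f (a, ρ)) (∑ j, n j * (a j *
      (Real.cos (th e j a (rad e n a) / 2) / (2 * Real.sin (th e j a (rad e n a) / 2)))))
      (rad e n a) := by
    rw [hf]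
    unfold Hs
    refine HasDerivAt.fun_sum fun j _ => ?_
    have h1 : HasDerivAt (fun ρ => th e j a ρ) (a j) (rad e n a) := by
      unfold th
      have := ((hasDerivAt_id (rad e n a)).mul_const (a j)).const_add (e j)
      simpa using this
    have h2 := (hasDerivAt_Ls (hCh j).1 (hCh j).2).comp (rad e n a) h1
    refine (h2.const_mul (n j : ℝ)).congr_deriv ?_
    ring
  have hinv : (fderiv ℝ f (a, rad e n a) ∘L ContinuousLinearMap.inr ℝ (Fin r → ℝ) ℝ).IsInvertible := by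
    have h1 : HasFDerivAt f (fderiv ℝ f (a, rad e n a)) (a, rad e n a) :=
      (hcd.differentiableAt (by norm_num)).hasFDerivAt
    have h2 : HasDerivAt (fun ρ : ℝ => ((a, ρ) : (Fin r → ℝ) × ℝ)) (0, 1) (rad e n a) :=
      (hasDerivAt_const _ _).prodMk (hasDerivAt_id _)
    have h3 := h1.comp_hasDerivAt _ h2
    have h4 := h3.unique hder
    have h5 : (fderiv ℝ f (a, rad e n a) ∘L ContinuousLinearMap.inr ℝ (Fin r → ℝ) ℝ) 1 ≠ 0 := by
      show fderiv ℝ f (a, rad e n a) (0, 1) ≠ 0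
      rw [h4]
      exact (hc.slope_neg ha).ne
    set g := fderiv ℝ f (a, rad e n a) ∘L ContinuousLinearMap.inr ℝ (Fin r → ℝ) ℝ with hg
    refine ⟨ContinuousLinearEquiv.unitsEquivAut ℝ (Units.mk0 (g 1) h5), ?_⟩
    ext
    simp
  set ψ := hcd.implicitFunction (by norm_num) hinv with hψ
  have hψc : ContDiffAt ℝ 2 ψ a := hcd.contDiffAt_implicitFunction (by norm_num) hinv
  have hψ0 : ψ a = rad e n a := hcd.implicitFunction_apply_self (by norm_num) hinv
  have hψe := hcd.eventually_apply_implicitFunction (by norm_num) hinv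
  refine hψc.congr_of_eventuallyEq ?_
  have hcont : ContinuousAt ψ a := hψc.continuousAt
  have hpos : ∀ᶠ x in 𝓝 a, 0 < ψ x := by
    have := hcont.tendsto
    rw [hψ0] at this
    exact this.eventually (lt_mem_nhds hR)
  have hne : ∀ᶠ x in 𝓝 a, x ≠ 0 := isOpen_ne.mem_nhds ha
  have hch : ∀ᶠ x in 𝓝 a, Ch e x (ψ x) := by
    have h1 : ∀ j, ContinuousAt (fun x => th e j x (ψ x)) a := by
      intro j
      unfold th
      fun_prop
    unfold Ch
    rw [eventually_all]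
    intro j
    have h2 := (h1 j).tendsto
    rw [hψ0] at h2
    exact (h2.eventually (lt_mem_nhds (hCh j).1)).and (h2.eventually (gt_mem_nhds (hCh j).2))
  filter_upwards [hψe, hpos, hch, hne] with x h1 h2 h3 h4
  refine hc.eq_rad h4 h2 h3 ?_
  have : f (x, ψ x) = f (a, rad e n a) := h1
  rw [hf] at this
  simp only [] at this
  rw [this, hc.Hs_rad ha]

end ray

end Pool.Agent.Helper90.HB
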