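import Pool.Agent.TH826.MK.Form
set_option autoImplicit false

/-!
Spherical coordinates.
-/

namespace Pool.Agent.Helper90.HB

open Set Filter Topology Real
open Pool.Agent.TH826.MK (tl tl_apply tl_single_zero tl_single_succ)

/-- Spherical coordinates on the unit sphere in `ℝ^(k+2)`. -/
noncomputable def sph : (k : ℕ) → (Fin (k + 1) → ℝ) → Fin (k + 2) → ℝ
  | 0, θ => ![Real.cos (2 * π * θ 0), Real.sin (2 * π * θ 0)]
  | k + 1, θ => Fin.cons (Real.cos (π * θ 0)) fun i => Real.sin (π * θ 0) * sph k (tl (k + 1) θ) i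

theorem sph_zero_zero (θ : Fin 1 → ℝ) : sph 0 θ 0 = Real.cos (2 * π * θ 0) := rfl

theorem sph_zero_one (θ : Fin 1 → ℝ) : sph 0 θ 1 = Real.sin (2 * π * θ 0) := rfl

theorem sph_succ_zero (k : ℕ) (θ : Fin (k + 2) → ℝ) : sph (k + 1) θ 0 = Real.cos (π * θ 0) := rfl

theorem sph_succ_succ (k : ℕ) (θ : Fin (k + 2) → ℝ) (i : Fin (k + 2)) :
    sph (k + 1) θ i.succ = Real.sin (π * θ 0) * sph k (tl (k + 1) θ) i := rfl

theorem contDiff_sph : ∀ (k : ℕ) (s : Fin (k + 2)), ContDiff ℝ 2 fun θ => sph k θ s := by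
  intro k
  induction k with
  | zero =>
    intro s
    fin_cases s
    · show ContDiff ℝ 2 fun θ : Fin 1 → ℝ => Real.cos (2 * π * θ 0)
      fun_prop
    · show ContDiff ℝ 2 fun θ : Fin 1 → ℝ => Real.sin (2 * π * θ 0)
      fun_prop
  | succ k ih =>
    intro s
    refine Fin.cases ?_ (fun s => ?_) s
    · show ContDiff ℝ 2 fun θ : Fin (k + 2) → ℝ => Real.cos (π * θ 0)
      fun_prop
    · have h1 := (ih s).comp (tl (k + 1)).contDiff
      have h2 : ContDiff ℝ 2 fun θ : Fin (k + 2) → ℝ => Real.sin (π * θ 0) := by fun_prop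
      exact h2.mul h1

theorem sum_sph (k : ℕ) : ∀ θ : Fin (k + 1) → ℝ, ∑ s, sph k θ s ^ 2 = 1 := by
  induction k with
  | zero =>
    intro θ
    rw [Fin.sum_univ_two, sph_zero_zero, sph_zero_one]
    exact Real.cos_sq_add_sin_sq _
  | succ k ih =>
    intro θ
    rw [Fin.sum_univ_succ]
    simp only [sph_succ_succ, mul_pow, sph_succ_zero]
    rw [← Finset.mul_sum, ih, mul_one]
    exact Real.cos_sq_add_sin_sq _

theorem sph_ne_zero (k : ℕ) (θ : Fin (k + 1) → ℝ) : sph k θ ≠ 0 := by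
  intro h
  have := sum_sph k θ
  rw [h] at this
  simp at this

theorem tl_update_succ {k : ℕ} (θ : Fin (k + 1) → ℝ) (j : Fin k) (s : ℝ) :
    tl k (Function.update θ j.succ s) = Function.update (tl k θ) j s := by
  funext i
  rw [tl_apply]
  by_cases h : i = j
  · subst h; simp
  · rw [Function.update_of_ne h, Function.update_of_ne (fun e => h (Fin.succ_injective _ e)),
      tl_apply]

theorem sph_periodic (θ : Fin 1 → ℝ) : sph 0 (θ + Pi.single 0 1) = sph 0 θ := by
  have h1 : (θ + Pi.single 0 1 : Fin 1 → ℝ) 0 = θ 0 + 1 := by simp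
  have e0 : sph 0 (θ + Pi.single 0 1) 0 = sph 0 θ 0 := by
    rw [sph_zero_zero, sph_zero_zero, h1, mul_add, mul_one, Real.cos_add_two_pi]
  have e1 : sph 0 (θ + Pi.single 0 1) 1 = sph 0 θ 1 := by
    rw [sph_zero_one, sph_zero_one, h1, mul_add, mul_one, Real.sin_add_two_pi]
  funext s
  fin_cases s
  · exact e0
  · exact e1

theorem closed_sph (k : ℕ) : ∀ i : Fin (k + 1), (∀ θ, sph k (θ + Pi.single i 1) = sph k θ) ∨
    ((∃ j, j ≠ i ∧ ∀ θ s, θ i = 0 → sph k (Function.update θ j s) = sph k θ) ∧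
     (∃ j, j ≠ i ∧ ∀ θ s, θ i = 1 → sph k (Function.update θ j s) = sph k θ)) := by
  induction k with
  | zero =>
    intro i
    left
    intro θ
    obtain rfl : i = 0 := Fin.ext (by omega)
    exact sph_periodic θ
  | succ k ih =>
    intro i
    refine Fin.cases ?_ (fun i => ?_) i
    · right
      have key : ∀ (θ : Fin (k + 2) → ℝ) (s : ℝ), Real.sin (π * θ 0) = 0 →
          sph (k + 1) (Function.update θ 1 s) = sph (k + 1) θ := by
        intro θ s h
        have h0 : Function.update θ 1 s 0 = θ 0 := Function.update_of_ne (by simp) _ _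
        funext t
        refine Fin.cases ?_ (fun t => ?_) t
        · rw [sph_succ_zero, sph_succ_zero, h0]
        · rw [sph_succ_succ, sph_succ_succ, h0, h, zero_mul, zero_mul]
      refine ⟨⟨1, by simp, fun θ s h => key θ s (by rw [h]; simp)⟩,
        ⟨1, by simp, fun θ s h => key θ s (by rw [h]; simp)⟩⟩
    · have h0 : ∀ (θ : Fin (k + 2) → ℝ) (j : Fin (k + 1)) (s : ℝ),
          Function.update θ j.succ s 0 = θ 0 := fun θ j s =>
        Function.update_of_ne (Fin.succ_ne_zero j).symm _ _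
      have key : ∀ (θ θ' : Fin (k + 2) → ℝ), θ 0 = θ' 0 →
          sph k (tl (k + 1) θ) = sph k (tl (k + 1) θ') → sph (k + 1) θ = sph (k + 1) θ' := by
        intro θ θ' h1 h2
        funext t
        refine Fin.cases ?_ (fun t => ?_) t
        · rw [sph_succ_zero, sph_succ_zero, h1]
        · rw [sph_succ_succ, sph_succ_succ, h1, h2]
      rcases ih i with h | ⟨⟨j, hj, hj'⟩, ⟨l, hl, hl'⟩⟩
      · left
        intro θ
        refine key _ _ ?_ ?_
        · simp
        · rw [map_add, tl_single_succ, h]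
      · right
        refine ⟨⟨j.succ, fun e => hj (Fin.succ_injective _ e), fun θ s h => ?_⟩,
          ⟨l.succ, fun e => hl (Fin.succ_injective _ e), fun θ s h => ?_⟩⟩
        · refine key _ _ (h0 _ _ _) ?_
          rw [tl_update_succ]
          exact hj' _ _ h
        · refine key _ _ (h0 _ _ _) ?_
          rw [tl_update_succ]
          exact hl' _ _ h

/-- the partial derivatives -/
noncomputable def ds (k : ℕ) (θ : Fin (k + 1) → ℝ) (i : Fin (k + 1)) (s : Fin (k + 2)) : ℝ :=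
  fderiv ℝ (fun θ => sph k θ s) θ (Pi.single i 1)

/-- the Jacobian matrix -/
noncomputable def jm (k : ℕ) (θ : Fin (k + 1) → ℝ) : Matrix (Fin (k + 2)) (Fin (k + 2)) ℝ :=
  Matrix.of (Fin.cons (sph k θ) (ds k θ) : Fin (k + 2) → Fin (k + 2) → ℝ)

theorem hasFDerivAt_sph (k : ℕ) (s : Fin (k + 2)) (θ : Fin (k + 1) → ℝ) :
    HasFDerivAt (fun θ => sph k θ s) (fderiv ℝ (fun θ => sph k θ s) θ) θ :=
  ((contDiff_sph k s).differentiable (by norm_num) θ).hasFDerivAt

theorem hasFDerivAt_lin {k : ℕ} (c : ℝ) (θ : Fin (k + 1) → ℝ) :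
    HasFDerivAt (fun θ : Fin (k + 1) → ℝ => c * θ 0)
      (c • (ContinuousLinearMap.proj 0 : (Fin (k + 1) → ℝ) →L[ℝ] ℝ)) θ :=
  ((ContinuousLinearMap.proj 0 : (Fin (k + 1) → ℝ) →L[ℝ] ℝ).hasFDerivAt).const_mul c

theorem ds_zero (θ : Fin 1 → ℝ) (i : Fin 1) :
    ds 0 θ i = ![-(2 * π * Real.sin (2 * π * θ 0)), 2 * π * Real.cos (2 * π * θ 0)] := by
  have hi : i = 0 := Subsingleton.elim _ _
  subst hi
  funext s
  unfold ds
  fin_cases s
  · have h := (hasFDerivAt_lin (2 * π) θ).cos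
    show fderiv ℝ (fun θ : Fin 1 → ℝ => Real.cos (2 * π * θ 0)) θ (Pi.single 0 1) = _
    rw [h.fderiv]
    simp
    ring
  · have h := (hasFDerivAt_lin (2 * π) θ).sin
    show fderiv ℝ (fun θ : Fin 1 → ℝ => Real.sin (2 * π * θ 0)) θ (Pi.single 0 1) = _
    rw [h.fderiv]
    simp
    ring

theorem fderiv_sph_zero (k : ℕ) (θ v : Fin (k + 2) → ℝ) :
    fderiv ℝ (fun θ => sph (k + 1) θ 0) θ v = -(π * Real.sin (π * θ 0)) * v 0 := by
  have h := (hasFDerivAt_lin π θ).cos
  show fderiv ℝ (fun θ : Fin (k + 2) → ℝ => Real.cos (π * θ 0)) θ v = _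
  rw [h.fderiv]
  simp
  ring

theorem fderiv_sph_succ (k : ℕ) (θ v : Fin (k + 2) → ℝ) (s : Fin (k + 2)) :
    fderiv ℝ (fun θ => sph (k + 1) θ s.succ) θ v =
      π * Real.cos (π * θ 0) * v 0 * sph k (tl (k + 1) θ) s +
        Real.sin (π * θ 0) * fderiv ℝ (fun θ => sph k θ s) (tl (k + 1) θ) (tl (k + 1) v) := by
  have h := (hasFDerivAt_lin π θ).sin
  have h2 : HasFDerivAt (fun θ : Fin (k + 2) → ℝ => sph k (tl (k + 1) θ) s)
      ((fderiv ℝ (fun θ => sph k θ s) (tl (k + 1) θ)).comp (tl (k + 1))) θ :=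
    HasFDerivAt.comp θ (hasFDerivAt_sph k s (tl (k + 1) θ)) (tl (k + 1)).hasFDerivAt
  have h3 := h.mul h2
  show fderiv ℝ (fun θ : Fin (k + 2) → ℝ => Real.sin (π * θ 0) * sph k (tl (k + 1) θ) s) θ v = _
  have h4 : fderiv ℝ (fun θ : Fin (k + 2) → ℝ => Real.sin (π * θ 0) * sph k (tl (k + 1) θ) s) θ = _ :=
    h3.fderiv
  rw [h4]
  simp
  ring

theorem det_jm_zero (θ : Fin 1 → ℝ) : (jm 0 θ).det = 2 * π := by
  rw [Matrix.det_fin_two]
  unfold jm
  simp only [Matrix.of_apply]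
  show sph 0 θ 0 * ds 0 θ 0 1 - sph 0 θ 1 * ds 0 θ 0 0 = 2 * π
  rw [ds_zero, sph_zero_zero, sph_zero_one]
  simp only [Matrix.cons_val_zero, Matrix.cons_val_one]
  have := Real.sin_sq_add_cos_sq (2 * π * θ 0)
  linear_combination (2 * π) * this

theorem det_jm_succ (k : ℕ) (θ : Fin (k + 2) → ℝ) :
    (jm (k + 1) θ).det = π * Real.sin (π * θ 0) ^ (k + 1) * (jm k (tl (k + 1) θ)).det := by
  set S := Real.sin (π * θ 0) with hS
  set Cc := Real.cos (π * θ 0) with hCc
  have hsc : S ^ 2 + Cc ^ 2 = 1 := Real.sin_sq_add_cos_sq _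
  -- the entries
  have a00 : jm (k + 1) θ 0 0 = Cc := rfl
  have a0s : ∀ s, jm (k + 1) θ 0 (Fin.succ s) = S * sph k (tl (k + 1) θ) s := fun s => rfl
  have a10 : jm (k + 1) θ 1 0 = -(π * S) := by
    show fderiv ℝ (fun θ => sph (k + 1) θ 0) θ (Pi.single 0 1) = _
    rw [fderiv_sph_zero]
    simp [hS]
  have a1s : ∀ s, jm (k + 1) θ 1 (Fin.succ s) = π * Cc * sph k (tl (k + 1) θ) s := by
    intro s
    show fderiv ℝ (fun θ => sph (k + 1) θ s.succ) θ (Pi.single 0 1) = _
    rw [fderiv_sph_succ, tl_single_zero, map_zero, mul_zero, add_zero]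
    simp [hCc]
  have ai0 : ∀ i : Fin (k + 1), jm (k + 1) θ i.succ.succ 0 = 0 := by
    intro i
    show fderiv ℝ (fun θ => sph (k + 1) θ 0) θ (Pi.single i.succ 1) = _
    rw [fderiv_sph_zero, Pi.single_eq_of_ne (Fin.succ_ne_zero i).symm, mul_zero]
  have ais : ∀ (i : Fin (k + 1)) s, jm (k + 1) θ i.succ.succ (Fin.succ s) =
      S * ds k (tl (k + 1) θ) i s := by
    intro i s
    show fderiv ℝ (fun θ => sph (k + 1) θ s.succ) θ (Pi.single i.succ 1) = _
    rw [fderiv_sph_succ, tl_single_succ, Pi.single_eq_of_ne (Fin.succ_ne_zero i).symm]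
    unfold ds
    ring
  rw [Matrix.det_succ_column_zero, Fin.sum_univ_succ, Fin.sum_univ_succ]
  have h0 : ∑ i : Fin (k + 1), (-1 : ℝ) ^ ((i.succ.succ : Fin (k + 3)) : ℕ) *
      jm (k + 1) θ i.succ.succ 0 *
      ((jm (k + 1) θ).submatrix (i.succ.succ).succAbove Fin.succ).det = 0 := by
    refine Finset.sum_eq_zero fun i _ => ?_
    rw [ai0]
    ring
  rw [h0]
  have m0 : ((jm (k + 1) θ).submatrix (Fin.succAbove 0) Fin.succ).det =
      π * Cc * S ^ (k + 1) * (jm k (tl (k + 1) θ)).det := by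
    have : (jm (k + 1) θ).submatrix (Fin.succAbove 0) Fin.succ =
        Matrix.of fun i j => (Fin.cons (π * Cc) (fun _ => S) : Fin (k + 2) → ℝ) i *
          jm k (tl (k + 1) θ) i j := by
      ext i j
      rw [Matrix.submatrix_apply, Fin.succAbove_zero, Matrix.of_apply]
      refine Fin.cases ?_ (fun i => ?_) i
      · rw [Fin.cons_zero]
        exact a1s j
      · rw [Fin.cons_succ]
        exact ais i j
    rw [this, Matrix.det_mul_column]
    congr 1
    rw [Fin.prod_univ_succ]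
    simp
  have m1 : ((jm (k + 1) θ).submatrix (Fin.succAbove (Fin.succ 0)) Fin.succ).det =
      S ^ (k + 2) * (jm k (tl (k + 1) θ)).det := by
    have : (jm (k + 1) θ).submatrix (Fin.succAbove (Fin.succ 0)) Fin.succ =
        Matrix.of fun i j => (fun _ => S : Fin (k + 2) → ℝ) i *
          jm k (tl (k + 1) θ) i j := by
      ext i j
      rw [Matrix.submatrix_apply, Matrix.of_apply]
      refine Fin.cases ?_ (fun i => ?_) i
      · rw [Fin.succ_succAbove_zero]
        exact a0s j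
      · rw [Fin.succ_succAbove_succ, Fin.succAbove_zero]
        exact ais i j
    rw [this, Matrix.det_mul_column]
    congr 1
    rw [Finset.prod_const, Finset.card_univ, Fintype.card_fin]
  rw [m0, m1, a00, show jm (k + 1) θ (Fin.succ 0) 0 = -(π * S) from a10]
  simp only [Fin.val_zero, Fin.val_succ, zero_add, pow_zero, pow_one]
  linear_combination (π * S ^ (k + 1) * (jm k (tl (k + 1) θ)).det) * hsc

theorem det_jm_pos (k : ℕ) : ∀ θ : Fin (k + 1) → ℝ, (∀ i, 0 < θ i ∧ θ i < 1) →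
    0 < (jm k θ).det := by
  induction k with
  | zero =>
    intro θ _
    rw [det_jm_zero]
    have := Real.pi_pos
    positivity
  | succ k ih =>
    intro θ hθ
    rw [det_jm_succ]
    have h1 : 0 < Real.sin (π * θ 0) := by
      refine Real.sin_pos_of_pos_of_lt_pi (mul_pos Real.pi_pos (hθ 0).1) ?_
      have := mul_lt_mul_of_pos_left (hθ 0).2 Real.pi_pos
      rwa [mul_one] at this
    have h2 := ih (tl (k + 1) θ) fun i => hθ i.succ
    have := Real.pi_pos
    positivity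

theorem det_jm_nonneg (k : ℕ) : ∀ θ : Fin (k + 1) → ℝ, (∀ i, 0 ≤ θ i ∧ θ i ≤ 1) →
    0 ≤ (jm k θ).det := by
  induction k with
  | zero =>
    intro θ _
    rw [det_jm_zero]
    have := Real.pi_pos
    positivity
  | succ k ih =>
    intro θ hθ
    rw [det_jm_succ]
    have h1 : 0 ≤ Real.sin (π * θ 0) := by
      refine Real.sin_nonneg_of_nonneg_of_le_pi (mul_nonneg Real.pi_pos.le (hθ 0).1) ?_
      have := mul_le_mul_of_nonneg_left (hθ 0).2 Real.pi_pos.le
      rwa [mul_one] at this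
    have h2 := ih (tl (k + 1) θ) fun i => hθ i.succ
    have := Real.pi_pos
    positivity

end Pool.Agent.Helper90.HB
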