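import Pool.Agent.Helper90.HB.Green
import Pool.Agent.Helper90.HB.Ray
import Pool.Agent.Helper90.HB.Sph
set_option autoImplicit false

/-!
The level hypersurface of `∑_j n_j log |1 - exp(i θ_j)|` in a chamber in spherical coordinates, and the
value of the integral of `∑_j n_j / |v_j|² D(exp(i θ_j)) * v_j` over it.
-/

namespace Pool.Agent.Helper90.HB

open MeasureTheory Set Filter Topology Real Pool.Agent.TH826.MK
open Pool.Agent.N65.TK (Ls Dc hasDerivAt_Dc hasDerivAt_Ls)

section cone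

variable {k r : ℕ}

/-- the direction vector `(⟨v_j, ω⟩)_j` -/
noncomputable def dir (v : Fin r → Fin (k + 2) → ℝ) (θ : Fin (k + 1) → ℝ) (j : Fin r) : ℝ :=
  ∑ s, v j s * sph k θ s

/-- the radius -/
noncomputable def rho (e : Fin r → ℝ) (n : Fin r → ℕ) (v : Fin r → Fin (k + 2) → ℝ)
    (θ : Fin (k + 1) → ℝ) : ℝ := rad e n (dir v θ)

/-- the level hypersurface -/
noncomputable def lev (e : Fin r → ℝ) (n : Fin r → ℕ) (v : Fin r → Fin (k + 2) → ℝ)
    (θ : Fin (k + 1) → ℝ) (s : Fin (k + 2)) : ℝ := rho e n v θ * sph k θ s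

variable {e : Fin r → ℝ} {n : Fin r → ℕ} {v : Fin r → Fin (k + 2) → ℝ}

theorem contDiff_dir : ContDiff ℝ 2 (dir v) := by
  rw [contDiff_pi]
  intro j
  unfold dir
  exact ContDiff.sum fun s _ => contDiff_const.mul (contDiff_sph k s)

theorem aa_lev (j : Fin r) (θ : Fin (k + 1) → ℝ) :
    aa (lev e n v) (v j) θ = rho e n v θ * dir v θ j := by
  unfold aa lev dir
  rw [Finset.mul_sum]
  exact Finset.sum_congr rfl fun s _ => by ring

variable (hc : Cond e n) (hv : ∀ w : Fin (k + 2) → ℝ, (∀ j, ∑ s, v j s * w s = 0) → w = 0)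

include hv in
theorem dir_ne_zero (θ : Fin (k + 1) → ℝ) : dir v θ ≠ 0 := by
  intro h
  exact sph_ne_zero k θ (hv _ fun j => congrFun h j)

include hc hv

theorem rho_pos (θ : Fin (k + 1) → ℝ) : 0 < rho e n v θ := hc.rad_pos (dir_ne_zero hv θ)

theorem contDiff_rho : ContDiff ℝ 2 (rho e n v) := by
  rw [contDiff_iff_contDiffAt]
  intro θ
  exact (hc.contDiffAt_rad (dir_ne_zero hv θ)).comp θ contDiff_dir.contDiffAt

theorem closed_lev : ClosedMap (lev e n v) where
  smooth s := (contDiff_rho hc hv).mul (contDiff_sph k s)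
  closed i := by
    have key : ∀ θ θ' : Fin (k + 1) → ℝ, sph k θ = sph k θ' → lev e n v θ = lev e n v θ' := by
      intro θ θ' h
      have h1 : dir v θ = dir v θ' := by
        unfold dir
        rw [h]
      funext s
      unfold lev rho
      rw [h, h1]
    rcases closed_sph k i with h | ⟨⟨j, hj, hj'⟩, ⟨l, hl, hl'⟩⟩
    · exact Or.inl fun θ => key _ _ (h θ)
    · exact Or.inr ⟨⟨j, hj, fun θ s h => key _ _ (hj' θ s h)⟩,
        ⟨l, hl, fun θ s h => key _ _ (hl' θ s h)⟩⟩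

theorem range_lev (j : Fin r) : InRange (lev e n v) (v j) (e j) := by
  intro τ hτ θ
  rw [aa_lev, ← mul_assoc]
  have hR := rho_pos hc hv θ
  exact hc.Ch_of_le (dir_ne_zero hv θ) (mul_nonneg hτ.1 hR.le) (mul_le_of_le_one_left hR.le hτ.2) j

theorem level_lev (θ : Fin (k + 1) → ℝ) :
    ∑ j, n j * Ls (e j + aa (lev e n v) (v j) θ) = 0 := by
  have h := hc.Hs_rad (dir_ne_zero hv θ)
  unfold Hs at h
  rw [← h]
  refine Finset.sum_congr rfl fun j _ => ?_
  rw [aa_lev]
  rfl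

theorem sum_pos_lev {τ : ℝ} (h0 : 0 ≤ τ) (h1 : τ < 1) (θ : Fin (k + 1) → ℝ) :
    0 < ∑ j, n j * Ls (e j + τ * aa (lev e n v) (v j) θ) := by
  have hR := rho_pos hc hv θ
  have h := hc.Hs_pos (dir_ne_zero hv θ) (mul_nonneg h0 hR.le)
    (show τ * rho e n v θ < rho e n v θ from mul_lt_of_lt_one_left hR h1)
  unfold Hs at h
  refine lt_of_lt_of_eq h (Finset.sum_congr rfl fun j _ => ?_)
  rw [aa_lev, ← mul_assoc]
  rfl

/-- the Jacobian of the cone -/
theorem wj_lev (y : Fin (k + 2) → ℝ) : wj (lev e n v) y =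
    y 0 ^ (k + 1) * rho e n v (tl (k + 1) y) ^ (k + 2) * (jm k (tl (k + 1) y)).det := by
  set θ := tl (k + 1) y with hθ
  set R := rho e n v θ with hR
  have hR0 : R ≠ 0 := (rho_pos hc hv θ).ne'
  have hρd : HasFDerivAt (rho e n v) (fderiv ℝ (rho e n v) θ) θ :=
    ((contDiff_rho hc hv).differentiable (by norm_num) θ).hasFDerivAt
  have hdp : ∀ s i, dp (lev e n v) s i θ =
      R * ds k θ i s + sph k θ s * fderiv ℝ (rho e n v) θ (Pi.single i 1) := by
    intro s i
    have h1 := hρd.mul (hasFDerivAt_sph k s θ)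
    unfold dp
    have h2 : fderiv ℝ (fun θ => lev e n v θ s) θ = _ := h1.fderiv
    rw [h2]
    simp only [add_apply, smul_apply, smul_eq_mul]
    rfl
  unfold wj
  rw [← Matrix.det_transpose]
  have h1 : (Matrix.of fun s j => Gr (lev e n v) s y j).transpose.det =
      (Matrix.of fun (j s : Fin (k + 2)) => (Fin.cons R (fun _ => y 0 * R) : Fin (k + 2) → ℝ) j *
        jm k θ j s).det := by
    refine Matrix.det_eq_of_forall_row_eq_smul_add_const
      (Fin.cons 0 (fun i => y 0 * fderiv ℝ (rho e n v) θ (Pi.single i 1) / R) :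
        Fin (k + 2) → ℝ) 0 (by simp) ?_
    intro j s
    refine Fin.cases ?_ (fun i => ?_) j
    · simp only [Matrix.transpose_apply, Matrix.of_apply, Fin.cons_zero, zero_mul, add_zero]
      rfl
    · simp only [Matrix.transpose_apply, Matrix.of_apply, Fin.cons_succ, Fin.cons_zero]
      show y 0 * dp (lev e n v) s i θ = y 0 * R * ds k θ i s + y 0 *
        fderiv ℝ (rho e n v) θ (Pi.single i 1) / R * (R * sph k θ s)
      rw [hdp]
      field_simp
  rw [h1, Matrix.det_mul_column, Fin.prod_univ_succ]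
  simp only [Fin.cons_zero, Fin.cons_succ, Finset.prod_const, Finset.card_univ, Fintype.card_fin]
  ring

omit hc hv in
theorem continuous_wj {φ : (Fin (k + 1) → ℝ) → Fin (k + 2) → ℝ} (hφ : ClosedMap φ) :
    Continuous (wj φ) := by
  unfold wj
  refine Continuous.matrix_det (continuous_pi fun s => continuous_pi fun j => ?_)
  have h1 := Complex.continuous_re.comp ((continuous_apply j).comp (continuous_grow (hφ.good s)))
  refine h1.congr fun y => ?_
  show (grow (ge φ s) y j).re = Gr φ s y j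
  rw [grow_eq_Gr hφ, Complex.ofReal_re]

/-- the integral of `∑_j n_j / |v_j|² D(exp(i θ_j)) * v_j` over the level hypersurface is negative -/
theorem sum_neg (hN : ∀ j, ∑ s, v j s ^ 2 ≠ 0) :
    ∑ j, (n j : ℝ) / (∑ s, v j s ^ 2) * ∑ s : Fin (k + 2), ((-1) ^ (s : ℕ) * v j s) *
      ∫ x in Icc (0 : Fin (k + 1) → ℝ) 1,
        Dc (e j + aa (lev e n v) (v j) x) * minor (lev e n v) s x < 0 := by
  have hφ := closed_lev hc hv
  set φ := lev e n v with hφdef
  have hg : ∀ j s, ∫ x in Icc (0 : Fin (k + 1) → ℝ) 1, Dc (e j + aa φ (v j) x) * minor φ s x =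
      -∫ y in Icc (0 : Fin (k + 2) → ℝ) 1, Ls (e j + y 0 * aa φ (v j) (tl (k + 1) y)) *
        (v j s * (-1) ^ (s : ℕ)) * wj φ y := fun j s => green hφ (range_lev hc hv j) s
  have hcL : ∀ j, ContinuousOn (fun y : Fin (k + 2) → ℝ =>
      Ls (e j + y 0 * aa φ (v j) (tl (k + 1) y)) * wj φ y) (Icc 0 1) := fun j =>
    (continuousOn_Ls hφ (range_lev hc hv j)).mul (continuous_wj hφ).continuousOn
  have hint : ∀ j, IntegrableOn (fun y : Fin (k + 2) → ℝ =>
      Ls (e j + y 0 * aa φ (v j) (tl (k + 1) y)) * wj φ y) (Icc 0 1) := fun j =>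
    (hcL j).integrableOn_compact isCompact_Icc
  have h1 : ∀ j, (n j : ℝ) / (∑ s, v j s ^ 2) * ∑ s : Fin (k + 2), ((-1) ^ (s : ℕ) * v j s) *
      ∫ x in Icc (0 : Fin (k + 1) → ℝ) 1, Dc (e j + aa φ (v j) x) * minor φ s x =
      -∫ y in Icc (0 : Fin (k + 2) → ℝ) 1, (n j : ℝ) *
        (Ls (e j + y 0 * aa φ (v j) (tl (k + 1) y)) * wj φ y) := by
    intro j
    have h2 : ∀ s : Fin (k + 2), ((-1) ^ (s : ℕ) * v j s) *
      ∫ x in Icc (0 : Fin (k + 1) → ℝ) 1, Dc (e j + aa φ (v j) x) * minor φ s x =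
      -((v j s) ^ 2 * ∫ y in Icc (0 : Fin (k + 2) → ℝ) 1,
        Ls (e j + y 0 * aa φ (v j) (tl (k + 1) y)) * wj φ y) := by
      intro s
      rw [hg]
      have h3 : ∀ y : Fin (k + 2) → ℝ, Ls (e j + y 0 * aa φ (v j) (tl (k + 1) y)) *
          (v j s * (-1) ^ (s : ℕ)) * wj φ y = (v j s * (-1) ^ (s : ℕ)) *
          (Ls (e j + y 0 * aa φ (v j) (tl (k + 1) y)) * wj φ y) := fun y => by ring
      simp only [h3]
      rw [integral_const_mul]
      have h4 : ((-1 : ℝ) ^ (s : ℕ)) * (-1) ^ (s : ℕ) = 1 := by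
        rw [← mul_pow]
        norm_num
      generalize (∫ y in Icc (0 : Fin (k + 2) → ℝ) 1,
        Ls (e j + y 0 * aa φ (v j) (tl (k + 1) y)) * wj φ y) = I
      linear_combination (-(v j s ^ 2 * I)) * h4
    rw [Finset.sum_congr rfl fun s _ => h2 s, Finset.sum_neg_distrib, ← Finset.sum_mul,
      integral_const_mul, mul_neg]
    congr 1
    generalize (∫ y in Icc (0 : Fin (k + 2) → ℝ) 1,
        Ls (e j + y 0 * aa φ (v j) (tl (k + 1) y)) * wj φ y) = I
    have := hN j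
    field_simp
  rw [Finset.sum_congr rfl fun j _ => h1 j, Finset.sum_neg_distrib, neg_lt_zero,
    ← integral_finsetSum _ fun j _ => (hint j).const_mul (n j : ℝ)]
  have h5 : ∀ y : Fin (k + 2) → ℝ, ∑ j, (n j : ℝ) *
        (Ls (e j + y 0 * aa φ (v j) (tl (k + 1) y)) * wj φ y) =
      (∑ j, (n j : ℝ) * Ls (e j + y 0 * aa φ (v j) (tl (k + 1) y))) * wj φ y := by
    intro y
    rw [Finset.sum_mul]
    exact Finset.sum_congr rfl fun j _ => by ring
  simp only [h5]
  have hw0 : ∀ y ∈ Icc (0 : Fin (k + 2) → ℝ) 1, 0 ≤ wj φ y := by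
    intro y hy
    rw [hφdef, wj_lev hc hv]
    have h6 := det_jm_nonneg k (tl (k + 1) y) fun i => ⟨hy.1 i.succ, hy.2 i.succ⟩
    have h7 := (rho_pos hc hv (tl (k + 1) y)).le
    have h8 : 0 ≤ y 0 := hy.1 0
    positivity
  have hS0 : ∀ y ∈ Icc (0 : Fin (k + 2) → ℝ) 1,
      0 ≤ ∑ j, (n j : ℝ) * Ls (e j + y 0 * aa φ (v j) (tl (k + 1) y)) := by
    intro y hy
    rcases eq_or_lt_of_le (show y 0 ≤ 1 from hy.2 0) with h | h
    · rw [h]
      simp only [one_mul]
      exact (level_lev hc hv _).ge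
    · exact (sum_pos_lev hc hv (hy.1 0) h _).le
  have hintS : IntegrableOn (fun y : Fin (k + 2) → ℝ =>
      (∑ j, (n j : ℝ) * Ls (e j + y 0 * aa φ (v j) (tl (k + 1) y))) * wj φ y) (Icc 0 1) := by
    refine IntegrableOn.congr_fun (integrable_finsetSum _ fun j _ =>
      (hint j).const_mul (n j : ℝ)) (fun y _ => h5 y) measurableSet_Icc
  rw [setIntegral_pos_iff_support_of_nonneg_ae _ hintS]
  · have hsub : (pi univ fun _ : Fin (k + 2) => Ioo (0 : ℝ) 1) ⊆ Function.support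
        (fun y : Fin (k + 2) → ℝ =>
          (∑ j, (n j : ℝ) * Ls (e j + y 0 * aa φ (v j) (tl (k + 1) y))) * wj φ y) ∩
        Icc (0 : Fin (k + 2) → ℝ) 1 := by
      intro y hy
      rw [mem_univ_pi] at hy
      refine ⟨?_, fun i => (hy i).1.le, fun i => (hy i).2.le⟩
      rw [Function.mem_support]
      refine (mul_pos (sum_pos_lev hc hv (hy 0).1.le (hy 0).2 _) ?_).ne'
      rw [hφdef, wj_lev hc hv]
      have h6 := det_jm_pos k (tl (k + 1) y) fun i => hy i.succ
      have h7 := rho_pos hc hv (tl (k + 1) y)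
      have h8 : 0 < y 0 := (hy 0).1
      positivity
    refine lt_of_lt_of_le ?_ (measure_mono hsub)
    refine IsOpen.measure_pos _ (isOpen_set_pi finite_univ fun _ _ => isOpen_Ioo) ?_
    refine ⟨fun _ => 1 / 2, ?_⟩
    rw [mem_univ_pi]
    intro i
    constructor <;> norm_num
  · rw [EventuallyLE, ae_restrict_iff' measurableSet_Icc]
    exact Eventually.of_forall fun y hy => mul_nonneg (hS0 y hy) (hw0 y hy)

end cone

end Pool.Agent.Helper90.HB
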