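import Pool.Agent.N65.TK.Defs
import Pool.Agent.TH826.MK.Form
set_option autoImplicit false

/-!
The cohomology of the polylogarithmic complexes (Goncharov) at the group `B_2(A) ⊗ Λ^k A^*`, its
residues, the regulator with the Bloch-Wigner function on closed cubical chains of complex points,
and the hypersurfaces `∏_j ((1 - m_j) (1 - m_j⁻¹)) ^ (n_j) = 1`, `m_j = ε_j x^(v_j)`, in the torus
`𝔾_m^(k+1)`.
-/

namespace Pool.Agent.Helper90.HB

open scoped TensorProduct WithZero
open Pool.Agent.N65.TK (Pt Five UQ tu D Kap red Red)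
open Pool.Agent.TH826.MK (tl lw grow)

section complex

variable (A : Type*) [CommRing A] (k : ℕ)

/-- The formal sums `∑ r {f}_2 ⊗ (g_0, ..., g_(k-1))`, `r ∈ ℚ`, where `f`, `1 - f` and the `g_i` are
units of `A`. -/
abbrev FS : Type _ := (Pt A × (Fin k → Aˣ)) →₀ ℚ

variable {A k}

/-- The formal sum `{f}_2 ⊗ (g_0, ..., g_(k-1))`. -/
noncomputable def br (f : Pt A) (g : Fin k → Aˣ) : FS A k := Finsupp.single (f, g) 1

/-- The image under a homomorphism. -/
noncomputable def FS.map {B : Type*} [CommRing B] (φ : A →+* B) : FS A k →ₗ[ℚ] FS B k :=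
  Finsupp.lmapDomain ℚ ℚ fun p => (p.1.map φ, fun i => Units.map (φ : A →* B) (p.2 i))

variable (A)

/-- `Λ^n (A^* ⊗ ℚ)` -/
def Lam (n : ℕ) : Type _ := ⋀[ℚ]^n (UQ A)

noncomputable instance (n : ℕ) : AddCommGroup (Lam A n) :=
  Submodule.addCommGroup (⋀[ℚ]^n (UQ A))

noncomputable instance (n : ℕ) : Module ℚ (Lam A n) := Submodule.module (⋀[ℚ]^n (UQ A))

/-- The map `(u_0, ..., u_(n-1)) ↦ u_0 ∧ ... ∧ u_(n-1)`. -/
noncomputable def alt (n : ℕ) : (UQ A) [⋀^Fin n]→ₗ[ℚ] (Lam A n) := exteriorPower.ιMulti ℚ n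

variable {A}

/-- The element `a_0 ∧ ... ∧ a_(n-1)` given by units `a_i`. -/
noncomputable def wedge {n : ℕ} (a : Fin n → Aˣ) : Lam A n := alt A n fun i => tu (a i)

variable (A k)

/-- The differential `{f}_2 ⊗ g_0 ∧ ... ∧ g_(k-1) ↦ (1 - f) ∧ f ∧ g_0 ∧ ... ∧ g_(k-1)` with values in
`Λ^(k+2) (A^* ⊗ ℚ)`. -/
noncomputable def dif : FS A k →ₗ[ℚ] Lam A (k + 2) :=
  Finsupp.linearCombination ℚ fun p =>
    wedge (Fin.cons p.1.co (Fin.cons p.1.1 p.2 : Fin (k + 1) → Aˣ) : Fin (k + 2) → Aˣ)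

/-- The relations: multilinearity and alternation in the `g_i`, the five term relation in the first
entry, and the elements `{f}_2 ⊗ (g_0, ..., g_(k-1))` with some `g_i = f`, the images of
`B_3(A) ⊗ Λ^(k-1) A^*`. The cohomology of the complex
`B_3(A) ⊗ Λ^(k-1) A^* → B_2(A) ⊗ Λ^k A^* → Λ^(k+2) A^*`, tensored with `ℚ`, is the kernel of `dif`
modulo the relations. -/
noncomputable def Rels : Submodule ℚ (FS A k) := Submodule.span ℚ
  ({s | ∃ (f : Pt A) (g : Fin k → Aˣ) (i : Fin k) (a b : Aˣ),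
      s = br f (Function.update g i (a * b)) - br f (Function.update g i a) -
        br f (Function.update g i b)} ∪
   {s | ∃ (f : Pt A) (g : Fin k → Aˣ) (i j : Fin k), i ≠ j ∧ g i = g j ∧ s = br f g} ∪
   {s | ∃ (x y a b c : Pt A) (g : Fin k → Aˣ), Five x y a b c ∧
      s = br x g - br y g + br a g - br b g + br c g} ∪
   {s | ∃ (f : Pt A) (g : Fin k → Aˣ) (i : Fin k), g i = f.1 ∧ s = br f g})

/-- The formal sums modulo the relations: the quotient of `B_2(A) ⊗ Λ^k A^* ⊗ ℚ` by the image of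
`B_3(A) ⊗ Λ^(k-1) A^*`. -/
def Coh : Type _ := FS A k ⧸ Rels A k

noncomputable instance : AddCommGroup (Coh A k) := Submodule.Quotient.addCommGroup (Rels A k)

noncomputable instance : Module ℚ (Coh A k) := Submodule.Quotient.module (Rels A k)

variable {A k}

/-- The class of `{f}_2 ⊗ g_0 ∧ ... ∧ g_(k-1)`. -/
noncomputable def cl (f : Pt A) (g : Fin k → Aˣ) : Coh A k :=
  Submodule.Quotient.mk (p := Rels A k) (br f g)

end complex

section residue

variable {L : Type*} [Field L] (v : Valuation L ℤᵐ⁰)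

/-- The order of `g` at `v`. -/
noncomputable def ord (g : Lˣ) : ℤ := -WithZero.log (v (g : L))

open Classical in
/-- The reduction of a unit at `v` (and `1` for the other elements). -/
noncomputable def redU (g : Lˣ) : (Kap v)ˣ :=
  if h : ∃ u : (Kap v)ˣ, ∃ x : v.valuationSubring, (x : L) = (g : L) ∧ red v x = (u : Kap v) then
    h.choose else 1

/-- The reduction of `g π^(-ord g)`. -/
noncomputable def ang (π : Lˣ) (g : Lˣ) : (Kap v)ˣ := redU v (g * π ^ (-ord v g))

open Classical in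
/-- The class of `{f̄}_2 ⊗ u_0 ∧ ... ∧ u_(k-1)`, where `f̄` is the reduction of `f`; it is `0` if `f`
is not a unit at `v` or if its reduction is `1`. -/
noncomputable def redC {k : ℕ} (f : Pt L) (u : Fin k → (Kap v)ˣ) : Coh (Kap v) k :=
  if h : ∃ w : Pt (Kap v), Red v f w then cl h.choose u else 0

/-- The residue at the discrete valuation `v` with the uniformizer `π`,

  `{f}_2 ⊗ g_0 ∧ ... ∧ g_k ↦ ∑_i (-1)^i ord(g_i) {f̄}_2 ⊗ ū_0 ∧ ... ∧ ū_k` (without `ū_i`),

where `g_i = π^(ord g_i) u_i`, with values in the quotient of `B_2(κ(v)) ⊗ Λ^k κ(v)^* ⊗ ℚ` by the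
image of `B_3(κ(v)) ⊗ Λ^(k-1) κ(v)^*`. -/
noncomputable def bnd (π : Lˣ) (k : ℕ) : FS L (k + 1) →ₗ[ℚ] Coh (Kap v) k :=
  Finsupp.linearCombination ℚ fun p => ∑ i : Fin (k + 1),
    ((-1) ^ (i : ℕ) * (ord v (p.2 i) : ℚ)) • redC v p.1 fun l => ang v π (p.2 (i.succAbove l))

end residue

section regulator

/-- A closed cubical chain of dimension `k`, of class `C²`, in the space of the complex points of the
ring `A`: a family `e θ`, `θ ∈ ℝ^k`, of homomorphisms `A → ℂ`, such that for all `h ∈ A` the value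
`e θ h` is a function of class `C²` of `θ`, and such that for all `i` either `e θ` has the period `1`
in `θ_i`, or the two faces `θ_i = 0` and `θ_i = 1` of the cube are degenerate: there `e θ` does not
depend on some other coordinate `θ_j`. -/
structure Cyc (A : Type*) [CommRing A] (k : ℕ) where
  /-- evaluation at the point with parameter `θ` -/
  e : (Fin k → ℝ) → A →+* ℂ
  smooth : ∀ h : A, ContDiff ℝ 2 fun θ => e θ h
  closed : ∀ i : Fin k, (∀ θ, e (θ + Pi.single i 1) = e θ) ∨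
    ((∃ j, j ≠ i ∧ ∀ θ s, θ i = 0 → e (Function.update θ j s) = e θ) ∧
     (∃ j, j ≠ i ∧ ∀ θ s, θ i = 1 → e (Function.update θ j s) = e θ))

/-- The coefficients of the form
`P = (t² - 1)/2 (log|f| d log|1-f| - log|1-f| d log|f|) - i D(f) dt`
at the point `y = (t, θ)`, `D` the Bloch-Wigner function. -/
noncomputable def prow {k : ℕ} (f : (Fin k → ℝ) → ℂ) (y : Fin (k + 1) → ℝ) : Fin (k + 1) → ℂ :=
  Fin.cons (-(Complex.I * (D (f (tl k y)) : ℝ))) fun i =>
    (((y 0 ^ 2 - 1) / 2 * (Real.log ‖f (tl k y)‖ * (lw (fun θ => 1 - f θ) i (tl k y)).re -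
      Real.log ‖1 - f (tl k y)‖ * (lw f i (tl k y)).re) : ℝ) : ℂ)

/-- The function `Re ((-i)^(k-1) P ∧ d Ψ_0 ∧ ... ∧ d Ψ_(k-1))`, `Ψ_l = t log |g_l| + i arg g_l`, at
`y = (t, θ)` (the form is expressed as the determinant of the coefficients of its factors). -/
noncomputable def frm {k : ℕ} (f : (Fin k → ℝ) → ℂ) (g : Fin k → (Fin k → ℝ) → ℂ)
    (y : Fin (k + 1) → ℝ) : ℝ :=
  ((-Complex.I) ^ k * Complex.I *
    (Matrix.of (Fin.cons (prow f y) fun l => grow (g l) y : Fin (k + 1) → Fin (k + 1) → ℂ)).det).re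

/-- The regulator on a closed cubical chain: the integral of the preceding function over
`[0,1] × [0,1]^k`. -/
noncomputable def Cyc.reg {A : Type*} [CommRing A] {k : ℕ} (γ : Cyc A k) : FS A k →ₗ[ℚ] ℝ :=
  Finsupp.linearCombination ℚ fun p =>
    ∫ y in Set.Icc (0 : Fin (k + 1) → ℝ) 1,
      frm (fun θ => γ.e θ p.1.1) (fun l θ => γ.e θ (p.2 l)) y

end regulator

section hypersurfaces

variable (K : Type*) [Field K] (k : ℕ)

/-- The Laurent polynomials in `x_0, ..., x_k`. -/
abbrev LP : Type _ := AddMonoidAlgebra K (Fin (k + 1) → ℤ)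

variable {K k}

/-- The unit `a x^v`. -/
noncomputable def mo (a : Kˣ) (v : Fin (k + 1) → ℤ) : (LP K k)ˣ where
  val := AddMonoidAlgebra.single v (a : K)
  inv := AddMonoidAlgebra.single (-v) ((a⁻¹ : Kˣ) : K)
  val_inv := by
    rw [AddMonoidAlgebra.single_mul_single]
    simp [AddMonoidAlgebra.one_def]
  inv_val := by
    rw [AddMonoidAlgebra.single_mul_single]
    simp [AddMonoidAlgebra.one_def]

variable (K k)

/-- The data of a hypersurface in `𝔾_m^(k+1)`: `r` monomials `ε_j x^(v_j)` and exponents `n_j`. -/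
structure Dat (r : ℕ) where
  /-- the coefficients -/
  ε : Fin r → Kˣ
  /-- the exponents of the monomials -/
  v : Fin r → Fin (k + 1) → ℤ
  /-- the multiplicities -/
  n : Fin r → ℕ

variable {K k} {r : ℕ} (C : Dat K k r)

/-- The conditions: the exponents `v_j` span `ℚ^(k+1)` and no two of them are proportional, the
coefficients are roots of unity, and the multiplicities are positive. -/
structure Dat.Admissible : Prop where
  span : Submodule.span ℚ (Set.range fun j s => (C.v j s : ℚ)) = ⊤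
  indep : ∀ i j, i ≠ j → ∀ a b : ℤ, a • C.v i = b • C.v j → a = 0 ∧ b = 0
  tors : ∀ j, ∃ N : ℕ, 0 < N ∧ C.ε j ^ N = 1
  pos : ∀ j, 0 < C.n j

/-- The monomial `ε_j x^(v_j)`. -/
noncomputable def Dat.m (j : Fin r) : (LP K k)ˣ := mo (C.ε j) (C.v j)

/-- The equation `∏_j ((1 - m_j) (1 - m_j⁻¹)) ^ (n_j) - 1`. -/
noncomputable def Dat.eqn : LP K k :=
  ∏ j, ((1 - (C.m j : LP K k)) * (1 - ((C.m j)⁻¹ : (LP K k)ˣ))) ^ C.n j - 1

/-- The coordinate ring of the hypersurface in the torus. -/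
def Dat.Ring : Type _ := LP K k ⧸ Ideal.span {C.eqn}

noncomputable instance : CommRing C.Ring := Ideal.Quotient.commRing (Ideal.span {C.eqn})

/-- The restriction of functions to the hypersurface. -/
noncomputable def Dat.proj : LP K k →+* C.Ring := Ideal.Quotient.mk (Ideal.span {C.eqn})

/-- The constants. -/
noncomputable def Dat.cst : K →+* C.Ring := C.proj.comp AddMonoidAlgebra.singleZeroRingHom

/-- The unit `a x^v` on the hypersurface. -/
noncomputable def Dat.mn (a : Kˣ) (v : Fin (k + 1) → ℤ) : C.Ringˣ :=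
  Units.map (C.proj : LP K k →* C.Ring) (mo a v)

/-- The coordinate `x_s` on the hypersurface. -/
noncomputable def Dat.x (s : Fin (k + 1)) : C.Ringˣ := C.mn 1 (Pi.single s 1)

theorem Dat.prod_eq_one :
    ∏ j, ((1 - (C.mn (C.ε j) (C.v j) : C.Ring)) *
      (1 - ((C.mn (C.ε j) (C.v j))⁻¹ : C.Ringˣ))) ^ C.n j = 1 := by
  have h : C.proj C.eqn = 0 := Ideal.Quotient.eq_zero_iff_mem.2 (Ideal.subset_span rfl)
  unfold Dat.eqn at h
  rw [map_sub, map_one, sub_eq_zero, map_prod] at h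
  rw [← h]
  refine Finset.prod_congr rfl fun j _ => ?_
  rw [map_pow, map_mul, map_sub, map_sub, map_one]
  congr 3

variable {C}

/-- The function `m_j = ε_j x^(v_j)` on the hypersurface; `1 - m_j` is a unit. -/
noncomputable def Dat.pt (hC : C.Admissible) (j : Fin r) : Pt C.Ring :=
  ⟨C.mn (C.ε j) (C.v j), by
    have h1 := C.prod_eq_one
    rw [← Finset.mul_prod_erase Finset.univ _ (Finset.mem_univ j)] at h1
    have h2 := IsUnit.of_mul_eq_one _ h1
    rw [isUnit_pow_iff (hC.pos j).ne'] at h2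
    exact isUnit_of_mul_isUnit_left h2⟩

/-- The element

  `α = ∑_j n_j / |v_j|² ∑_s (-1)^s v_(j,s) {m_j}_2 ⊗ x_0 ∧ ... ∧ x_k` (without `x_s`),

that is `∑_j n_j / |v_j|² {m_j}_2 ⊗ *m_j`, `*` the Hodge star operator. -/
noncomputable def Dat.alpha (hC : C.Admissible) : FS C.Ring k :=
  ∑ j, ((C.n j : ℚ) / (∑ s, C.v j s ^ 2 : ℤ)) • ∑ s : Fin (k + 1),
    ((-1) ^ (s : ℕ) * (C.v j s : ℚ)) • br (Dat.pt hC j) fun l => C.x (s.succAbove l)

end hypersurfaces

end Pool.Agent.Helper90.HB
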