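import Pool.Agent.Helper90.HB.Van
import Pool.Agent.Helper90.HB.Alg
import Pool.Agent.N65.TK.Circ
set_option autoImplicit false

/-!
Integrals of `D(exp(i θ)) d φ_0 ∧ ... ∧ d φ_k` (one `d φ_s` omitted) over a closed chain in
`ℝ^(k+2)` as integrals over the cone.
-/

namespace Pool.Agent.Helper90.HB

open MeasureTheory Set Filter Topology Real Pool.Agent.TH826.MK
open Pool.Agent.N65.TK (Ls Dc hasDerivAt_Dc hasDerivAt_Ls)

section fubini

/-- the integral of a function which does not depend on the first coordinate -/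
theorem integral_tl {n : ℕ} (h : (Fin n → ℝ) → ℝ) :
    ∫ y in Icc (0 : Fin (n + 1) → ℝ) 1, h (tl n y) = ∫ x in Icc (0 : Fin n → ℝ) 1, h x := by
  have h1 := (volume_preserving_piFinSuccAbove (fun _ : Fin (n + 1) => ℝ) 0).setIntegral_preimage_emb
    (MeasurableEquiv.measurableEmbedding _) (fun p : ℝ × (Fin n → ℝ) => h p.2)
    (Icc (0 : ℝ) 1 ×ˢ Icc (0 : Fin n → ℝ) 1)
  have h2 : (MeasurableEquiv.piFinSuccAbove (fun _ : Fin (n + 1) => ℝ) 0) ⁻¹'
      (Icc (0 : ℝ) 1 ×ˢ Icc (0 : Fin n → ℝ) 1) = Icc (0 : Fin (n + 1) → ℝ) 1 := by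
    ext y
    simp only [mem_preimage, mem_prod, mem_Icc]
    constructor
    · rintro ⟨⟨h1, h2⟩, h3, h4⟩
      refine ⟨fun i => ?_, fun i => ?_⟩
      · refine Fin.cases ?_ (fun i => ?_) i
        · exact h1
        · exact h3 i
      · refine Fin.cases ?_ (fun i => ?_) i
        · exact h2
        · exact h4 i
    · rintro ⟨h1, h2⟩
      exact ⟨⟨h1 0, h2 0⟩, fun i => h1 i.succ, fun i => h2 i.succ⟩
  rw [h2] at h1
  have h3 : ∫ y in Icc (0 : Fin (n + 1) → ℝ) 1, h (tl n y) =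
      ∫ y in Icc (0 : Fin (n + 1) → ℝ) 1,
        (fun p : ℝ × (Fin n → ℝ) => h p.2) ((MeasurableEquiv.piFinSuccAbove
          (fun _ : Fin (n + 1) => ℝ) 0) y) := rfl
  rw [h3, h1]
  rw [Measure.volume_eq_prod, ← Measure.prod_restrict, integral_fun_snd]
  simp

end fubini

section green

variable {k : ℕ} (φ : (Fin (k + 1) → ℝ) → Fin (k + 2) → ℝ)

/-- a closed chain in `ℝ^(k+2)` -/
structure ClosedMap : Prop where
  smooth : ∀ s, ContDiff ℝ 2 fun θ => φ θ s
  closed : ∀ i : Fin (k + 1), (∀ θ, φ (θ + Pi.single i 1) = φ θ) ∨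
    ((∃ j, j ≠ i ∧ ∀ θ s, θ i = 0 → φ (Function.update θ j s) = φ θ) ∧
     (∃ j, j ≠ i ∧ ∀ θ s, θ i = 1 → φ (Function.update θ j s) = φ θ))

/-- the exponential of the coordinate `φ_s` -/
noncomputable def ge (s : Fin (k + 2)) (θ : Fin (k + 1) → ℝ) : ℂ := Complex.exp (φ θ s : ℂ)

/-- the partial derivative -/
noncomputable def dp (s : Fin (k + 2)) (i : Fin (k + 1)) (θ : Fin (k + 1) → ℝ) : ℝ :=
  fderiv ℝ (fun θ => φ θ s) θ (Pi.single i 1)

/-- the minor of the Jacobian matrix -/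
noncomputable def minor (s : Fin (k + 2)) (θ : Fin (k + 1) → ℝ) : ℝ :=
  (Matrix.of fun l i : Fin (k + 1) => dp φ (s.succAbove l) i θ).det

variable {φ} (hφ : ClosedMap φ)

theorem grow_ge_zero (s : Fin (k + 2)) (y : Fin (k + 2) → ℝ) :
    grow (ge φ s) y 0 = (φ (tl (k + 1) y) s : ℝ) := by
  rw [grow_zero]
  unfold ge
  rw [Complex.norm_exp, Complex.ofReal_re, Real.log_exp]

include hφ

theorem ClosedMap.good (s : Fin (k + 2)) : Good (ge φ s) :=
  ⟨(Complex.ofRealCLM.contDiff.comp (hφ.smooth s)).cexp, fun _ => Complex.exp_ne_zero _⟩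

theorem ClosedMap.lw_ge (s : Fin (k + 2)) (i : Fin (k + 1)) (θ : Fin (k + 1) → ℝ) :
    lw (ge φ s) i θ = (dp φ s i θ : ℝ) := by
  have h1 : HasFDerivAt (fun θ => φ θ s) (fderiv ℝ (fun θ => φ θ s) θ) θ :=
    ((hφ.smooth s).differentiable (by norm_num) θ).hasFDerivAt
  have h2 : HasFDerivAt (fun θ => ((φ θ s : ℝ) : ℂ))
      (Complex.ofRealCLM.comp (fderiv ℝ (fun θ => φ θ s) θ)) θ :=
    Complex.ofRealCLM.hasFDerivAt.comp θ h1
  have h3 := h2.cexp
  unfold lw
  have h4 : fderiv ℝ (ge φ s) θ = _ := h3.fderiv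
  rw [h4]
  unfold ge dp
  simp only [smul_apply, smul_eq_mul, ContinuousLinearMap.comp_apply]
  rw [mul_div_cancel_left₀ _ (Complex.exp_ne_zero _)]
  rfl

theorem ClosedMap.grow_ge_succ (s : Fin (k + 2)) (y : Fin (k + 2) → ℝ) (i : Fin (k + 1)) :
    grow (ge φ s) y i.succ = ((y 0 * dp φ s i (tl (k + 1) y) : ℝ) : ℂ) := by
  rw [grow_succ, hφ.lw_ge]
  simp

end green

section main

variable {k : ℕ} {φ : (Fin (k + 1) → ℝ) → Fin (k + 2) → ℝ}

/-- the linear function -/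
noncomputable def aa (φ : (Fin (k + 1) → ℝ) → Fin (k + 2) → ℝ) (v : Fin (k + 2) → ℝ)
    (θ : Fin (k + 1) → ℝ) : ℝ := ∑ s, v s * φ θ s

theorem contDiff_aa (hφ : ClosedMap φ) (v : Fin (k + 2) → ℝ) : ContDiff ℝ 2 (aa φ v) := by
  unfold aa
  exact ContDiff.sum fun s _ => contDiff_const.mul (hφ.smooth s)

/-- the function `D(exp(i (e + t a)))` -/
noncomputable def FF (φ : (Fin (k + 1) → ℝ) → Fin (k + 2) → ℝ) (v : Fin (k + 2) → ℝ) (e : ℝ)
    (y : Fin (k + 2) → ℝ) : ℝ := Dc (e + y 0 * aa φ v (tl (k + 1) y))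

/-- its derivative -/
noncomputable def FF' (φ : (Fin (k + 1) → ℝ) → Fin (k + 2) → ℝ) (v : Fin (k + 2) → ℝ) (e : ℝ)
    (y : Fin (k + 2) → ℝ) : (Fin (k + 2) → ℝ) →L[ℝ] ℝ :=
  (-Ls (e + y 0 * aa φ v (tl (k + 1) y))) •
    (y 0 • (fderiv ℝ (aa φ v) (tl (k + 1) y)).comp (tl (k + 1)) +
      aa φ v (tl (k + 1) y) • (1 : ℝ) • pr0 (k + 1))

/-- the range condition -/
def InRange (φ : (Fin (k + 1) → ℝ) → Fin (k + 2) → ℝ) (v : Fin (k + 2) → ℝ) (e : ℝ) : Prop :=
  ∀ τ ∈ Icc (0 : ℝ) 1, ∀ θ, 0 < e + τ * aa φ v θ ∧ e + τ * aa φ v θ < 2 * π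

theorem mem_Icc_zero {n : ℕ} {y : Fin (n + 1) → ℝ} (hy : y ∈ Icc (0 : Fin (n + 1) → ℝ) 1) :
    y 0 ∈ Icc (0 : ℝ) 1 := ⟨hy.1 0, hy.2 0⟩

theorem hasFDerivAt_aa (hφ : ClosedMap φ) (v : Fin (k + 2) → ℝ) (θ : Fin (k + 1) → ℝ) :
    HasFDerivAt (aa φ v) (fderiv ℝ (aa φ v) θ) θ :=
  ((contDiff_aa hφ v).differentiable (by norm_num) θ).hasFDerivAt

theorem hasFDerivAt_arg (hφ : ClosedMap φ) (v : Fin (k + 2) → ℝ) (e : ℝ)
    (y : Fin (k + 2) → ℝ) : HasFDerivAt (fun y : Fin (k + 2) → ℝ => e + y 0 * aa φ v (tl (k + 1) y))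
      (y 0 • (fderiv ℝ (aa φ v) (tl (k + 1) y)).comp (tl (k + 1)) +
      aa φ v (tl (k + 1) y) • (1 : ℝ) • pr0 (k + 1)) y :=
  (hasFDerivAt_tmul (c := fun t => t) (hasDerivAt_id (y 0)) (hasFDerivAt_aa hφ v _)).const_add e

theorem hasFDerivAt_FF (hφ : ClosedMap φ) {v : Fin (k + 2) → ℝ} {e : ℝ} (hr : InRange φ v e)
    {y : Fin (k + 2) → ℝ} (hy : y ∈ Icc (0 : Fin (k + 2) → ℝ) 1) :
    HasFDerivAt (FF φ v e) (FF' φ v e y) y := by
  obtain ⟨h1, h2⟩ := hr (y 0) (mem_Icc_zero hy) (tl (k + 1) y)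
  exact HasDerivAt.comp_hasFDerivAt (f := fun y : Fin (k + 2) → ℝ => e + y 0 * aa φ v (tl (k + 1) y))
    y (hasDerivAt_Dc h1 h2) (hasFDerivAt_arg hφ v e y)

theorem fderiv_aa (hφ : ClosedMap φ) (v : Fin (k + 2) → ℝ) (θ : Fin (k + 1) → ℝ) (i : Fin (k + 1)) :
    fderiv ℝ (aa φ v) θ (Pi.single i 1) = ∑ s, v s * dp φ s i θ := by
  have h1 : ∀ s, HasFDerivAt (fun θ => φ θ s) (fderiv ℝ (fun θ => φ θ s) θ) θ := fun s =>
    ((hφ.smooth s).differentiable (by norm_num) θ).hasFDerivAt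
  have h2 : HasFDerivAt (aa φ v) (∑ s, v s • fderiv ℝ (fun θ => φ θ s) θ) θ := by
    unfold aa
    exact HasFDerivAt.fun_sum fun s _ => (h1 s).const_mul (v s)
  rw [h2.fderiv, sum_apply]
  rfl

/-- the gradient of `FF` -/
noncomputable def gradF (φ : (Fin (k + 1) → ℝ) → Fin (k + 2) → ℝ) (v : Fin (k + 2) → ℝ) (e : ℝ)
    (y : Fin (k + 2) → ℝ) : Fin (k + 2) → ℂ :=
  ∑ s, (((-Ls (e + y 0 * aa φ v (tl (k + 1) y)) * v s : ℝ) : ℂ)) • grow (ge φ s) y

theorem gradF_eq (hφ : ClosedMap φ) (v : Fin (k + 2) → ℝ) (e : ℝ)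
    (y : Fin (k + 2) → ℝ) (i : Fin (k + 2)) :
    gradF φ v e y i = (FF' φ v e y (Pi.single i 1) : ℝ) := by
  have hsum : ∀ c d : Fin (k + 2) → ℝ, ∑ x, (c x : ℂ) * (d x : ℂ) = ((∑ x, c x * d x : ℝ) : ℂ) := by
    intro c d
    push_cast
    rfl
  unfold gradF FF'
  rw [Finset.sum_apply]
  simp only [Pi.smul_apply, smul_eq_mul]
  refine Fin.cases ?_ (fun i => ?_) i
  · simp only [grow_ge_zero]
    rw [hsum]
    congr 1
    simp only [smul_apply, add_apply, ContinuousLinearMap.comp_apply, tl_single_zero, map_zero,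
      smul_eq_mul, pr0_apply, Pi.single_eq_same]
    rw [mul_zero, zero_add, mul_one, mul_one]
    generalize Ls (e + y 0 * aa φ v (tl (k + 1) y)) = L
    rw [show aa φ v (tl (k + 1) y) = ∑ s, v s * φ (tl (k + 1) y) s from rfl, Finset.mul_sum]
    exact Finset.sum_congr rfl fun s _ => by ring
  · simp only [hφ.grow_ge_succ]
    rw [hsum]
    congr 1
    simp only [smul_apply, add_apply, ContinuousLinearMap.comp_apply, tl_single_succ,
      smul_eq_mul, pr0_apply, fderiv_aa hφ]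
    rw [Pi.single_eq_of_ne (Fin.succ_ne_zero i).symm, mul_zero, mul_zero, add_zero,
      Finset.mul_sum, Finset.mul_sum]
    exact Finset.sum_congr rfl fun s _ => by ring

theorem continuousOn_Ls (hφ : ClosedMap φ) {v : Fin (k + 2) → ℝ} {e : ℝ} (hr : InRange φ v e) :
    ContinuousOn (fun y : Fin (k + 2) → ℝ => Ls (e + y 0 * aa φ v (tl (k + 1) y)))
      (Icc (0 : Fin (k + 2) → ℝ) 1) := by
  intro y hy
  obtain ⟨h1, h2⟩ := hr (y 0) (mem_Icc_zero hy) (tl (k + 1) y)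
  exact ((hasDerivAt_Ls h1 h2).continuousAt.comp
    (f := fun y : Fin (k + 2) → ℝ => e + y 0 * aa φ v (tl (k + 1) y))
    (hasFDerivAt_arg hφ v e y).continuousAt).continuousWithinAt

theorem continuousOn_gradF (hφ : ClosedMap φ) {v : Fin (k + 2) → ℝ} {e : ℝ}
    (hr : InRange φ v e) : ContinuousOn (gradF φ v e) (Icc (0 : Fin (k + 2) → ℝ) 1) := by
  unfold gradF
  refine continuousOn_finsetSum _ fun s _ => ContinuousOn.fun_smul ?_
    (continuous_grow (hφ.good s)).continuousOn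
  exact Complex.continuous_ofReal.comp_continuousOn
    ((continuousOn_Ls hφ hr).neg.mul continuousOn_const)

/-- the data of Stokes' theorem -/
noncomputable def gsd (hφ : ClosedMap φ) {v : Fin (k + 2) → ℝ} {e : ℝ} (hr : InRange φ v e)
    (s : Fin (k + 2)) : SD (k + 1) where
  J := fun l y => (Fin.cons (gradF φ v e y) (fun l => grow (ge φ (s.succAbove l)) y) :
    Fin (k + 2) → Fin (k + 2) → ℂ) l
  J' := fun l y => Fin.cases (0 : (Fin (k + 2) → ℝ) →L[ℝ] (Fin (k + 2) → ℂ))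
    (fun l => grow' (ge φ (s.succAbove l)) y) l
  P := fun y => (FF φ v e y : ℂ) • grow (ge φ (s.succAbove 0)) y
  P' := fun y => (FF φ v e y : ℂ) • grow' (ge φ (s.succAbove 0)) y +
    (Complex.ofRealCLM.comp (FF' φ v e y)).smulRight (grow (ge φ (s.succAbove 0)) y)
  p := 0
  q := 1
  hpq := by simp
  hc l := by
    refine Fin.cases ?_ (fun l => ?_) l
    · exact continuousOn_gradF hφ hr
    · exact (continuous_grow (hφ.good _)).continuousOn
  hJ l := by
    refine Fin.cases ?_ (fun l => ?_) l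
    · intro h
      exact absurd rfl h
    · intro _ _ y _
      exact hasFDerivAt_grow (hφ.good _).smooth (hφ.good _).ne_zero y
  hJs l := by
    refine Fin.cases ?_ (fun l => ?_) l
    · intro h
      exact absurd rfl h
    · intro _ _ y _ i j
      exact grow'_symm (hφ.good _).smooth y i j
  hP y hy := by
    have h1 := Complex.ofRealCLM.hasFDerivAt.comp y (hasFDerivAt_FF hφ hr hy)
    have h2 := hasFDerivAt_grow (hφ.good (s.succAbove 0)).smooth (hφ.good (s.succAbove 0)).ne_zero y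
    exact h1.smul h2
  hX y _ a b := by
    have h1 := grow'_symm (hφ.good (s.succAbove 0)).smooth y a b
    show (FF φ v e y : ℂ) * grow' (ge φ (s.succAbove 0)) y (Pi.single a 1) b +
        ((FF' φ v e y (Pi.single a 1) : ℝ) : ℂ) * grow (ge φ (s.succAbove 0)) y b -
        gradF φ v e y a * grow (ge φ (s.succAbove 0)) y b =
      (FF φ v e y : ℂ) * grow' (ge φ (s.succAbove 0)) y (Pi.single b 1) a +
        ((FF' φ v e y (Pi.single b 1) : ℝ) : ℂ) * grow (ge φ (s.succAbove 0)) y a -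
        gradF φ v e y b * grow (ge φ (s.succAbove 0)) y a
    rw [gradF_eq hφ, gradF_eq hφ, h1]
    ring

section sides

variable (hφ : ClosedMap φ) {v : Fin (k + 2) → ℝ} {e : ℝ} (hr : InRange φ v e) (s : Fin (k + 2))

theorem gsd_p : (gsd hφ hr s).p = 0 := rfl

theorem gsd_q : (gsd hφ hr s).q = 1 := rfl

theorem gsd_P : (gsd hφ hr s).P =
    fun y => (FF φ v e y : ℂ) • grow (ge φ (s.succAbove 0)) y := rfl

theorem gsd_J_succ (l : Fin (k + 1)) (y : Fin (k + 2) → ℝ) :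
    (gsd hφ hr s).J l.succ y = grow (ge φ (s.succAbove l)) y := rfl

/-- the vector field -/
theorem gsd_V (i : Fin (k + 2)) (y : Fin (k + 2) → ℝ) : (gsd hφ hr s).V i y =
    (FF φ v e y : ℂ) * (Matrix.of (Fin.cons (Pi.single i 1)
      (fun l => grow (ge φ (s.succAbove l)) y) : Fin (k + 2) → Fin (k + 2) → ℂ)).det := by
  rw [SD.V_eq, gsd_p, gsd_q, gsd_P]
  unfold dB
  have e1 : (Matrix.of (Function.update (Function.update (fun l => (gsd hφ hr s).J l y) 0
      (Pi.single i 1)) 1 ((FF φ v e y : ℂ) • grow (ge φ (s.succAbove 0)) y))) =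
      (Matrix.of (Fin.cons (Pi.single i 1)
      (fun l => grow (ge φ (s.succAbove l)) y) : Fin (k + 2) → Fin (k + 2) → ℂ)).updateRow 1
        ((FF φ v e y : ℂ) • grow (ge φ (s.succAbove 0)) y) := by
    ext l j
    by_cases h1 : l = 1
    · subst h1
      simp
    · rw [Matrix.updateRow_ne h1, Matrix.of_apply, Function.update_of_ne h1]
      revert h1
      refine Fin.cases ?_ (fun l => ?_) l
      · intro _
        rw [Function.update_self]
        rfl
      · intro _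
        rw [Function.update_of_ne (Fin.succ_ne_zero l)]
        rfl
  rw [e1, Matrix.det_updateRow_smul]
  congr 2
  exact Matrix.updateRow_eq_self (Matrix.of (Fin.cons (Pi.single i 1)
      (fun l => grow (ge φ (s.succAbove l)) y) : Fin (k + 2) → Fin (k + 2) → ℂ)) 1

theorem gsd_periodic {j : Fin (k + 1)} (hj : ∀ θ, φ (θ + Pi.single j 1) = φ θ)
    (x : Fin (k + 1) → ℝ) : (gsd hφ hr s).V j.succ (j.succ.insertNth 1 x) =
      (gsd hφ hr s).V j.succ (j.succ.insertNth 0 x) := by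
  have hper : ∀ t, PerI j (ge φ t) := fun t θ => by
    unfold ge
    rw [hj]
  have hF : ∀ y : Fin (k + 2) → ℝ, FF φ v e (y + Pi.single j.succ 1) = FF φ v e y := by
    intro y
    unfold FF aa
    rw [tl_add_single, hj, zero_add_single]
  rw [gsd_V, gsd_V, insertNth_eq, hF]
  congr 2
  have : (fun l => grow (ge φ (s.succAbove l))
      ((Fin.insertNth j.succ 0 x : Fin (k + 2) → ℝ) + Pi.single j.succ 1)) =
      fun l => grow (ge φ (s.succAbove l)) (Fin.insertNth j.succ 0 x : Fin (k + 2) → ℝ) :=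
    funext fun l => (hper _).grow _
  rw [this]

theorem gsd_degenerate {j j' : Fin (k + 1)} (hjj : j' ≠ j) {c : ℝ}
    (hj : ∀ θ s, θ j = c → φ (Function.update θ j' s) = φ θ)
    (x : Fin (k + 1) → ℝ) : (gsd hφ hr s).V j.succ (j.succ.insertNth c x) = 0 := by
  rw [gsd_V]
  set y : Fin (k + 2) → ℝ := j.succ.insertNth c x with hy
  have hyj : tl (k + 1) y j = c := by
    rw [tl_apply, hy, Fin.insertNth_apply_same]
  have hlw : ∀ t, lw (ge φ t) j' (tl (k + 1) y) = 0 := fun t =>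
    lw_eq_zero (hφ.good t).smooth fun s => by
      unfold ge
      rw [hj _ s hyj]
  have : (Matrix.of (Fin.cons (Pi.single j.succ 1)
      (fun l => grow (ge φ (s.succAbove l)) y) : Fin (k + 2) → Fin (k + 2) → ℂ)).det = 0 := by
    refine Matrix.det_eq_zero_of_column_eq_zero j'.succ fun l => ?_
    rw [Matrix.of_apply]
    refine Fin.cases ?_ (fun l => ?_) l
    · rw [Fin.cons_zero, Pi.single_eq_of_ne fun e => hjj (Fin.succ_injective _ e)]
    · rw [Fin.cons_succ, grow_succ, hlw]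
      simp
  rw [this, mul_zero]

theorem gsd_bottom (x : Fin (k + 1) → ℝ) :
    (gsd hφ hr s).V 0 (Fin.insertNth 0 0 x) = 0 := by
  rw [gsd_V]
  set y : Fin (k + 2) → ℝ := Fin.insertNth 0 0 x with hy
  have hy0 : y 0 = 0 := by simp [hy]
  have : (Matrix.of (Fin.cons (Pi.single 0 1)
      (fun l => grow (ge φ (s.succAbove l)) y) : Fin (k + 2) → Fin (k + 2) → ℂ)).det = 0 := by
    refine Matrix.det_eq_zero_of_column_eq_zero (Fin.succ 0) fun l => ?_
    rw [Matrix.of_apply]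
    refine Fin.cases ?_ (fun l => ?_) l
    · rw [Fin.cons_zero, Pi.single_eq_of_ne (Fin.succ_ne_zero 0)]
    · rw [Fin.cons_succ, hφ.grow_ge_succ, hy0]
      simp
  rw [this, mul_zero]

/-- a determinant whose first row is a multiple of the first unit vector -/
theorem det_cons_single {n : ℕ} (c : ℂ) (G : Fin n → Fin (n + 1) → ℂ) :
    (Matrix.of (Fin.cons (Pi.single 0 c) G : Fin (n + 1) → Fin (n + 1) → ℂ)).det =
      c * (Matrix.of fun l i : Fin n => G l i.succ).det := by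
  rw [Matrix.det_succ_row_zero, Finset.sum_eq_single 0]
  · rw [Matrix.of_apply, Fin.cons_zero, Pi.single_eq_same]
    simp only [Fin.val_zero, pow_zero, one_mul, Fin.succAbove_zero]
    rfl
  · intro j _ hj
    rw [Matrix.of_apply, Fin.cons_zero, Pi.single_eq_of_ne hj, mul_zero, zero_mul]
  · simp

theorem det_ofReal {n : ℕ} (M : Fin n → Fin n → ℝ) :
    (Matrix.of fun i j => ((M i j : ℝ) : ℂ)).det = ((Matrix.of M).det : ℝ) := by
  have := (RingHom.map_det Complex.ofRealHom (Matrix.of M)).symm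
  exact this

theorem gsd_top (x : Fin (k + 1) → ℝ) :
    (gsd hφ hr s).V 0 (Fin.insertNth 0 1 x) = ((Dc (e + aa φ v x) * minor φ s x : ℝ) : ℂ) := by
  rw [gsd_V]
  set y : Fin (k + 2) → ℝ := Fin.insertNth 0 1 x with hy
  have hy0 : y 0 = 1 := by simp [hy]
  have hyt : tl (k + 1) y = x := by
    funext i
    rw [tl_apply, hy]
    simp
  rw [det_cons_single, one_mul]
  have h1 : (Matrix.of fun l i : Fin (k + 1) => grow (ge φ (s.succAbove l)) y i.succ).det =
      ((minor φ s x : ℝ) : ℂ) := by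
    unfold minor
    rw [← det_ofReal]
    congr 2
    funext l i
    rw [hφ.grow_ge_succ, hy0, hyt, one_mul]
  rw [h1]
  unfold FF
  rw [hy0, hyt, one_mul]
  push_cast
  rfl

/-- the rows of the Jacobian matrix of the cone -/
noncomputable def Gr (φ : (Fin (k + 1) → ℝ) → Fin (k + 2) → ℝ) (s : Fin (k + 2))
    (y : Fin (k + 2) → ℝ) : Fin (k + 2) → ℝ :=
  Fin.cons (φ (tl (k + 1) y) s) fun i => y 0 * dp φ s i (tl (k + 1) y)

theorem grow_eq_Gr (hφ : ClosedMap φ) (s : Fin (k + 2)) (y : Fin (k + 2) → ℝ) :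
    grow (ge φ s) y = fun j => ((Gr φ s y j : ℝ) : ℂ) := by
  funext j
  refine Fin.cases ?_ (fun j => ?_) j
  · exact grow_ge_zero s y
  · exact hφ.grow_ge_succ s y j

/-- the Jacobian of the cone -/
noncomputable def wj (φ : (Fin (k + 1) → ℝ) → Fin (k + 2) → ℝ) (y : Fin (k + 2) → ℝ) : ℝ :=
  (Matrix.of fun s j => Gr φ s y j).det

theorem det_grow (hφ : ClosedMap φ) (y : Fin (k + 2) → ℝ) :
    (Matrix.of fun s => grow (ge φ s) y).det = ((wj φ y : ℝ) : ℂ) := by
  unfold wj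
  rw [← det_ofReal]
  congr 2
  funext s
  rw [grow_eq_Gr hφ]

theorem gsd_det (y : Fin (k + 2) → ℝ) : (detC (k + 2) fun l => (gsd hφ hr s).J l y) =
    ((-(Ls (e + y 0 * aa φ v (tl (k + 1) y)) * (v s * (-1) ^ (s : ℕ)) * wj φ y) : ℝ) : ℂ) := by
  have h1 : (detC (k + 2) fun l => (gsd hφ hr s).J l y) =
      (Matrix.detRowAlternating (R := ℂ) (n := Fin (k + 2)))
        (Fin.cons (∑ t, (((-Ls (e + y 0 * aa φ v (tl (k + 1) y)) * v t : ℝ) : ℂ)) •
          grow (ge φ t) y) fun l => grow (ge φ (s.succAbove l)) y) := rfl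
  rw [h1, alt_cons_comb (Matrix.detRowAlternating (R := ℂ) (n := Fin (k + 2)))
    (fun t => grow (ge φ t) y)]
  have h2 : Matrix.detRowAlternating (R := ℂ) (n := Fin (k + 2)) (fun t => grow (ge φ t) y) =
      ((wj φ y : ℝ) : ℂ) := det_grow hφ y
  rw [h2, smul_eq_mul]
  push_cast
  ring

include hφ hr in
/-- Green's formula -/
theorem green : ∫ x in Icc (0 : Fin (k + 1) → ℝ) 1, Dc (e + aa φ v x) * minor φ s x =
    -∫ y in Icc (0 : Fin (k + 2) → ℝ) 1,
      Ls (e + y 0 * aa φ v (tl (k + 1) y)) * (v s * (-1) ^ (s : ℕ)) * wj φ y := by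
  have hst := (gsd hφ hr s).stokes
  simp only [gsd_det] at hst
  rw [Fin.sum_univ_succ] at hst
  have h0 : ∑ j : Fin (k + 1), ((∫ x in Icc (0 : Fin (k + 1) → ℝ) 1,
      (gsd hφ hr s).V j.succ (j.succ.insertNth 1 x)) -
      ∫ x in Icc (0 : Fin (k + 1) → ℝ) 1, (gsd hφ hr s).V j.succ (j.succ.insertNth 0 x)) = 0 := by
    refine Finset.sum_eq_zero fun j _ => ?_
    rcases hφ.closed j with hj | ⟨⟨j0, hj0, hj0'⟩, j1, hj1, hj1'⟩
    · simp only [gsd_periodic hφ hr s hj, sub_self]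
    · simp only [gsd_degenerate hφ hr s hj0 hj0', gsd_degenerate hφ hr s hj1 hj1', integral_zero,
        sub_self]
  rw [h0, add_zero] at hst
  simp only [gsd_top, gsd_bottom, integral_zero, sub_zero] at hst
  rw [integral_complex_ofReal, integral_complex_ofReal] at hst
  have h1 := Complex.ofReal_injective hst
  rw [← h1, integral_neg]

end sides

end main

end Pool.Agent.Helper90.HB
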