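import Pool.Agent.Helper90.HB.St
import Pool.Agent.TH826.MK.Torus
import Pool.Agent.N65.TK.Rel
set_option autoImplicit false

/-!
The primitive `Q` of `P ∧ d Ψ_f`, where `P` is the form of `{f}_2` and `Ψ_f = t log |f| + i arg f`:
it contains the single-valued trilogarithm of `f`.
-/

namespace Pool.Agent.Helper90.HB

open MeasureTheory Set Pool.Agent.TH826.MK Pool.Agent.W367.KT Pool.Agent.N65.TK

section deriv

variable {E : Type*} [NormedAddCommGroup E] [NormedSpace ℝ E]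

theorem differentiableAt_M1 {u : E → ℂ} {u' : E →L[ℝ] ℂ} {x : E} (hu : HasFDerivAt u u' x)
    (h0 : u x ≠ 0) (h1 : u x ∈ S1) : DifferentiableAt ℝ (fun s => M1 (u s)) x := by
  have hL : HasFDerivAt (fun s => Li (u s)) (gfun (u x) • u') x :=
    (hasDerivAt_Li h1).comp_hasFDerivAt x hu
  have hL' : DifferentiableAt ℝ (fun s => (Li (u s)).re) x :=
    (Complex.reCLM.hasFDerivAt.comp x hL).differentiableAt
  have hT : HasFDerivAt (fun s => Li3 (u s)) (g3 (u x) • u') x :=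
    (hasDerivAt_Li3 h1).comp_hasFDerivAt x hu
  have hT' : DifferentiableAt ℝ (fun s => (Li3 (u s)).re) x :=
    (Complex.reCLM.hasFDerivAt.comp x hT).differentiableAt
  have hA : HasFDerivAt (fun s => 1 - u s) (-u') x := by simpa using hu.const_sub 1
  have hne : 1 - u x ≠ 0 := Complex.slitPlane_ne_zero h1
  have hl := (hasFDerivAt_logNorm hu h0).differentiableAt
  have hl1 := (hasFDerivAt_logNorm hA hne).differentiableAt
  unfold M1
  exact ((hT'.neg).add (hl.mul hL')).add (((hl.pow 2).const_mul (1 / 3)).mul hl1)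

theorem differentiableAt_Mf {u : E → ℂ} {u' : E →L[ℝ] ℂ} {x : E} (hu : HasFDerivAt u u' x)
    (h0 : u x ≠ 0) (h1 : u x ≠ 1) : DifferentiableAt ℝ (fun s => Mf (u s)) x := by
  by_cases h : u x ∈ S1
  · refine (differentiableAt_M1 hu h0 h).congr_of_eventuallyEq ?_
    filter_upwards [hu.continuousAt.preimage_mem_nhds (isOpen_S1.mem_nhds h)] with s hs
    exact if_pos hs
  · have h2 := mem_S2_of_not_mem_S1 h1 h
    have hi : DifferentiableAt ℝ (fun s => (u s)⁻¹) x := hu.differentiableAt.inv h0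
    have h3 : DifferentiableAt ℝ (fun s => M2 (u s)) x :=
      differentiableAt_M1 hi.hasFDerivAt (inv_ne_zero h0) h2.2
    refine h3.congr_of_eventuallyEq ?_
    filter_upwards [hu.continuousAt.preimage_mem_nhds (isOpen_S2.mem_nhds h2)] with s hs
    unfold Mf
    split_ifs with hS
    · exact M1_eq_M2 (mem_neg_slit_of hS hs)
    · rfl

theorem fderiv_Mf {u : E → ℂ} {u' : E →L[ℝ] ℂ} {x : E} (hu : HasFDerivAt u u' x)
    (h0 : u x ≠ 0) (h1 : u x ≠ 1) (v : E) :
    fderiv ℝ (fun s => Mf (u s)) x v = tau (u x) (u' v) := by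
  have h2 := (differentiableAt_Mf hu h0 h1).hasFDerivAt
  have hl : HasDerivAt (fun s : ℝ => x + s • v) v 0 := by
    simpa using (((hasDerivAt_id (0 : ℝ)).smul_const v).const_add x)
  have hx : x + (0 : ℝ) • v = x := by simp
  have h3 : HasDerivAt (fun s : ℝ => Mf (u (x + s • v))) (fderiv ℝ (fun s => Mf (u s)) x v) 0 := by
    have h2' : HasFDerivAt (fun s => Mf (u s)) (fderiv ℝ (fun s => Mf (u s)) x) (x + (0 : ℝ) • v) := by
      rw [hx]; exact h2
    exact h2'.comp_hasDerivAt (0 : ℝ) hl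
  have h4 : HasDerivAt (fun s : ℝ => u (x + s • v)) (u' v) 0 := by
    have hu' : HasFDerivAt u u' (x + (0 : ℝ) • v) := by rw [hx]; exact hu
    exact hu'.comp_hasDerivAt (0 : ℝ) hl
  have h5 := hasDerivAt_Mf h4 (by rw [hx]; exact h0) (by rw [hx]; exact h1)
  rw [hx] at h5
  exact h3.unique h5

end deriv

section Qform

variable {d : ℕ}

/-- the derivative of a product of a function of `t` and a function of `θ` -/
theorem hasFDerivAt_tmul {c : ℝ → ℝ} {c' : ℝ} {F : (Fin d → ℝ) → ℝ} {F' : (Fin d → ℝ) →L[ℝ] ℝ}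
    {y : Fin (d + 1) → ℝ} (hc : HasDerivAt c c' (y 0)) (hF : HasFDerivAt F F' (tl d y)) :
    HasFDerivAt (fun y : Fin (d + 1) → ℝ => c (y 0) * F (tl d y))
      (c (y 0) • F'.comp (tl d) + F (tl d y) • c' • pr0 d) y := by
  have h5 : HasFDerivAt (fun y : Fin (d + 1) → ℝ => y 0) (pr0 d) y := (pr0 d).hasFDerivAt
  have h1 : HasFDerivAt (fun y : Fin (d + 1) → ℝ => c (y 0)) (c' • pr0 d) y :=
    HasDerivAt.comp_hasFDerivAt (f := fun y : Fin (d + 1) → ℝ => y 0) y hc h5
  have h2 : HasFDerivAt (fun y : Fin (d + 1) → ℝ => F (tl d y)) (F'.comp (tl d)) y :=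
    HasFDerivAt.comp y hF ((tl d).hasFDerivAt)
  exact h1.mul h2

variable (f : (Fin d → ℝ) → ℂ)

/-- the coefficient of `log|f| d log|1-f| - log|1-f| d log|f|` -/
noncomputable def lam (j : Fin d) (θ : Fin d → ℝ) : ℝ :=
  Real.log ‖f θ‖ * (lw (om f) j θ).re - Real.log ‖om f θ‖ * (lw f j θ).re

/-- its derivative -/
noncomputable def lam' (j : Fin d) (θ : Fin d → ℝ) : (Fin d → ℝ) →L[ℝ] ℝ :=
  (Real.log ‖f θ‖ • relw' (om f) j θ + (lw (om f) j θ).re • dlog f θ) -
    (Real.log ‖om f θ‖ • relw' f j θ + (lw f j θ).re • dlog (om f) θ)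

/-- the form -/
noncomputable def Qf (y : Fin (d + 1) → ℝ) : Fin (d + 1) → ℂ :=
  Fin.cons ((-Mf (f (tl d y)) : ℝ) : ℂ) fun j =>
    ((-(y 0 ^ 3 - y 0) / 6 * (Real.log ‖f (tl d y)‖ * lam f j (tl d y)) : ℝ) : ℂ) +
    Complex.I * ((-(y 0 ^ 2 - 1) / 2 * (BW (f (tl d y)) * (lw f j (tl d y)).re) : ℝ) : ℂ)

/-- its derivative -/
noncomputable def Qf' (y : Fin (d + 1) → ℝ) : (Fin (d + 1) → ℝ) →L[ℝ] (Fin (d + 1) → ℂ) :=
  ContinuousLinearMap.pi (Fin.cons
    (Complex.ofRealCLM.comp (-(fderiv ℝ (fun s => Mf (f s)) (tl d y)).comp (tl d)))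
    fun j => Complex.ofRealCLM.comp
      ((-(y 0 ^ 3 - y 0) / 6) • (Real.log ‖f (tl d y)‖ • lam' f j (tl d y) +
        lam f j (tl d y) • dlog f (tl d y)).comp (tl d) +
        (Real.log ‖f (tl d y)‖ * lam f j (tl d y)) • (-(3 * y 0 ^ 2 - 1) / 6) • pr0 d) +
      Complex.I • Complex.ofRealCLM.comp
      ((-(y 0 ^ 2 - 1) / 2) • (BW (f (tl d y)) • relw' f j (tl d y) +
        (lw f j (tl d y)).re • fderiv ℝ (fun s => BW (f s)) (tl d y)).comp (tl d) +
        (BW (f (tl d y)) * (lw f j (tl d y)).re) • (-(y 0)) • pr0 d))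

variable {f}

theorem hasFDerivAt_lam (hf : ContDiff ℝ 2 f) (h0 : ∀ θ, f θ ≠ 0) (h1 : ∀ θ, om f θ ≠ 0)
    (j : Fin d) (θ : Fin d → ℝ) : HasFDerivAt (lam f j) (lam' f j θ) θ := by
  have hg := contDiff_om hf
  have hd : HasFDerivAt f (fderiv ℝ f θ) θ := ((hf.differentiable (by norm_num)) _).hasFDerivAt
  have hd1 : HasFDerivAt (om f) (fderiv ℝ (om f) θ) θ :=
      ((hg.differentiable (by norm_num)) _).hasFDerivAt
  have hre := Complex.reCLM.hasFDerivAt.comp θ (hasFDerivAt_lw hf h0 j θ)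
  have hre1 := Complex.reCLM.hasFDerivAt.comp θ (hasFDerivAt_lw hg h1 j θ)
  have hl := hasFDerivAt_logNorm hd (h0 _)
  have hl1 := hasFDerivAt_logNorm hd1 (h1 _)
  exact (hl.mul hre1).sub (hl1.mul hre)

theorem hasFDerivAt_Qf (hf : ContDiff ℝ 2 f) (h0 : ∀ θ, f θ ≠ 0) (h1 : ∀ θ, om f θ ≠ 0)
    (y : Fin (d + 1) → ℝ) : HasFDerivAt (Qf f) (Qf' f y) y := by
  rw [hasFDerivAt_pi']
  have hlin : HasFDerivAt (fun y : Fin (d + 1) → ℝ => tl d y) (tl d) y := (tl d).hasFDerivAt
  have hd : HasFDerivAt f (fderiv ℝ f (tl d y)) (tl d y) :=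
      ((hf.differentiable (by norm_num)) _).hasFDerivAt
  have hne : f (tl d y) ≠ 1 := fun e => h1 (tl d y) (by unfold om; rw [e, sub_self])
  have hBW := (differentiableAt_BW hd (h0 _) hne).hasFDerivAt
  have hMf := (differentiableAt_Mf hd (h0 _) hne).hasFDerivAt
  have hl := hasFDerivAt_logNorm hd (h0 _)
  intro i
  refine Fin.cases ?_ (fun j => ?_) i
  · have h2 := (HasFDerivAt.comp y hMf hlin).neg
    exact Complex.ofRealCLM.hasFDerivAt.comp y h2
  · have hre := Complex.reCLM.hasFDerivAt.comp (tl d y) (hasFDerivAt_lw hf h0 j (tl d y))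
    have hc1 : HasDerivAt (fun t : ℝ => -(t ^ 3 - t) / 6) (-(3 * y 0 ^ 2 - 1) / 6) (y 0) := by
      have h := (((hasDerivAt_id (y 0)).pow 3).sub (hasDerivAt_id (y 0))).neg.div_const 6
      refine (h.congr_deriv ?_).congr_of_eventuallyEq (Filter.Eventually.of_forall fun z => ?_)
      · simp
      · simp
    have hc2 : HasDerivAt (fun t : ℝ => -(t ^ 2 - 1) / 2) (-(y 0)) (y 0) := by
      have h := (((hasDerivAt_id (y 0)).pow 2).sub_const 1).neg.div_const 2
      refine (h.congr_deriv ?_).congr_of_eventuallyEq (Filter.Eventually.of_forall fun z => ?_)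
      · simp
        ring
      · simp
    have hA := hasFDerivAt_tmul hc1 (hl.mul (hasFDerivAt_lam hf h0 h1 j (tl d y)))
    have hB := hasFDerivAt_tmul hc2 (hBW.mul hre)
    exact (Complex.ofRealCLM.hasFDerivAt.comp y hA).add
      ((Complex.ofRealCLM.hasFDerivAt.comp y hB).const_mul Complex.I)

theorem Pst_eq (y : Fin (d + 1) → ℝ) (j : Fin d) :
    Pst f y j.succ = (((y 0 ^ 2 - 1) / 2 * lam f j (tl d y) : ℝ) : ℂ) := rfl

theorem Qf_symm (hf : ContDiff ℝ 2 f) (h0 : ∀ θ, f θ ≠ 0) (h1 : ∀ θ, om f θ ≠ 0)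
    (y : Fin (d + 1) → ℝ) (i j : Fin (d + 1)) :
    Qf' f y (Pi.single i 1) j - Pst f y i * grow f y j =
      Qf' f y (Pi.single j 1) i - Pst f y j * grow f y i := by
  have hd : HasFDerivAt f (fderiv ℝ f (tl d y)) (tl d y) :=
      ((hf.differentiable (by norm_num)) _).hasFDerivAt
  have hne : f (tl d y) ≠ 1 := fun e => h1 (tl d y) (by unfold om; rw [e, sub_self])
  have hBW : ∀ k : Fin d, fderiv ℝ (fun s => BW (f s)) (tl d y) (Pi.single k 1) =
      Real.log ‖f (tl d y)‖ * (lw (om f) k (tl d y)).im -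
        Real.log ‖om f (tl d y)‖ * (lw f k (tl d y)).im := by
    intro k
    rw [fderiv_BW hd (h0 _) hne]
    unfold eta lw
    rw [fderiv_om hf]
    rfl
  have hMf : ∀ k : Fin d, fderiv ℝ (fun s => Mf (f s)) (tl d y) (Pi.single k 1) =
      BW (f (tl d y)) * (lw f k (tl d y)).im +
        1 / 3 * (Real.log ‖f (tl d y)‖ * lam f k (tl d y)) := by
    intro k
    rw [fderiv_Mf hd (h0 _) hne]
    unfold tau lam lw
    rw [D_eq_BW, fderiv_om hf]
    have e : -(fderiv ℝ f (tl d y) (Pi.single k 1)) / (1 - f (tl d y)) =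
        (-fderiv ℝ f (tl d y)) (Pi.single k 1) / om f (tl d y) := rfl
    rw [e]
    show _ - _ * (Real.log ‖om f (tl d y)‖ * _ - _) = _
    ring
  have e00 : ∀ k : Fin d, Qf' f y (Pi.single 0 1) k.succ =
      ((Real.log ‖f (tl d y)‖ * lam f k (tl d y) * (-(3 * y 0 ^ 2 - 1) / 6) : ℝ) : ℂ) +
      Complex.I * ((BW (f (tl d y)) * (lw f k (tl d y)).re * (-(y 0)) : ℝ) : ℂ) := by
    intro k
    simp [Qf', tl_single_zero]
  have ek0 : ∀ k : Fin d, Qf' f y (Pi.single k.succ 1) 0 =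
      ((-(BW (f (tl d y)) * (lw f k (tl d y)).im +
        1 / 3 * (Real.log ‖f (tl d y)‖ * lam f k (tl d y))) : ℝ) : ℂ) := by
    intro k
    rw [← hMf]
    simp [Qf', tl_single_succ]
  have key : ∀ k : Fin d, Qf' f y (Pi.single 0 1) k.succ - Pst f y 0 * grow f y k.succ =
      Qf' f y (Pi.single k.succ 1) 0 - Pst f y k.succ * grow f y 0 := by
    intro k
    rw [e00, ek0, Pst_eq, grow_zero, grow_succ]
    have e3 : Pst f y 0 = -(Complex.I * (BW (f (tl d y)) : ℝ)) := rfl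
    rw [e3]
    apply Complex.ext
    · simp [-Complex.ofReal_mul, -Complex.ofReal_add, -Complex.ofReal_sub, -Complex.ofReal_div,
        -Complex.ofReal_neg, -Complex.ofReal_pow]
      ring
    · simp [-Complex.ofReal_mul, -Complex.ofReal_add, -Complex.ofReal_sub, -Complex.ofReal_div,
        -Complex.ofReal_neg, -Complex.ofReal_pow]
      ring
  refine Fin.cases ?_ (fun i => ?_) i <;> refine Fin.cases ?_ (fun j => ?_) j
  · rfl
  · exact key j
  · exact (key i).symm
  · have e : ∀ k l : Fin d, Qf' f y (Pi.single k.succ 1) l.succ =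
        ((-(y 0 ^ 3 - y 0) / 6 * (Real.log ‖f (tl d y)‖ *
          ((Real.log ‖f (tl d y)‖ * relw' (om f) l (tl d y) (Pi.single k 1) +
            (lw (om f) l (tl d y)).re * (lw f k (tl d y)).re) -
          (Real.log ‖om f (tl d y)‖ * relw' f l (tl d y) (Pi.single k 1) +
            (lw f l (tl d y)).re * (lw (om f) k (tl d y)).re)) +
          lam f l (tl d y) * (lw f k (tl d y)).re) : ℝ) : ℂ) +
        Complex.I * ((-(y 0 ^ 2 - 1) / 2 * (BW (f (tl d y)) * relw' f l (tl d y) (Pi.single k 1) +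
          (lw f l (tl d y)).re * (Real.log ‖f (tl d y)‖ * (lw (om f) k (tl d y)).im -
        Real.log ‖om f (tl d y)‖ * (lw f k (tl d y)).im)) : ℝ) : ℂ) := by
      intro k l
      rw [← hBW]
      simp [Qf', tl_single_succ, dlog_single, Fin.succ_ne_zero, lam']
      ring
    rw [e, e, relw'_symm hf i j, relw'_symm (contDiff_om hf) i j]
    simp only [grow_succ, Pst_eq]
    have hp := lw_prop hf i j (tl d y)
    have hre := congrArg Complex.re hp
    have him := congrArg Complex.im hp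
    simp only [Complex.mul_re, Complex.mul_im] at hre him
    apply Complex.ext
    · simp [-Complex.ofReal_mul, -Complex.ofReal_add, -Complex.ofReal_sub, -Complex.ofReal_div,
        -Complex.ofReal_neg, -Complex.ofReal_pow, lam]
      ring
    · simp [-Complex.ofReal_mul, -Complex.ofReal_add, -Complex.ofReal_sub, -Complex.ofReal_div,
        -Complex.ofReal_neg, -Complex.ofReal_pow, lam]
      linear_combination ((y 0 ^ 2 - 1) / 2 * Real.log ‖f (tl d y)‖) * him

end Qform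

end Pool.Agent.Helper90.HB
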