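import Pool.Agent.Helper90.HB.Defs
import Pool.Agent.Helper90.HB.Q
set_option autoImplicit false

/-!
The regulator on a closed cubical chain vanishes on the relations.
-/

namespace Pool.Agent.Helper90.HB

open MeasureTheory Set Pool.Agent.TH826.MK Pool.Agent.W367.KT
open Pool.Agent.N65.TK (Pt Five D Mf D_eq_BW five_zero five)

section linear

variable {k : ℕ}

/-- the determinant as a linear function of the first row -/
noncomputable def dl (G : Fin k → Fin (k + 1) → ℂ) : (Fin (k + 1) → ℂ) →ₗ[ℂ] ℂ where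
  toFun P := (Matrix.of (Fin.cons P G : Fin (k + 1) → Fin (k + 1) → ℂ)).det
  map_add' P Q := by
    have h : ∀ P : Fin (k + 1) → ℂ,
        (Matrix.of (Fin.cons P G : Fin (k + 1) → Fin (k + 1) → ℂ)).det =
        (Matrix.detRowAlternating (R := ℂ) (n := Fin (k + 1))).curryLeft P G := fun P => rfl
    rw [h, h, h, map_add]
    rfl
  map_smul' c P := by
    have h : ∀ P : Fin (k + 1) → ℂ,
        (Matrix.of (Fin.cons P G : Fin (k + 1) → Fin (k + 1) → ℂ)).det =
        (Matrix.detRowAlternating (R := ℂ) (n := Fin (k + 1))).curryLeft P G := fun P => rfl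
    rw [h, h, map_smul]
    rfl

theorem dl_apply (G : Fin k → Fin (k + 1) → ℂ) (P : Fin (k + 1) → ℂ) :
    dl G P = (Matrix.of (Fin.cons P G : Fin (k + 1) → Fin (k + 1) → ℂ)).det := rfl

theorem prow_eq (f : (Fin k → ℝ) → ℂ) (y : Fin (k + 1) → ℝ) : prow f y = Pst f y := by
  unfold prow Pst
  rw [D_eq_BW]
  rfl

end linear

section fn

variable {A : Type*} [CommRing A] {k : ℕ} (γ : Cyc A k)

/-- the function given by an element of `A` -/
def Cyc.fn (a : A) : (Fin k → ℝ) → ℂ := fun θ => γ.e θ a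

theorem Cyc.good (a : Aˣ) : Good (γ.fn (a : A)) :=
  ⟨γ.smooth a, fun θ => ((a.isUnit).map (γ.e θ)).ne_zero⟩

theorem Cyc.fn_co (f : Pt A) : γ.fn (f.co : A) = om (γ.fn (f.1 : A)) := by
  funext θ
  show γ.e θ (f.co : A) = 1 - γ.e θ f.1
  have : ((f.co : Aˣ) : A) = 1 - f.1 := rfl
  rw [this, map_sub, map_one]

theorem Cyc.om_ne (f : Pt A) (θ : Fin k → ℝ) : om (γ.fn (f.1 : A)) θ ≠ 0 := by
  rw [← γ.fn_co]
  exact (γ.good f.co).ne_zero θ

theorem Cyc.ne_one (f : Pt A) (θ : Fin k → ℝ) : γ.e θ f.1 ≠ 1 := fun h =>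
  γ.om_ne f θ (by show 1 - γ.e θ f.1 = 0; rw [h, sub_self])

theorem Cyc.fn_mul (a b : Aˣ) : γ.fn ((a * b : Aˣ) : A) = fun θ => γ.fn (a : A) θ * γ.fn (b : A) θ := by
  funext θ
  show γ.e θ _ = γ.e θ a * γ.e θ b
  rw [Units.val_mul, map_mul]

/-- the rows -/
noncomputable def Cyc.mat (f : Pt A) (g : Fin k → Aˣ) (y : Fin (k + 1) → ℝ) :
    Fin (k + 1) → Fin (k + 1) → ℂ :=
  Fin.cons (Pst (γ.fn (f.1 : A)) y) fun l => grow (γ.fn (g l : A)) y

/-- the integrand -/
noncomputable def Cyc.fr (f : Pt A) (g : Fin k → Aˣ) (y : Fin (k + 1) → ℝ) : ℝ :=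
  ((-Complex.I) ^ k * Complex.I * (Matrix.of (γ.mat f g y)).det).re

theorem Cyc.reg_br (f : Pt A) (g : Fin k → Aˣ) :
    γ.reg (br f g) = ∫ y in Icc (0 : Fin (k + 1) → ℝ) 1, γ.fr f g y := by
  unfold Cyc.reg br
  rw [Finsupp.linearCombination_single, one_smul]
  refine integral_congr_ae (Filter.Eventually.of_forall fun y => ?_)
  simp only [frm, Cyc.fr, Cyc.mat, prow_eq]
  rfl

theorem Cyc.hasFDerivAt_Pst (f : Pt A) (y : Fin (k + 1) → ℝ) :
    HasFDerivAt (Pst (γ.fn (f.1 : A))) (Pst' (γ.fn (f.1 : A)) y) y :=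
  Pool.Agent.TH826.MK.hasFDerivAt_Pst (γ.good f.1).smooth (γ.good f.1).ne_zero (γ.om_ne f) y

theorem Cyc.continuous_Pst (f : Pt A) : Continuous (Pst (γ.fn (f.1 : A))) :=
  continuous_iff_continuousAt.2 fun y => (γ.hasFDerivAt_Pst f y).continuousAt

theorem Cyc.continuous_mat (f : Pt A) (g : Fin k → Aˣ) : Continuous (γ.mat f g) := by
  refine continuous_pi fun l => ?_
  refine Fin.cases ?_ (fun l => ?_) l
  · exact γ.continuous_Pst f
  · exact continuous_grow (γ.good (g l))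

theorem Cyc.continuous_fr (f : Pt A) (g : Fin k → Aˣ) : Continuous (γ.fr f g) := by
  unfold Cyc.fr
  refine Complex.continuous_re.comp (continuous_const.mul ?_)
  exact Continuous.matrix_det (γ.continuous_mat f g)

theorem Cyc.int_fr (f : Pt A) (g : Fin k → Aˣ) :
    IntegrableOn (γ.fr f g) (Icc (0 : Fin (k + 1) → ℝ) 1) :=
  (γ.continuous_fr f g).continuousOn.integrableOn_compact isCompact_Icc

theorem Cyc.mat_update (f : Pt A) (g : Fin k → Aˣ) (i : Fin k) (z : Aˣ) (y : Fin (k + 1) → ℝ) :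
    γ.mat f (Function.update g i z) y =
      (Matrix.of (γ.mat f g y)).updateRow i.succ (grow (γ.fn (z : A)) y) := by
  funext l
  refine Fin.cases ?_ (fun l => ?_) l
  · rw [Matrix.updateRow_ne (Fin.succ_ne_zero i).symm]
    rfl
  · by_cases h : l = i
    · subst h
      rw [Matrix.updateRow_self]
      simp [Cyc.mat]
    · rw [Matrix.updateRow_ne (fun e => h (Fin.succ_injective _ e))]
      simp only [Cyc.mat, Fin.cons_succ, Function.update_of_ne h]
      rfl

/-- multilinearity -/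
theorem Cyc.fr_mul (f : Pt A) (g : Fin k → Aˣ) (i : Fin k) (a b : Aˣ) (y : Fin (k + 1) → ℝ) :
    γ.fr f (Function.update g i (a * b)) y = γ.fr f (Function.update g i a) y +
      γ.fr f (Function.update g i b) y := by
  unfold Cyc.fr
  rw [γ.mat_update, γ.mat_update, γ.mat_update, γ.fn_mul, grow_mul (γ.good a) (γ.good b)]
  have h : ∀ M : Matrix (Fin (k + 1)) (Fin (k + 1)) ℂ, Matrix.of M = M := fun M => rfl
  rw [h (Matrix.updateRow _ _ _), h (Matrix.updateRow _ _ _), h (Matrix.updateRow _ _ _),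
    Matrix.det_updateRow_add, mul_add, Complex.add_re]

/-- alternation -/
theorem Cyc.fr_eq (f : Pt A) (g : Fin k → Aˣ) {i j : Fin k} (hij : i ≠ j) (h : g i = g j)
    (y : Fin (k + 1) → ℝ) : γ.fr f g y = 0 := by
  unfold Cyc.fr
  have : (Matrix.of (γ.mat f g y)).det = 0 := by
    refine Matrix.det_zero_of_row_eq (i := i.succ) (j := j.succ)
      (fun e => hij (Fin.succ_injective _ e)) ?_
    show γ.mat f g y i.succ = γ.mat f g y j.succ
    simp only [Cyc.mat, Fin.cons_succ, h]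
  rw [this, mul_zero, Complex.zero_re]

theorem Cyc.fr_dl (f : Pt A) (g : Fin k → Aˣ) (y : Fin (k + 1) → ℝ) :
    γ.fr f g y = ((-Complex.I) ^ k * Complex.I *
      dl (fun l => grow (γ.fn (g l : A)) y) (Pst (γ.fn (f.1 : A)) y)).re := rfl

end fn

section five

variable {A : Type*} [CommRing A] {k : ℕ} (γ : Cyc A k)

/-- the logarithm of the absolute value -/
noncomputable def Cyc.ln (f : Aˣ) (θ : Fin k → ℝ) : ℝ := Real.log ‖γ.fn (f : A) θ‖

theorem Cyc.ln_mul (f g : Aˣ) (θ : Fin k → ℝ) : γ.ln (f * g) θ = γ.ln f θ + γ.ln g θ := by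
  unfold Cyc.ln
  rw [γ.fn_mul, norm_mul, Real.log_mul (norm_ne_zero_iff.2 ((γ.good f).ne_zero θ))
    (norm_ne_zero_iff.2 ((γ.good g).ne_zero θ))]

/-- the real part of the logarithmic derivative -/
noncomputable def Cyc.lr (f : Aˣ) (j : Fin k) (θ : Fin k → ℝ) : ℝ := (lw (γ.fn (f : A)) j θ).re

theorem Cyc.lr_mul (f g : Aˣ) (j : Fin k) (θ : Fin k → ℝ) :
    γ.lr (f * g) j θ = γ.lr f j θ + γ.lr g j θ := by
  unfold Cyc.lr
  rw [γ.fn_mul, lw_mul (γ.good f) (γ.good g), Complex.add_re]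

theorem Cyc.lam_eq (f : Pt A) (j : Fin k) (θ : Fin k → ℝ) : lam (γ.fn (f.1 : A)) j θ =
    γ.ln f.1 θ * γ.lr f.co j θ - γ.ln f.co θ * γ.lr f.1 j θ := by
  unfold lam Cyc.ln Cyc.lr
  rw [γ.fn_co]

theorem Cyc.five_rel {x y a b c : Pt A} (h : Five x y a b c) (θ : Fin k → ℝ) :
    BW (γ.fn (x.1 : A) θ) - BW (γ.fn (y.1 : A) θ) + BW (γ.fn (a.1 : A) θ) -
      BW (γ.fn (b.1 : A) θ) + BW (γ.fn (c.1 : A) θ) = 0 ∧
    ∀ j, lam (γ.fn (x.1 : A)) j θ - lam (γ.fn (y.1 : A)) j θ + lam (γ.fn (a.1 : A)) j θ -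
      lam (γ.fn (b.1 : A)) j θ + lam (γ.fn (c.1 : A)) j θ = 0 := by
  obtain ⟨ha, hb, hc⟩ := h
  -- the relations between units
  have ra : a.1 * x.1 = y.1 := Units.ext (by rw [Units.val_mul]; exact ha)
  have rb : b.1 * (x.1 * y.co) = x.co * y.1 := by
    ext1
    simp only [Units.val_mul]
    show (b.1 : A) * (x.1 * (1 - y.1)) = (1 - x.1) * y.1
    linear_combination -hb
  have rc : c.1 * y.co = x.co := by
    ext1
    simp only [Units.val_mul]
    show (c.1 : A) * (1 - y.1) = 1 - x.1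
    exact hc
  set n : Aˣ := a.co * x.1 with hn
  have rb' : b.co * (x.1 * y.co) = n := by
    rw [hn]
    ext1
    simp only [Units.val_mul]
    show (1 - (b.1 : A)) * (x.1 * (1 - y.1)) = (1 - a.1) * x.1
    linear_combination hb + ha
  have rc' : c.co * y.co = n := by
    rw [hn]
    ext1
    simp only [Units.val_mul]
    show (1 - (c.1 : A)) * (1 - y.1) = (1 - a.1) * x.1
    linear_combination -hc + ha
  have nz : ∀ u : Aˣ, γ.e θ (u : A) ≠ 0 := fun u => (γ.good u).ne_zero θ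
  have va : γ.e θ a.1 = γ.e θ y.1 / γ.e θ x.1 := by
    rw [eq_div_iff (nz _), ← map_mul, ha]
  have hy1 : γ.e θ y.1 - 1 ≠ 0 := sub_ne_zero.2 (γ.ne_one y θ)
  have hx1 : γ.e θ x.1 - 1 ≠ 0 := sub_ne_zero.2 (γ.ne_one x θ)
  have hy2 : 1 - γ.e θ y.1 ≠ 0 := sub_ne_zero.2 (Ne.symm (γ.ne_one y θ))
  have vb : γ.e θ b.1 = (γ.e θ x.1 - 1) * γ.e θ y.1 / (γ.e θ x.1 * (γ.e θ y.1 - 1)) := by
    rw [eq_div_iff (mul_ne_zero (nz _) hy1)]
    have := congrArg (γ.e θ) hb
    simpa only [map_mul, map_sub, map_one] using this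
  have vc : γ.e θ c.1 = (1 - γ.e θ x.1) / (1 - γ.e θ y.1) := by
    rw [eq_div_iff hy2]
    have := congrArg (γ.e θ) hc
    simpa only [map_mul, map_sub, map_one] using this
  have hxy : γ.e θ x.1 ≠ γ.e θ y.1 := by
    intro h
    apply γ.ne_one a θ
    rw [va, h, div_self (nz _)]
  have hfive := five_zero (nz x.1) (γ.ne_one x θ) (nz y.1) (γ.ne_one y θ) hxy
  unfold five at hfive
  rw [← va, ← vb, ← vc] at hfive
  simp only [D_eq_BW] at hfive
  refine ⟨hfive, fun j => ?_⟩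
  simp only [γ.lam_eq]
  have la' : γ.ln a.1 θ = γ.ln y.1 θ - γ.ln x.1 θ := by
    rw [← ra, γ.ln_mul]; ring
  have la : γ.lr a.1 j θ = γ.lr y.1 j θ - γ.lr x.1 j θ := by
    rw [← ra, γ.lr_mul]; ring
  have ka' : γ.ln a.co θ = γ.ln n θ - γ.ln x.1 θ := by
    rw [hn, γ.ln_mul]; ring
  have ka : γ.lr a.co j θ = γ.lr n j θ - γ.lr x.1 j θ := by
    rw [hn, γ.lr_mul]; ring
  have lb' : γ.ln b.1 θ = γ.ln x.co θ + γ.ln y.1 θ - γ.ln x.1 θ - γ.ln y.co θ := by
    have h := congrArg (fun u => γ.ln u θ) rb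
    simp only [γ.ln_mul] at h
    linear_combination h
  have lb : γ.lr b.1 j θ = γ.lr x.co j θ + γ.lr y.1 j θ - γ.lr x.1 j θ - γ.lr y.co j θ := by
    have h := congrArg (fun u => γ.lr u j θ) rb
    simp only [γ.lr_mul] at h
    linear_combination h
  have kb' : γ.ln b.co θ = γ.ln n θ - γ.ln x.1 θ - γ.ln y.co θ := by
    have h := congrArg (fun u => γ.ln u θ) rb'
    simp only [γ.ln_mul] at h
    linear_combination h
  have kb : γ.lr b.co j θ = γ.lr n j θ - γ.lr x.1 j θ - γ.lr y.co j θ := by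
    have h := congrArg (fun u => γ.lr u j θ) rb'
    simp only [γ.lr_mul] at h
    linear_combination h
  have lc' : γ.ln c.1 θ = γ.ln x.co θ - γ.ln y.co θ := by
    have h := congrArg (fun u => γ.ln u θ) rc
    simp only [γ.ln_mul] at h
    linear_combination h
  have lc : γ.lr c.1 j θ = γ.lr x.co j θ - γ.lr y.co j θ := by
    have h := congrArg (fun u => γ.lr u j θ) rc
    simp only [γ.lr_mul] at h
    linear_combination h
  have kc' : γ.ln c.co θ = γ.ln n θ - γ.ln y.co θ := by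
    have h := congrArg (fun u => γ.ln u θ) rc'
    simp only [γ.ln_mul] at h
    linear_combination h
  have kc : γ.lr c.co j θ = γ.lr n j θ - γ.lr y.co j θ := by
    have h := congrArg (fun u => γ.lr u j θ) rc'
    simp only [γ.lr_mul] at h
    linear_combination h
  rw [la, la', ka, ka', lb, lb', kb, kb', lc, lc', kc, kc']
  ring

theorem Cyc.fr_five {x y a b c : Pt A} (h : Five x y a b c) (g : Fin k → Aˣ)
    (Y : Fin (k + 1) → ℝ) :
    γ.fr x g Y - γ.fr y g Y + γ.fr a g Y - γ.fr b g Y + γ.fr c g Y = 0 := by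
  simp only [γ.fr_dl]
  rw [← Complex.sub_re, ← Complex.add_re, ← Complex.sub_re, ← Complex.add_re, ← mul_sub,
    ← mul_add, ← mul_sub, ← mul_add, ← map_sub, ← map_add, ← map_sub, ← map_add]
  have e : Pst (γ.fn (x.1 : A)) Y - Pst (γ.fn (y.1 : A)) Y + Pst (γ.fn (a.1 : A)) Y -
      Pst (γ.fn (b.1 : A)) Y + Pst (γ.fn (c.1 : A)) Y = 0 := by
    obtain ⟨h1, h2⟩ := γ.five_rel h (tl k Y)
    funext j
    refine Fin.cases ?_ (fun j => ?_) j
    · have e0 : ∀ u : Pt A, Pst (γ.fn (u.1 : A)) Y 0 =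
          -(Complex.I * (BW (γ.fn (u.1 : A) (tl k Y)) : ℝ)) := fun u => rfl
      simp only [Pi.add_apply, Pi.sub_apply, e0, Pi.zero_apply]
      have h3 := congrArg (fun t : ℝ => (t : ℂ)) h1
      push_cast at h3
      linear_combination (-Complex.I) * h3
    · simp only [Pi.add_apply, Pi.sub_apply, Pst_eq, Pi.zero_apply]
      have h3 := congrArg (fun t : ℝ => (t : ℂ)) (h2 j)
      push_cast at h3
      push_cast
      linear_combination (((Y 0 : ℂ) ^ 2 - 1) / 2) * h3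
  rw [e, map_zero, mul_zero, Complex.zero_re]

end five

end Pool.Agent.Helper90.HB
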