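import Pool.Agent.Helper90.HB.Alg
import Pool.Agent.N65.TK.Res
set_option autoImplicit false

/-!
The residues of `alpha` vanish.
-/

namespace Pool.Agent.Helper90.HB

open scoped WithZero
open Pool.Agent.N65.TK (Pt Five UQ tu D Kap red Red one_lt_val_pair val_pair_eq_one val_torsion)

section top

theorem top_eq {d : ℕ} {N : Type*} [AddCommGroup N] (G : (Fin d → ℤ) [⋀^Fin d]→ₗ[ℤ] N)
    (b : Fin d → Fin d → ℤ) : G b = (Matrix.of b).det • G (fun i => Pi.single i 1) := by
  have h : G = (LinearMap.toSpanSingleton ℤ N (G fun i => Pi.single i 1)).compAlternatingMap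
      (Matrix.detRowAlternating (R := ℤ) (n := Fin d)) := by
    refine Module.Basis.ext_alternating (Pi.basisFun ℤ (Fin d)) fun w hw => ?_
    let σ : Equiv.Perm (Fin d) := Equiv.ofBijective w (Finite.injective_iff_bijective.1 hw)
    have h1 : (fun i => Pi.basisFun ℤ (Fin d) (w i)) =
        (fun i => (Pi.single i 1 : Fin d → ℤ)) ∘ σ := by
      funext i
      simp [σ]
    rw [h1, AlternatingMap.map_perm, AlternatingMap.map_perm]
    congr 1
    have h2 : Matrix.detRowAlternating (R := ℤ) (n := Fin d)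
        (fun i => (Pi.single i 1 : Fin d → ℤ)) = 1 := by
      have : (fun i => (Pi.single i 1 : Fin d → ℤ)) = (1 : Matrix (Fin d) (Fin d) ℤ) := by
        funext i j
        rw [Matrix.one_apply, Pi.single_apply]
        simp [eq_comm]
      show Matrix.det (fun i => (Pi.single i 1 : Fin d → ℤ)) = 1
      rw [this, Matrix.det_one]
    rw [LinearMap.compAlternatingMap_apply, h2, LinearMap.toSpanSingleton_apply, one_smul]
  conv_lhs => rw [h]
  rfl

theorem exists_extend {d : ℕ} {p q : Fin d → ℤ} (h : ∀ a b : ℤ, a • p = b • q → a = 0 ∧ b = 0) :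
    ∀ m : ℕ, m + 2 ≤ d → ∃ b : Fin (m + 2) → Fin d → ℤ, LinearIndependent ℤ b ∧
      ∃ s t, s ≠ t ∧ b s = p ∧ b t = q := by
  intro m
  induction m with
  | zero =>
    intro _
    refine ⟨![p, q], ?_, 0, 1, by decide, rfl, rfl⟩
    rw [LinearIndependent.pair_iff]
    intro s t hst
    have := h s (-t) (by rw [neg_smul]; exact eq_neg_of_add_eq_zero_left hst)
    exact ⟨this.1, by simpa using this.2⟩
  | succ m ih =>
    intro hm
    obtain ⟨b, hb, s, t, hst, hs, ht⟩ := ih (by omega)
    obtain ⟨x, hx⟩ := exists_linearIndependent_cons_of_lt_finrank hb (by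
      rw [Module.finrank_fin_fun]
      omega)
    exact ⟨Fin.cons x b, hx, s.succ, t.succ, fun e => hst (Fin.succ_injective _ e), by simpa using hs,
      by simpa using ht⟩

/-- the linear form `w ↦ ∑ a_t w_t` -/
def dot {d : ℕ} (a : Fin d → ℤ) : (Fin d → ℤ) →ₗ[ℤ] ℤ where
  toFun w := ∑ t, a t * w t
  map_add' w w' := by simp [mul_add, Finset.sum_add_distrib]
  map_smul' c w := by simp [Finset.mul_sum, mul_left_comm]

theorem dot_single {d : ℕ} (a : Fin d → ℤ) (t : Fin d) : dot a (Pi.single t 1) = a t := by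
  show ∑ s, a s * (Pi.single t 1 : Fin d → ℤ) s = a t
  simp [Pi.single_apply]

/-- the double contraction -/
theorem contraction_zero {k : ℕ} {N : Type*} [AddCommGroup N] [Module ℚ N]
    (M : (Fin (k + 2) → ℤ) [⋀^Fin k]→ₗ[ℤ] N) (a V p q : Fin (k + 2) → ℤ)
    (hpq : ∀ a b : ℤ, a • p = b • q → a = 0 ∧ b = 0)
    (hp : ∑ t, a t * p t = 0) (hq : ∑ t, a t * q t = 0)
    (hMp : ∀ w i, w i = p → M w = 0) (hMq : ∀ w i, w i = q → M w = 0) :
    ∑ s : Fin (k + 2), ((-1 : ℚ) ^ (s : ℕ) * (V s : ℚ)) • ∑ i : Fin (k + 1),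
      ((-1 : ℚ) ^ (i : ℕ) * (a (s.succAbove i) : ℚ)) •
        M (fun l => Pi.single (s.succAbove (i.succAbove l)) 1) = 0 := by
  set G : (Fin (k + 2) → ℤ) [⋀^Fin (k + 2)]→ₗ[ℤ] N := AlternatingMap.alternatizeUncurryFin
    ((dot V).smulRight (AlternatingMap.alternatizeUncurryFin ((dot a).smulRight M))) with hG
  have hGa : ∀ b : Fin (k + 2) → Fin (k + 2) → ℤ, G b = ∑ s : Fin (k + 2),
      (-1 : ℤ) ^ (s : ℕ) • (dot V (b s) • ∑ i : Fin (k + 1), (-1 : ℤ) ^ (i : ℕ) •
        (dot a (b (s.succAbove i)) • M fun l => b (s.succAbove (i.succAbove l)))) := by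
    intro b
    rw [hG, AlternatingMap.alternatizeUncurryFin_apply]
    refine Finset.sum_congr rfl fun s _ => ?_
    congr 1
    show dot V (b s) • (AlternatingMap.alternatizeUncurryFin ((dot a).smulRight M))
      (s.removeNth b) = _
    rw [AlternatingMap.alternatizeUncurryFin_apply]
    rfl
  obtain ⟨b, hb, s0, t0, hst, hs0, ht0⟩ := exists_extend hpq k le_rfl
  have hGb : G b = 0 := by
    rw [hGa]
    refine Finset.sum_eq_zero fun s _ => ?_
    have : ∑ i : Fin (k + 1), (-1 : ℤ) ^ (i : ℕ) •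
        (dot a (b (s.succAbove i)) • M fun l => b (s.succAbove (i.succAbove l))) = 0 := by
      refine Finset.sum_eq_zero fun i _ => ?_
      by_cases h1 : s.succAbove i = s0
      · have : dot a (b (s.succAbove i)) = 0 := by
          rw [h1, hs0]
          exact hp
        rw [this, zero_smul, smul_zero]
      by_cases h2 : s.succAbove i = t0
      · have : dot a (b (s.succAbove i)) = 0 := by
          rw [h2, ht0]
          exact hq
        rw [this, zero_smul, smul_zero]
      have h3 : M (fun l => b (s.succAbove (i.succAbove l))) = 0 := by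
        by_cases h4 : s0 = s
        · have h5 : t0 ≠ s := by
            rw [← h4]
            exact hst.symm
          obtain ⟨i0, hi0⟩ := Fin.exists_succAbove_eq h5
          have h6 : i0 ≠ i := by
            rintro rfl
            exact h2 hi0
          obtain ⟨l0, hl0⟩ := Fin.exists_succAbove_eq h6
          exact hMq _ l0 (by rw [hl0, hi0, ht0])
        · obtain ⟨i0, hi0⟩ := Fin.exists_succAbove_eq h4
          have h6 : i0 ≠ i := by
            rintro rfl
            exact h1 hi0
          obtain ⟨l0, hl0⟩ := Fin.exists_succAbove_eq h6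
          exact hMp _ l0 (by rw [hl0, hi0, hs0])
      rw [h3, smul_zero, smul_zero]
    rw [this, smul_zero, smul_zero]
  have hdet : (Matrix.of b).det ≠ 0 := by
    intro h0
    obtain ⟨c, hc, hc0⟩ := Matrix.exists_vecMul_eq_zero_iff.2 h0
    apply hc
    rw [Fintype.linearIndependent_iff] at hb
    funext i
    refine hb c ?_ i
    funext t
    have := congrFun hc0 t
    rw [Matrix.vecMul_eq_sum] at this
    simpa using this
  have hGe : G (fun i => Pi.single i 1) = 0 := by
    have h1 := top_eq G b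
    rw [hGb, ← Int.cast_smul_eq_zsmul ℚ] at h1
    exact (smul_eq_zero.1 h1.symm).resolve_left (by exact_mod_cast hdet)
  rw [hGa] at hGe
  rw [← hGe]
  refine Finset.sum_congr rfl fun s _ => ?_
  rw [dot_single, smul_smul, ← Int.cast_smul_eq_zsmul ℚ]
  push_cast
  congr 1
  refine Finset.sum_congr rfl fun i _ => ?_
  rw [dot_single, smul_smul, ← Int.cast_smul_eq_zsmul ℚ]
  push_cast
  rfl

end top

section cls

variable {A : Type*} [CommRing A] {k : ℕ}

theorem cl_update_mul (f : Pt A) (g : Fin k → Aˣ) (i : Fin k) (a b : Aˣ) :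
    cl f (Function.update g i (a * b)) = cl f (Function.update g i a) +
      cl f (Function.update g i b) := by
  have h : br f (Function.update g i (a * b)) - br f (Function.update g i a) -
      br f (Function.update g i b) ∈ Rels A k :=
    Submodule.subset_span (Or.inl (Or.inl (Or.inl ⟨f, g, i, a, b, rfl⟩)))
  have h2 : (Rels A k).mkQ (br f (Function.update g i (a * b)) - br f (Function.update g i a) -
      br f (Function.update g i b)) = 0 := by
    rw [Submodule.mkQ_apply, Submodule.Quotient.mk_eq_zero]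
    exact h
  rw [map_sub, map_sub, sub_sub, sub_eq_zero] at h2
  exact h2

theorem cl_update_zpow (f : Pt A) (g : Fin k → Aˣ) (i : Fin k) (a : Aˣ) (n : ℤ) :
    cl f (Function.update g i (a ^ n)) = (n : ℚ) • cl f (Function.update g i a) := by
  let φ : Additive Aˣ →+ Coh A k := AddMonoidHom.mk'
    (fun z => cl f (Function.update g i z.toMul))
    (fun z w => by rw [toMul_add, cl_update_mul])
  have h := map_zsmul φ n (Additive.ofMul a)
  rw [Int.cast_smul_eq_zsmul]
  exact h

theorem cl_eq_zero (f : Pt A) (g : Fin k → Aˣ) {i j : Fin k} (hij : i ≠ j) (h : g i = g j) :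
    cl f g = 0 :=
  (Submodule.Quotient.mk_eq_zero (Rels A k)).2
    (Submodule.subset_span (Or.inl (Or.inl (Or.inr ⟨f, g, i, j, hij, h, rfl⟩))))

theorem cl_self (f : Pt A) (g : Fin k → Aˣ) {i : Fin k} (h : g i = f.1) : cl f g = 0 :=
  (Submodule.Quotient.mk_eq_zero (Rels A k)).2
    (Submodule.subset_span (Or.inr ⟨f, g, i, h, rfl⟩))

theorem cl_torsion (f : Pt A) (g : Fin k → Aˣ) (i : Fin k) {a : Aˣ} {N : ℕ} (hN : 0 < N)
    (h : a ^ N = 1) : cl f (Function.update g i a) = 0 := by
  have h1 := cl_update_zpow f g i a N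
  rw [zpow_natCast, h] at h1
  have h2 := cl_update_zpow f g i (1 : Aˣ) 0
  rw [zpow_zero, Int.cast_zero, zero_smul] at h2
  rw [h2] at h1
  have h3 : ((N : ℤ) : ℚ) ≠ 0 := by exact_mod_cast hN.ne'
  exact (smul_eq_zero.1 h1.symm).resolve_left h3

/-- `u^w` -/
def pw {d : ℕ} (u : Fin d → Aˣ) (w : Fin d → ℤ) : Aˣ := ∏ t, u t ^ w t

theorem pw_add {d : ℕ} (u : Fin d → Aˣ) (w w' : Fin d → ℤ) : pw u (w + w') = pw u w * pw u w' := by
  unfold pw
  rw [← Finset.prod_mul_distrib]
  exact Finset.prod_congr rfl fun t _ => zpow_add _ _ _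

theorem pw_smul {d : ℕ} (u : Fin d → Aˣ) (n : ℤ) (w : Fin d → ℤ) : pw u (n • w) = pw u w ^ n := by
  unfold pw
  rw [← Finset.prod_zpow]
  refine Finset.prod_congr rfl fun t _ => ?_
  rw [Pi.smul_apply, smul_eq_mul, mul_comm, zpow_mul]

theorem pw_single {d : ℕ} (u : Fin d → Aˣ) (t : Fin d) : pw u (Pi.single t 1) = u t := by
  unfold pw
  rw [Finset.prod_eq_single t]
  · simp
  · intro s _ hs
    rw [Pi.single_eq_of_ne hs, zpow_zero]
  · simp

theorem pw_update {d : ℕ} (u : Fin d → Aˣ) (w : Fin k → Fin d → ℤ) (i : Fin k) (x : Fin d → ℤ) :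
    (fun l => pw u (Function.update w i x l)) = Function.update (fun l => pw u (w l)) i (pw u x) := by
  funext l
  by_cases h : l = i
  · subst h; simp
  · simp [Function.update_of_ne h]

/-- the alternating map `w ↦ {f}_2 ⊗ u^(w_1) ∧ ... ∧ u^(w_k)` -/
noncomputable def altM {d : ℕ} (f : Pt A) (u : Fin d → Aˣ) :
    (Fin d → ℤ) [⋀^Fin k]→ₗ[ℤ] Coh A k where
  toFun w := cl f fun l => pw u (w l)
  map_update_add' := by
    intro inst w i x y
    obtain rfl : inst = instDecidableEqFin k := Subsingleton.elim _ _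
    rw [pw_update, pw_update, pw_update, pw_add, cl_update_mul]
  map_update_smul' := by
    intro inst w i c x
    obtain rfl : inst = instDecidableEqFin k := Subsingleton.elim _ _
    rw [pw_update, pw_update, pw_smul, cl_update_zpow, Int.cast_smul_eq_zsmul]
  map_eq_zero_of_eq' w i j h hij := cl_eq_zero f _ hij (by rw [h])

theorem altM_apply {d : ℕ} (f : Pt A) (u : Fin d → Aˣ) (w : Fin k → Fin d → ℤ) :
    altM f u w = cl f fun l => pw u (w l) := rfl

end cls

section red

theorem prod_zpow_sum {G ι : Type*} [CommGroup G] (T : Finset ι) (x : G) (n : ι → ℤ) :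
    ∏ t ∈ T, x ^ n t = x ^ (∑ t ∈ T, n t) := by
  classical
  induction T using Finset.induction_on with
  | empty => simp
  | insert i t hi ih => rw [Finset.prod_insert hi, Finset.sum_insert hi, ih, zpow_add]

variable {L : Type*} [Field L] (v : Valuation L ℤᵐ⁰)

theorem red_one : red v 1 = 1 := by
  unfold red
  rw [map_one]
  rfl

theorem red_mul (x y : v.valuationSubring) : red v (x * y) = red v x * red v y := by
  unfold red
  rw [map_mul]
  rfl

theorem red_sub (x y : v.valuationSubring) : red v (x - y) = red v x - red v y := by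
  unfold red
  rw [map_sub]
  rfl

theorem val_of_red_ne {y : v.valuationSubring} (hy : red v y ≠ 0) : v (y : L) = 1 := by
  have hy' : IsLocalRing.residue v.valuationSubring y ≠ 0 := hy
  rw [IsLocalRing.residue_ne_zero_iff_isUnit] at hy'
  obtain ⟨w, hw⟩ := hy'
  have h1 : v ((w : v.valuationSubring) : L) ≤ 1 :=
    (v.mem_valuationSubring_iff _).1 (w : v.valuationSubring).2
  have h2 : v (((w⁻¹ : (v.valuationSubring)ˣ) : v.valuationSubring) : L) ≤ 1 :=
    (v.mem_valuationSubring_iff _).1 ((w⁻¹ : (v.valuationSubring)ˣ) : v.valuationSubring).2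
  have h3 : v ((w : v.valuationSubring) : L) *
      v (((w⁻¹ : (v.valuationSubring)ˣ) : v.valuationSubring) : L) = 1 := by
    rw [← map_mul, ← v.map_one]
    congr 1
    have := congrArg (Subtype.val) (w.mul_inv)
    exact this
  rw [← hw]
  refine le_antisymm h1 ?_
  rw [← h3]
  exact mul_le_of_le_one_right' h2

theorem val_of_Red {f : Pt L} {u : Pt (Kap v)} (h : Red v f u) :
    v (f.1 : L) = 1 ∧ v (1 - (f.1 : L)) = 1 := by
  obtain ⟨x, hx, hu⟩ := h
  have hux : red v x ≠ 0 := by
    rw [hu]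
    exact u.1.ne_zero
  have hux1 : red v (1 - x) ≠ 0 := by
    rw [red_sub, red_one, hu]
    exact u.2.ne_zero
  refine ⟨by rw [← hx]; exact val_of_red_ne v hux, ?_⟩
  have := val_of_red_ne v hux1
  rw [← hx]
  exact this

/-- an element of valuation `1` as an element of the valuation ring -/
def vs {g : Lˣ} (h : v (g : L) = 1) : v.valuationSubring :=
  ⟨(g : L), (v.mem_valuationSubring_iff _).2 h.le⟩

theorem red_vs_ne {g : Lˣ} (h : v (g : L) = 1) : red v (vs v h) ≠ 0 := by
  show IsLocalRing.residue v.valuationSubring (vs v h) ≠ 0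
  rw [IsLocalRing.residue_ne_zero_iff_isUnit]
  have hi : v ((g⁻¹ : Lˣ) : L) = 1 := by
    rw [Units.val_inv_eq_inv_val, map_inv₀, h, inv_one]
  refine IsUnit.of_mul_eq_one (vs v hi) ?_
  refine Subtype.ext ?_
  show (g : L) * ((g⁻¹ : Lˣ) : L) = 1
  exact g.mul_inv

theorem redU_spec {g : Lˣ} (h : v (g : L) = 1) : (redU v g : Kap v) = red v (vs v h) := by
  unfold redU
  have hex : ∃ u : (Kap v)ˣ, ∃ x : v.valuationSubring, (x : L) = (g : L) ∧
      red v x = (u : Kap v) := ⟨Units.mk0 _ (red_vs_ne v h), vs v h, rfl, rfl⟩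
  rw [dif_pos hex]
  obtain ⟨x, hx, hx'⟩ := hex.choose_spec
  rw [← hx']
  congr 1
  exact Subtype.ext hx

theorem redU_mul {g h : Lˣ} (hg : v (g : L) = 1) (hh : v (h : L) = 1) :
    redU v (g * h) = redU v g * redU v h := by
  have hgh : v ((g * h : Lˣ) : L) = 1 := by
    rw [Units.val_mul, map_mul, hg, hh, one_mul]
  ext1
  rw [Units.val_mul, redU_spec v hg, redU_spec v hh, redU_spec v hgh, ← red_mul]
  rfl

theorem redU_one : redU v (1 : Lˣ) = 1 := by
  have h : v ((1 : Lˣ) : L) = 1 := by rw [Units.val_one, map_one]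
  ext1
  rw [redU_spec v h, Units.val_one, ← red_one]
  rfl

/-- the elements of valuation `1` -/
def V1 : Subgroup Lˣ where
  carrier := {g | v (g : L) = 1}
  mul_mem' := by
    intro g h hg hh
    have hg' : v (g : L) = 1 := hg
    have hh' : v (h : L) = 1 := hh
    show v ((g * h : Lˣ) : L) = 1
    rw [Units.val_mul, map_mul, hg', hh', one_mul]
  one_mem' := by
    show v ((1 : Lˣ) : L) = 1
    rw [Units.val_one, map_one]
  inv_mem' := by
    intro g hg
    have hg' : v (g : L) = 1 := hg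
    show v ((g⁻¹ : Lˣ) : L) = 1
    rw [Units.val_inv_eq_inv_val, map_inv₀, hg', inv_one]

/-- the reduction as a homomorphism -/
noncomputable def rh : V1 v →* (Kap v)ˣ where
  toFun g := redU v g
  map_one' := redU_one v
  map_mul' g h := redU_mul v g.2 h.2

theorem redU_torsion {g : Lˣ} (hg : v (g : L) = 1) {N : ℕ} (h : g ^ N = 1) :
    redU v g ^ N = 1 := by
  have h1 := map_pow (rh v) (⟨g, hg⟩ : V1 v) N
  have h2 : (⟨g, hg⟩ : V1 v) ^ N = 1 := Subtype.ext h
  rw [h2, map_one] at h1
  exact h1.symm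

theorem redU_prod {ι : Type*} (T : Finset ι) (g : ι → Lˣ) (hg : ∀ t, v (g t : L) = 1)
    (n : ι → ℤ) : redU v (∏ t ∈ T, g t ^ n t) = ∏ t ∈ T, redU v (g t) ^ n t := by
  have h1 := map_prod (rh v) (fun t => (⟨g t, hg t⟩ : V1 v) ^ n t) T
  have h2 : ((∏ t ∈ T, (⟨g t, hg t⟩ : V1 v) ^ n t : V1 v) : Lˣ) = ∏ t ∈ T, g t ^ n t := by
    rw [← Subgroup.coe_subtype, map_prod]
    refine Finset.prod_congr rfl fun t _ => ?_
    rw [map_zpow]
    rfl
  have h3 : redU v (∏ t ∈ T, g t ^ n t) = rh v (∏ t ∈ T, (⟨g t, hg t⟩ : V1 v) ^ n t) := by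
    show _ = redU v _
    rw [h2]
  rw [h3, h1]
  refine Finset.prod_congr rfl fun t _ => ?_
  rw [map_zpow]
  rfl

end red

section hyp

variable {K : Type*} [Field K] {k r : ℕ} {C : Dat K (k + 1) r}

theorem two_le (hC : C.Admissible) : 2 ≤ r := by
  have := le_of_span hC
  omega

theorem bnd_alpha (hC : C.Admissible) {L : Type*} [Field L] (φ : C.Ring →+* L)
    (v : Valuation L ℤᵐ⁰) (π : Lˣ) (hπ : v (π : L) = WithZero.exp (-1 : ℤ)) :
    bnd v π k (FS.map φ (Dat.alpha hC)) = 0 := by
  set X : Fin (k + 2) → Lˣ := fun s => Units.map (φ : C.Ring →* L) (C.x s) with hX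
  set a : Fin (k + 2) → ℤ := fun s => ord v (X s) with ha
  have hvX : ∀ s, v (X s : L) = WithZero.exp (-a s) := by
    intro s
    rw [ha]
    simp only [ord, neg_neg]
    exact (WithZero.exp_log ((Valuation.ne_zero_iff v).2 (X s).ne_zero)).symm
  -- the angular components
  set U : Fin (k + 2) → Lˣ := fun s => X s * π ^ (-a s) with hU
  have hvU : ∀ s, v (U s : L) = 1 := by
    intro s
    rw [hU]
    simp only [Units.val_mul, Units.val_zpow_eq_zpow_val, map_mul, map_zpow₀, hπ, hvX]
    rw [← WithZero.exp_zsmul, ← WithZero.exp_add, ← WithZero.exp_zero]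
    congr 1
    rw [smul_eq_mul]
    ring
  set u : Fin (k + 2) → (Kap v)ˣ := fun s => ang v π (X s) with hu
  have huU : ∀ s, u s = redU v (U s) := fun s => rfl
  have hmn : ∀ (e : Kˣ) (w : Fin (k + 2) → ℤ), (∃ N : ℕ, 0 < N ∧ e ^ N = 1) →
      v ((Units.map (φ : C.Ring →* L) (C.mn e w) : Lˣ) : L) =
        WithZero.exp (-∑ s, a s * w s) := by
    rintro e w ⟨N, hN, hN'⟩
    have h0 : v ((Units.map (φ : C.Ring →* L) (C.mn e 0) : Lˣ) : L) = 1 := by
      refine val_torsion v hN ?_
      rw [← Units.val_pow_eq_pow_val, ← map_pow, mn_torsion hN', map_one, Units.val_one]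
    rw [mn_eq, map_mul, Units.val_mul, map_mul, h0, one_mul, map_prod, Units.coe_prod, map_prod]
    have h1 : ∀ s, v ((Units.map (φ : C.Ring →* L) (C.x s ^ w s) : Lˣ) : L) =
        WithZero.exp (-(a s * w s)) := by
      intro s
      rw [map_zpow, Units.val_zpow_eq_zpow_val, map_zpow₀]
      show v (X s : L) ^ w s = _
      rw [hvX, ← WithZero.exp_zsmul, smul_eq_mul]
      congr 1
      ring
    rw [Finset.prod_congr rfl fun s _ => h1 s, ← Finset.sum_neg_distrib]
    induction (Finset.univ : Finset (Fin (k + 2))) using Finset.induction_on with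
    | empty => simp
    | insert i t hi ih =>
      rw [Finset.prod_insert hi, Finset.sum_insert hi, ih, WithZero.exp_add]
  have heq : ∏ j, (v ((1 - ((Units.map (φ : C.Ring →* L) (Dat.pt hC j).1 : Lˣ) : L)) *
      (1 - (((Units.map (φ : C.Ring →* L) (Dat.pt hC j).1)⁻¹ : Lˣ) : L)))) ^ C.n j = 1 := by
    have h1 := congrArg φ C.prod_eq_one
    rw [map_prod, map_one] at h1
    have h2 := congrArg v h1
    rw [map_prod, map_one] at h2
    rw [← h2]
    refine Finset.prod_congr rfl fun j _ => ?_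
    rw [← map_pow]
    congr 1
    rw [map_pow, map_mul φ, map_sub φ, map_sub φ, map_one φ]
    rfl
  -- the monomials in terms of the angular components
  have hred : ∀ j, ∑ s, a s * C.v j s = 0 →
      ∃ t : (Kap v)ˣ, (∃ N : ℕ, 0 < N ∧ t ^ N = 1) ∧
        redU v (Units.map (φ : C.Ring →* L) (Dat.pt hC j).1) = t * pw u (C.v j) := by
    intro j hj
    obtain ⟨N, hN, hN'⟩ := hC.tors j
    set E : Lˣ := Units.map (φ : C.Ring →* L) (C.mn (C.ε j) 0) with hE
    have hEN : E ^ N = 1 := by
      rw [hE, ← map_pow, mn_torsion hN', map_one]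
    have hvE : v (E : L) = 1 := by
      refine val_torsion v hN ?_
      rw [← Units.val_pow_eq_pow_val, hEN, Units.val_one]
    have h1 : Units.map (φ : C.Ring →* L) (Dat.pt hC j).1 = E * ∏ s, U s ^ C.v j s := by
      have h2 : (Dat.pt hC j).1 = C.mn (C.ε j) (C.v j) := rfl
      rw [h2, mn_eq, map_mul, map_prod]
      congr 1
      have h3 : ∏ s, U s ^ C.v j s = (∏ s, X s ^ C.v j s) * ∏ s, π ^ (-a s * C.v j s) := by
        rw [← Finset.prod_mul_distrib]
        refine Finset.prod_congr rfl fun s _ => ?_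
        rw [hU]
        simp only []
        rw [mul_zpow, ← zpow_mul]
      have h4 : ∏ s, π ^ (-a s * C.v j s) = 1 := by
        have h5 : ∏ s, π ^ (-a s * C.v j s) = π ^ (∑ s, -a s * C.v j s) :=
          prod_zpow_sum _ _ _
        rw [h5]
        have h6 : ∑ s, -a s * C.v j s = 0 := by
          rw [← neg_zero, ← hj, ← Finset.sum_neg_distrib]
          exact Finset.sum_congr rfl fun s _ => by ring
        rw [h6, zpow_zero]
      rw [h3, h4, mul_one]
      exact Finset.prod_congr rfl fun s _ => map_zpow _ _ _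
    refine ⟨redU v E, ⟨N, hN, redU_torsion v hvE hEN⟩, ?_⟩
    have hvP : v ((∏ s, U s ^ C.v j s : Lˣ) : L) = 1 := by
      have : (∏ s, U s ^ C.v j s) ∈ V1 v :=
        Subgroup.prod_mem _ fun s _ => Subgroup.zpow_mem _ (hvU s) _
      exact this
    rw [h1, redU_mul v hvE hvP, redU_prod v _ _ hvU]
    rfl
  unfold Dat.alpha
  rw [map_sum, map_sum]
  refine Finset.sum_eq_zero fun j _ => ?_
  rw [map_smul, map_smul, map_sum, map_sum]
  have hterm : ∀ s : Fin (k + 2), bnd v π k (FS.map φ (((-1) ^ (s : ℕ) * (C.v j s : ℚ)) •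
      br (Dat.pt hC j) fun l => C.x (s.succAbove l))) =
      ((-1 : ℚ) ^ (s : ℕ) * (C.v j s : ℚ)) • ∑ i : Fin (k + 1),
        ((-1 : ℚ) ^ (i : ℕ) * (a (s.succAbove i) : ℚ)) • redC v ((Dat.pt hC j).map φ)
          fun l => u (s.succAbove (i.succAbove l)) := by
    intro s
    rw [map_smul, map_smul]
    unfold br FS.map bnd
    rw [Finsupp.lmapDomain_apply, Finsupp.mapDomain_single, Finsupp.linearCombination_single,
      one_smul]
  rw [Finset.sum_congr rfl fun s _ => hterm s]
  suffices h : ∑ s : Fin (k + 2), ((-1 : ℚ) ^ (s : ℕ) * (C.v j s : ℚ)) • ∑ i : Fin (k + 1),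
        ((-1 : ℚ) ^ (i : ℕ) * (a (s.succAbove i) : ℚ)) • redC v ((Dat.pt hC j).map φ)
          (fun l => u (s.succAbove (i.succAbove l))) = 0 by
    rw [h, smul_zero]
  by_cases hw : ∃ w : Pt (Kap v), Red v ((Dat.pt hC j).map φ) w
  swap
  · refine Finset.sum_eq_zero fun s _ => ?_
    have : ∑ i : Fin (k + 1),
        ((-1 : ℚ) ^ (i : ℕ) * (a (s.succAbove i) : ℚ)) • redC v ((Dat.pt hC j).map φ)
          (fun l => u (s.succAbove (i.succAbove l))) = 0 := by
      refine Finset.sum_eq_zero fun i _ => ?_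
      unfold redC
      rw [dif_neg hw, smul_zero]
    rw [this, smul_zero]
  have hredC : ∀ (u' : Fin k → (Kap v)ˣ), redC v ((Dat.pt hC j).map φ) u' =
      cl hw.choose u' := by
    intro u'
    unfold redC
    rw [dif_pos hw]
  simp only [hredC]
  have hwspec := hw.choose_spec
  set w := hw.choose with hwdef
  obtain ⟨hv1, hv2⟩ := val_of_Red v hwspec
  have hw1 : w.1 = redU v (Units.map (φ : C.Ring →* L) (Dat.pt hC j).1) := by
    obtain ⟨x, hx, hx'⟩ := hwspec
    ext1
    rw [← hx']
    have hv1' : v ((Units.map (φ : C.Ring →* L) (Dat.pt hC j).1 : Lˣ) : L) = 1 := hv1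
    rw [redU_spec v hv1']
    congr 1
    exact Subtype.ext hx
  by_cases ha0 : a = 0
  · refine Finset.sum_eq_zero fun s _ => ?_
    have : ∑ i : Fin (k + 1),
        ((-1 : ℚ) ^ (i : ℕ) * (a (s.succAbove i) : ℚ)) • cl w
          (fun l => u (s.succAbove (i.succAbove l))) = 0 := by
      refine Finset.sum_eq_zero fun i _ => ?_
      rw [ha0]
      simp
    rw [this, smul_zero]
  -- there is a monomial with reduction one
  have hval : ∀ i, v ((Units.map (φ : C.Ring →* L) (Dat.pt hC i).1 : Lˣ) : L) =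
      WithZero.exp (-∑ s, a s * C.v i s) := fun i => hmn _ _ (hC.tors i)
  have hval1 : ∀ i, v ((Units.map (φ : C.Ring →* L) (Dat.pt hC i).1 : Lˣ) : L) = 1 →
      ∑ s, a s * C.v i s = 0 := by
    intro i hi
    rw [hval, ← WithZero.exp_zero] at hi
    have := WithZero.exp_injective hi
    omega
  obtain ⟨j0, hj0, hj0'⟩ : ∃ j0, ∑ s, a s * C.v j0 s = 0 ∧
      v (1 - ((Units.map (φ : C.Ring →* L) (Dat.pt hC j0).1 : Lˣ) : L)) ≠ 1 := by
    by_contra hcon
    push Not at hcon
    obtain ⟨j1, hj1⟩ : ∃ j1, ∑ s, a s * C.v j1 s ≠ 0 := by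
      by_contra hcon1
      push Not at hcon1
      apply ha0
      have h1 := eq_zero_of_span hC.span (fun s => (a s : ℚ)) (fun i => by
        have := hcon1 i
        have h2 : ((∑ s, a s * C.v i s : ℤ) : ℚ) = 0 := by exact_mod_cast this
        push_cast at h2
        rw [← h2]
        refine Finset.sum_congr rfl fun s _ => ?_
        rw [smul_eq_mul, mul_comm])
      funext s
      have := congrFun h1 s
      simpa using this
    have h8 : 1 < ∏ j, (v ((1 - ((Units.map (φ : C.Ring →* L) (Dat.pt hC j).1 : Lˣ) : L)) *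
      (1 - (((Units.map (φ : C.Ring →* L) (Dat.pt hC j).1)⁻¹ : Lˣ) : L)))) ^ C.n j := by
      rw [← Finset.mul_prod_erase Finset.univ _ (Finset.mem_univ j1)]
      refine lt_of_lt_of_le (one_lt_pow₀ (one_lt_val_pair v fun h => hj1 (hval1 j1 h))
        (hC.pos j1).ne') (le_mul_of_one_le_right' (Finset.one_le_prod' fun i' _ => ?_))
      by_cases h9 : v ((Units.map (φ : C.Ring →* L) (Dat.pt hC i').1 : Lˣ) : L) = 1
      · exact (one_pow (M := ℤᵐ⁰) _).symm.le.trans_eq (congrArg (· ^ C.n i')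
          (val_pair_eq_one v h9 (hcon i' (hval1 i' h9))).symm)
      · exact one_le_pow₀ (one_lt_val_pair v h9).le
    rw [heq] at h8
    exact lt_irrefl _ h8
  have hjj0 : j ≠ j0 := by
    rintro rfl
    exact hj0' hv2
  have hj : ∑ s, a s * C.v j s = 0 := hval1 j hv1
  have hvj0 : v ((Units.map (φ : C.Ring →* L) (Dat.pt hC j0).1 : Lˣ) : L) = 1 := by
    rw [hval, hj0, neg_zero, WithZero.exp_zero]
  have hone : redU v (Units.map (φ : C.Ring →* L) (Dat.pt hC j0).1) = 1 := by
    ext1
    rw [redU_spec v hvj0, Units.val_one]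
    by_contra hne
    apply hj0'
    have h1 : red v (1 - vs v hvj0) ≠ 0 := by
      rw [red_sub, red_one]
      exact sub_ne_zero.2 (Ne.symm hne)
    exact val_of_red_ne v h1
  obtain ⟨t, ⟨N, hN, ht⟩, h1⟩ := hred j hj
  obtain ⟨t0, ⟨N0, hN0, ht0⟩, h2⟩ := hred j0 hj0
  have hinv : ∀ {x : (Kap v)ˣ} {n : ℕ}, x ^ n = 1 → x⁻¹ ^ n = 1 := by
    intro x n h
    rw [inv_pow, h, inv_one]
  have hp : pw u (C.v j) = w.1 * t⁻¹ := by
    rw [hw1, h1]
    rw [mul_comm t, mul_inv_cancel_right]
  have hq : pw u (C.v j0) = t0⁻¹ := by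
    rw [hone] at h2
    exact (inv_eq_of_mul_eq_one_right h2.symm).symm
  have key := contraction_zero (altM w u) a (C.v j) (C.v j) (C.v j0)
    (hC.indep j j0 hjj0) hj hj0 (fun m i hm => by
      rw [altM_apply]
      have e : (fun l => pw u (m l)) = Function.update (fun l => pw u (m l)) i
          (w.1 * t⁻¹) := by
        rw [← hp, ← hm, Function.update_eq_self_iff.2 rfl]
      rw [e, cl_update_mul, cl_torsion w _ i hN (hinv ht), add_zero]
      exact cl_self w _ (i := i) (by simp)) (fun m i hm => by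
      rw [altM_apply]
      have e : (fun l => pw u (m l)) = Function.update (fun l => pw u (m l)) i
          (t0⁻¹) := by
        rw [← hq, ← hm, Function.update_eq_self_iff.2 rfl]
      rw [e, cl_torsion w _ i hN0 (hinv ht0)])
  rw [← key]
  refine Finset.sum_congr rfl fun s _ => ?_
  congr 1
  refine Finset.sum_congr rfl fun i _ => ?_
  rw [altM_apply]
  simp only [pw_single]

end hyp

end Pool.Agent.Helper90.HB
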