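import Pool.Agent.TH826.MK.Stokes
set_option autoImplicit false

/-!
Stokes' theorem for determinants on a box, for a form `J_p ∧ J_q = dP` times closed one-forms.
-/

namespace Pool.Agent.Helper90.HB

open MeasureTheory Set Pool.Agent.TH826.MK

variable {d : ℕ}

/-- The data of Stokes' theorem: one-forms `J l` on the box `[0,1]^(d+1)`, closed for `l ≠ p, q`, and
a one-form `P` such that `dP = J p ∧ J q`. -/
structure SD (d : ℕ) where
  J : Fin (d + 1) → (Fin (d + 1) → ℝ) → (Fin (d + 1) → ℂ)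
  J' : Fin (d + 1) → (Fin (d + 1) → ℝ) → ((Fin (d + 1) → ℝ) →L[ℝ] (Fin (d + 1) → ℂ))
  P : (Fin (d + 1) → ℝ) → (Fin (d + 1) → ℂ)
  P' : (Fin (d + 1) → ℝ) → ((Fin (d + 1) → ℝ) →L[ℝ] (Fin (d + 1) → ℂ))
  p : Fin (d + 1)
  q : Fin (d + 1)
  hpq : p ≠ q
  hc : ∀ l, ContinuousOn (J l) (Icc 0 1)
  hJ : ∀ l, l ≠ p → l ≠ q → ∀ y ∈ Icc (0 : Fin (d + 1) → ℝ) 1, HasFDerivAt (J l) (J' l y) y
  hJs : ∀ l, l ≠ p → l ≠ q → ∀ y ∈ Icc (0 : Fin (d + 1) → ℝ) 1, ∀ i j,
    J' l y (Pi.single i 1) j = J' l y (Pi.single j 1) i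
  hP : ∀ y ∈ Icc (0 : Fin (d + 1) → ℝ) 1, HasFDerivAt P (P' y) y
  hX : ∀ y ∈ Icc (0 : Fin (d + 1) → ℝ) 1, ∀ i j, P' y (Pi.single i 1) j - J p y i * J q y j =
    P' y (Pi.single j 1) i - J p y j * J q y i

variable (S : SD d)

/-- the rows of the matrix with determinant `V i` -/
noncomputable def SD.rows (i : Fin (d + 1)) (l : Fin (d + 1)) (y : Fin (d + 1) → ℝ) :
    Fin (d + 1) → ℂ :=
  if l = S.q then S.P y else if l = S.p then Pi.single i 1 else S.J l y

/-- the derivatives of the rows -/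
noncomputable def SD.rows' (l : Fin (d + 1)) (y : Fin (d + 1) → ℝ) :
    (Fin (d + 1) → ℝ) →L[ℝ] (Fin (d + 1) → ℂ) :=
  if l = S.q then S.P' y else if l = S.p then 0 else S.J' l y

theorem SD.hasFDerivAt_rows (i l : Fin (d + 1)) {y : Fin (d + 1) → ℝ} (hy : y ∈ Icc 0 1) :
    HasFDerivAt (S.rows i l) (S.rows' l y) y := by
  unfold SD.rows SD.rows'
  by_cases h1 : l = S.q
  · simp only [h1, if_true]
    exact S.hP y hy
  · by_cases h2 : l = S.p
    · simp only [h2, if_true, if_neg (S.hpq)]
      exact hasFDerivAt_const _ _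
    · simp only [h1, h2, if_false]
      exact S.hJ l h2 h1 y hy

/-- the vector field -/
noncomputable def SD.V (i : Fin (d + 1)) (y : Fin (d + 1) → ℝ) : ℂ :=
  detC (d + 1) fun l => S.rows i l y

/-- the derivative of the vector field -/
noncomputable def SD.V' (i : Fin (d + 1)) (y : Fin (d + 1) → ℝ) :
    (Fin (d + 1) → ℝ) →L[ℝ] ℂ :=
  ∑ l : Fin (d + 1), ((detC (d + 1)).toContinuousLinearMap (fun j => S.rows i j y) l).comp
    (S.rows' l y)

theorem SD.hasFDerivAt_V (i : Fin (d + 1)) {y : Fin (d + 1) → ℝ} (hy : y ∈ Icc 0 1) :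
    HasFDerivAt (S.V i) (S.V' i y) y :=
  HasFDerivAt.multilinear_comp (detC (d + 1)) fun l => S.hasFDerivAt_rows i l hy

theorem SD.rows_eq (i : Fin (d + 1)) (y : Fin (d + 1) → ℝ) :
    (fun l => S.rows i l y) = Function.update (Function.update (fun l => S.J l y) S.p
      (Pi.single i 1)) S.q (S.P y) := by
  funext l
  unfold SD.rows
  by_cases h1 : l = S.q
  · subst h1; simp
  · rw [Function.update_of_ne h1, if_neg h1]
    by_cases h2 : l = S.p
    · subst h2; simp
    · rw [Function.update_of_ne h2, if_neg h2]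

theorem SD.V_eq (i : Fin (d + 1)) (y : Fin (d + 1) → ℝ) :
    S.V i y = dB (fun l => S.J l y) S.p S.q (Pi.single i 1) (S.P y) := by
  unfold SD.V
  rw [S.rows_eq]
  rfl

theorem SD.div_V {y : Fin (d + 1) → ℝ} (hy : y ∈ Icc 0 1) :
    ∑ i, S.V' i y (Pi.single i 1) = detC (d + 1) fun l => S.J l y := by
  classical
  set M : Fin (d + 1) → Fin (d + 1) → ℂ := fun l => S.J l y with hM
  have key : ∀ i l, (detC (d + 1)).toContinuousLinearMap (fun j => S.rows i j y) l
      (S.rows' l y (Pi.single i 1)) = if l = S.q then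
        dB M S.p S.q (Pi.single i 1) (S.P' y (Pi.single i 1)) else if l = S.p then 0 else
        dB (Function.update M S.q (S.P y)) S.p l (Pi.single i 1) (S.J' l y (Pi.single i 1)) := by
    intro i l
    have h0 : (detC (d + 1)).toContinuousLinearMap (fun j => S.rows i j y) l
      (S.rows' l y (Pi.single i 1)) = detC (d + 1) (Function.update (fun j => S.rows i j y) l
        (S.rows' l y (Pi.single i 1))) := rfl
    rw [h0, S.rows_eq, detC_apply]
    unfold dB SD.rows'
    by_cases h1 : l = S.q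
    · subst h1
      simp only [if_true, Function.update_idem]
      rfl
    · by_cases h2 : l = S.p
      · subst h2
        simp only [if_neg S.hpq, if_true]
        refine Matrix.det_eq_zero_of_row_eq_zero S.p fun j => ?_
        simp
      · simp only [if_neg h1, if_neg h2]
        congr 2
        rw [Function.update_comm S.hpq]
  have hV : ∀ i, S.V' i y (Pi.single i 1) = ∑ l, if l = S.q then
        dB M S.p S.q (Pi.single i 1) (S.P' y (Pi.single i 1)) else if l = S.p then 0 else
        dB (Function.update M S.q (S.P y)) S.p l (Pi.single i 1) (S.J' l y (Pi.single i 1)) := by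
    intro i
    unfold SD.V'
    rw [sum_apply]
    exact Finset.sum_congr rfl fun l _ => key i l
  rw [Finset.sum_congr rfl fun i _ => hV i, Finset.sum_comm]
  have h2 : ∀ l, l ≠ S.q → (∑ i, if l = S.q then
        dB M S.p S.q (Pi.single i 1) (S.P' y (Pi.single i 1)) else if l = S.p then 0 else
        dB (Function.update M S.q (S.P y)) S.p l (Pi.single i 1) (S.J' l y (Pi.single i 1)))
        = 0 := by
    intro l hl
    simp only [if_neg hl]
    by_cases h2 : l = S.p
    · simp [h2]
    · simp only [if_neg h2]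
      have h3 : ∀ i, dB (Function.update M S.q (S.P y)) S.p l (Pi.single i 1)
          (S.J' l y (Pi.single i 1)) = ∑ j, S.J' l y (Pi.single i 1) j *
            dB (Function.update M S.q (S.P y)) S.p l (Pi.single i 1) (Pi.single j 1) :=
        fun i => dB_sum_right _ _ _ _ _
      rw [Finset.sum_congr rfl fun i _ => h3 i]
      exact sum_symm_antisymm _ _ (fun i j => S.hJs l h2 hl y hy i j)
        (fun i j => dB_swap _ (Ne.symm h2) _ _)
  rw [Finset.sum_eq_single S.q (fun l _ hl => h2 l hl) (by simp)]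
  simp only [if_true]
  have h4 : (detC (d + 1) fun l => S.J l y) = dB M S.p S.q (S.J S.p y) (S.J S.q y) := by
    rw [detC_apply]
    unfold dB
    congr 2
    rw [Function.update_eq_self, Function.update_eq_self]
  rw [h4, dB_sum M S.hpq, ← sub_eq_zero, ← Finset.sum_sub_distrib]
  have h5 : ∀ i, dB M S.p S.q (Pi.single i 1) (S.P' y (Pi.single i 1)) -
      ∑ j, S.J S.p y i * S.J S.q y j * dB M S.p S.q (Pi.single i 1) (Pi.single j 1) =
      ∑ j, (S.P' y (Pi.single i 1) j - S.J S.p y i * S.J S.q y j) *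
        dB M S.p S.q (Pi.single i 1) (Pi.single j 1) := by
    intro i
    rw [dB_sum_right, ← Finset.sum_sub_distrib]
    exact Finset.sum_congr rfl fun j _ => by ring
  rw [Finset.sum_congr rfl fun i _ => h5 i]
  exact sum_symm_antisymm _ _ (fun i j => S.hX y hy i j) (fun i j => dB_swap _ S.hpq _ _)

theorem SD.continuousOn_V (i : Fin (d + 1)) : ContinuousOn (S.V i) (Icc 0 1) :=
  fun _ hy => (S.hasFDerivAt_V i hy).continuousAt.continuousWithinAt

theorem SD.continuousOn_det : ContinuousOn (fun y => detC (d + 1) fun l => S.J l y) (Icc 0 1) :=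
  (detC (d + 1)).cont.comp_continuousOn (continuousOn_pi.2 fun l => S.hc l)

/-- Stokes' theorem. -/
theorem SD.stokes : ∫ y in Icc (0 : Fin (d + 1) → ℝ) 1, (detC (d + 1) fun l => S.J l y) =
    ∑ i : Fin (d + 1), ((∫ x in Icc (0 : Fin d → ℝ) 1, S.V i (i.insertNth 1 x)) -
      ∫ x in Icc (0 : Fin d → ℝ) 1, S.V i (i.insertNth 0 x)) := by
  have hcong : EqOn (fun y => ∑ i, S.V' i y (Pi.single i 1))
      (fun y => detC (d + 1) fun l => S.J l y) (Icc 0 1) := fun y hy => S.div_V hy
  have h := integral_divergence_of_hasFDerivAt_off_countable' (0 : Fin (d + 1) → ℝ) 1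
    (by simp) S.V S.V' ∅ countable_empty
    (fun i => S.continuousOn_V i) (fun x hx i => S.hasFDerivAt_V i (by
      have hx1 := hx.1
      rw [mem_univ_pi] at hx1
      exact ⟨fun j => (hx1 j).1.le, fun j => (hx1 j).2.le⟩)) (by
      rw [integrableOn_congr_fun hcong measurableSet_Icc]
      exact S.continuousOn_det.integrableOn_compact isCompact_Icc)
  rw [setIntegral_congr_fun measurableSet_Icc hcong] at h
  exact h

end Pool.Agent.Helper90.HB
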