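import Pool.Agent.Helper90.HB.Rel
set_option autoImplicit false

/-!
The regulator on a closed cubical chain vanishes on the relations (continued): the elements
`{f}_2 ⊗ (g_0, ..., g_(k-1))` with some `g_i = f`.
-/

namespace Pool.Agent.Helper90.HB

open MeasureTheory Set Pool.Agent.TH826.MK Pool.Agent.W367.KT
open Pool.Agent.N65.TK (Pt Five D Mf D_eq_BW five_zero five)

section periodic

variable {d : ℕ}

/-- periodicity in one variable -/
def PerI (i : Fin d) (g : (Fin d → ℝ) → ℂ) : Prop := ∀ θ, g (θ + Pi.single i 1) = g θ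

variable {i : Fin d}

theorem PerI.lw {g : (Fin d → ℝ) → ℂ} (hg : PerI i g) (k : Fin d) (θ : Fin d → ℝ) :
    lw g k (θ + Pi.single i 1) = lw g k θ := by
  unfold Pool.Agent.TH826.MK.lw
  have h : (fun θ => g (θ + Pi.single i 1)) = g := funext fun θ => hg θ
  have h2 := fderiv_comp_add_right (𝕜 := ℝ) (f := g) (x := θ) (Pi.single i 1)
  rw [h] at h2
  rw [← h2, hg]

theorem PerI.grow {g : (Fin d → ℝ) → ℂ} (hg : PerI i g) (y : Fin (d + 1) → ℝ) :
    grow g (y + Pi.single i.succ 1) = grow g y := by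
  funext l
  refine Fin.cases ?_ (fun l => ?_) l
  · rw [grow_zero, grow_zero, tl_add_single, hg]
  · rw [grow_succ, grow_succ, tl_add_single, hg.lw, zero_add_single]

theorem PerI.om {g : (Fin d → ℝ) → ℂ} (hg : PerI i g) : PerI i (om g) := by
  intro θ
  unfold Pool.Agent.TH826.MK.om
  rw [hg]

theorem PerI.lam {g : (Fin d → ℝ) → ℂ} (hg : PerI i g) (k : Fin d) (θ : Fin d → ℝ) :
    lam g k (θ + Pi.single i 1) = lam g k θ := by
  unfold HB.lam
  rw [hg, hg.om, hg.lw, hg.om.lw]

theorem PerI.Qf {g : (Fin d → ℝ) → ℂ} (hg : PerI i g) (y : Fin (d + 1) → ℝ) :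
    Qf g (y + Pi.single i.succ 1) = Qf g y := by
  funext l
  unfold HB.Qf
  refine Fin.cases ?_ (fun l => ?_) l
  · simp only [Fin.cons_zero]
    rw [tl_add_single, hg]
  · simp only [Fin.cons_succ]
    rw [tl_add_single, hg, hg.lw, hg.lam, zero_add_single]

end periodic

section bottom

variable {d : ℕ}

/-- the real part at `t = 0` -/
theorem re_det_zero (M : Fin (d + 1) → Fin (d + 1) → ℂ) {p : Fin (d + 1)}
    (hp : M p = Pi.single 0 1) (r : Fin (d + 1) → Fin d → ℝ)
    (hl : ∀ l, l ≠ p → ∀ j, M l j.succ = Complex.I * r l j) :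
    ((-Complex.I) ^ d * Complex.I * (Matrix.of M).det).re = 0 := by
  have h1 : (Matrix.of M).det = (-1) ^ ((p : ℕ) + ((0 : Fin (d + 1)) : ℕ)) *
      ((Matrix.of M).submatrix p.succAbove (0 : Fin (d + 1)).succAbove).det := by
    rw [← Matrix.adjugate_fin_succ_eq_det_submatrix, Matrix.adjugate_apply]
    congr 1
    ext l j
    by_cases h : l = p
    · subst h; simp [hp]
    · simp [Matrix.updateRow_ne h]
  have h2 : ((Matrix.of M).submatrix p.succAbove (0 : Fin (d + 1)).succAbove) =
      Matrix.of fun l j => (fun _ : Fin d => Complex.I) l *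
        ((Matrix.of fun l j => r (p.succAbove l) j).map (fun x : ℝ => (x : ℂ))) l j := by
    ext l j
    simp only [Matrix.submatrix_apply, Matrix.of_apply, Matrix.map_apply, Fin.succAbove_zero]
    exact hl _ (Fin.succAbove_ne p l) j
  have h4 : ((Matrix.of fun l j => r (p.succAbove l) j).map (fun x : ℝ => (x : ℂ))).det =
      (((Matrix.of fun l j => r (p.succAbove l) j).det : ℝ) : ℂ) := by
    have := (RingHom.map_det Complex.ofRealHom (Matrix.of fun l j => r (p.succAbove l) j)).symm
    exact this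
  rw [h1, h2, Matrix.det_mul_column, h4, Finset.prod_const, Finset.card_univ, Fintype.card_fin]
  set R : ℝ := (Matrix.of fun l j => r (p.succAbove l) j).det
  have h5 : (-Complex.I) ^ d * Complex.I ^ d = 1 := by
    rw [← mul_pow]
    simp
  have h6 : (-Complex.I) ^ d * Complex.I * ((-1) ^ ((p : ℕ) + ((0 : Fin (d + 1)) : ℕ)) *
      (Complex.I ^ d * (R : ℂ))) = (((-1) ^ ((p : ℕ) + ((0 : Fin (d + 1)) : ℕ)) * R : ℝ) : ℂ)
        * Complex.I := by
    push_cast
    linear_combination (Complex.I * ((-1) ^ ((p : ℕ) + ((0 : Fin (d + 1)) : ℕ)) * (R : ℂ))) * h5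
  rw [h6, Complex.re_ofReal_mul]
  simp

theorem dB_self (M : Fin (d + 1) → Fin (d + 1) → ℂ) {p q : Fin (d + 1)} (hpq : p ≠ q)
    (u : Fin (d + 1) → ℂ) : dB M p q u u = 0 := by
  have h2 := dB_swap M hpq u u
  have : (2 : ℂ) * dB M p q u u = 0 := by
    rw [two_mul]
    nth_rewrite 1 [h2]
    ring
  simpa using this

end bottom

section degenerate

variable {d : ℕ}

theorem lw_eq_zero {g : (Fin d → ℝ) → ℂ} (hg : ContDiff ℝ 2 g) {j : Fin d} {θ : Fin d → ℝ}
    (h : ∀ s, g (Function.update θ j s) = g θ) : lw g j θ = 0 := by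
  have h1 : HasFDerivAt g (fderiv ℝ g θ) θ := ((hg.differentiable (by norm_num)) θ).hasFDerivAt
  have h2 : HasDerivAt (fun s : ℝ => θ + s • (Pi.single j 1 : Fin d → ℝ)) (Pi.single j 1) 0 := by
    simpa using (((hasDerivAt_id (0 : ℝ)).smul_const (Pi.single j 1 : Fin d → ℝ)).const_add θ)
  have h3 : HasDerivAt (fun s : ℝ => g (θ + s • (Pi.single j 1 : Fin d → ℝ)))
      (fderiv ℝ g θ (Pi.single j 1)) 0 := by
    have h1' : HasFDerivAt g (fderiv ℝ g θ) (θ + (0 : ℝ) • (Pi.single j 1 : Fin d → ℝ)) := by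
      simpa using h1
    exact h1'.comp_hasDerivAt (0 : ℝ) h2
  have h4 : (fun s : ℝ => g (θ + s • (Pi.single j 1 : Fin d → ℝ))) = fun _ => g θ := by
    funext s
    have : θ + s • (Pi.single j 1 : Fin d → ℝ) = Function.update θ j (θ j + s) := by
      funext l
      by_cases hl : l = j
      · subst hl; simp
      · simp [Function.update_of_ne hl, Pi.single_eq_of_ne hl]
    rw [this, h]
  rw [h4] at h3
  have h5 := h3.unique (hasDerivAt_const (0 : ℝ) (g θ))
  unfold lw
  rw [h5, zero_div]

end degenerate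

section main

variable {A : Type*} [CommRing A] {k : ℕ} (γ : Cyc A k)

/-- the data of Stokes' theorem -/
noncomputable def Cyc.sd (f : Pt A) (g : Fin k → Aˣ) (i : Fin k) (h : g i = f.1) : SD k where
  J := fun l y => γ.mat f g y l
  J' := fun l y => Fin.cases (0 : (Fin (k + 1) → ℝ) →L[ℝ] (Fin (k + 1) → ℂ))
    (fun l => grow' (γ.fn (g l : A)) y) l
  P := Qf (γ.fn (f.1 : A))
  P' := Qf' (γ.fn (f.1 : A))
  p := 0
  q := i.succ
  hpq := (Fin.succ_ne_zero i).symm
  hc l := (continuous_pi_iff.1 (γ.continuous_mat f g) l).continuousOn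
  hJ l := by
    refine Fin.cases ?_ (fun l => ?_) l
    · intro h
      exact absurd rfl h
    · intro _ _ y _
      exact hasFDerivAt_grow (γ.good (g l)).smooth (γ.good (g l)).ne_zero y
  hJs l := by
    refine Fin.cases ?_ (fun l => ?_) l
    · intro h
      exact absurd rfl h
    · intro _ _ y _ i j
      exact grow'_symm (γ.good (g l)).smooth y i j
  hP y _ := hasFDerivAt_Qf (γ.good f.1).smooth (γ.good f.1).ne_zero (γ.om_ne f) y
  hX y _ a b := by
    have := Qf_symm (γ.good f.1).smooth (γ.good f.1).ne_zero (γ.om_ne f) y a b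
    have e : ∀ b, γ.mat f g y i.succ b = grow (γ.fn (f.1 : A)) y b := by
      intro b
      rw [← h]
      rfl
    rw [e, e]
    exact this

variable {f : Pt A} {g : Fin k → Aˣ} {i : Fin k} (h : g i = f.1)

theorem Cyc.sd_p : (γ.sd f g i h).p = 0 := rfl

theorem Cyc.sd_q : (γ.sd f g i h).q = i.succ := rfl

theorem Cyc.sd_P : (γ.sd f g i h).P = Qf (γ.fn (f.1 : A)) := rfl

theorem Cyc.side_periodic {j : Fin k} (hj : ∀ θ, γ.e (θ + Pi.single j 1) = γ.e θ)
    (x : Fin k → ℝ) : (γ.sd f g i h).V j.succ (j.succ.insertNth 1 x) =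
      (γ.sd f g i h).V j.succ (j.succ.insertNth 0 x) := by
  have hper : ∀ a : A, PerI j (γ.fn a) := fun a θ => by
    show γ.e (θ + Pi.single j 1) a = γ.e θ a
    rw [hj]
  rw [SD.V_eq, SD.V_eq, insertNth_eq]
  have e1 : (γ.sd f g i h).P ((Fin.insertNth j.succ 0 x : Fin (k + 1) → ℝ) + Pi.single j.succ 1) =
      (γ.sd f g i h).P (Fin.insertNth j.succ 0 x) := (hper _).Qf _
  rw [e1]
  -- the first row is replaced
  unfold dB
  congr 2
  have e2 : ∀ y y' : Fin (k + 1) → ℝ, (∀ l : Fin k, grow (γ.fn (g l : A)) y =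
      grow (γ.fn (g l : A)) y') → Function.update (fun l => (γ.sd f g i h).J l y)
        (γ.sd f g i h).p (Pi.single j.succ (1 : ℂ)) =
      Function.update (fun l => (γ.sd f g i h).J l y') (γ.sd f g i h).p (Pi.single j.succ 1) := by
    intro y y' hy
    funext l
    refine Fin.cases ?_ (fun l => ?_) l
    · rw [show (γ.sd f g i h).p = 0 from rfl, Function.update_self, Function.update_self]
    · rw [show (γ.sd f g i h).p = 0 from rfl, Function.update_of_ne (Fin.succ_ne_zero l),
        Function.update_of_ne (Fin.succ_ne_zero l)]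
      exact hy l
  rw [e2 _ _ fun l => (hper _).grow _]

theorem Cyc.side_degenerate {j j' : Fin k} (hjj : j' ≠ j) {c : ℝ}
    (hj : ∀ θ s, θ j = c → γ.e (Function.update θ j' s) = γ.e θ)
    (x : Fin k → ℝ) : (γ.sd f g i h).V j.succ (j.succ.insertNth c x) = 0 := by
  rw [SD.V_eq]
  unfold dB
  set y : Fin (k + 1) → ℝ := j.succ.insertNth c x with hy
  have hyj : tl k y j = c := by
    rw [tl_apply, hy, Fin.insertNth_apply_same]
  have hlw : ∀ a : A, lw (γ.fn a) j' (tl k y) = 0 := fun a =>
    lw_eq_zero (γ.smooth a) fun s => by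
      show γ.e _ a = γ.e _ a
      rw [hj _ s hyj]
  have hlwom : lw (om (γ.fn (f.1 : A))) j' (tl k y) = 0 := by
    rw [← γ.fn_co]
    exact hlw _
  refine Matrix.det_eq_zero_of_column_eq_zero j'.succ fun l => ?_
  rw [Matrix.of_apply]
  by_cases h1 : l = i.succ
  · rw [h1, show (γ.sd f g i h).q = i.succ from rfl, Function.update_self]
    show Qf (γ.fn (f.1 : A)) y j'.succ = 0
    unfold Qf lam
    rw [Fin.cons_succ, hlw, hlwom]
    simp
  · rw [show (γ.sd f g i h).q = i.succ from rfl, Function.update_of_ne h1]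
    revert h1
    refine Fin.cases ?_ (fun l => ?_) l
    · intro _
      rw [show (γ.sd f g i h).p = 0 from rfl, Function.update_self,
        Pi.single_eq_of_ne fun e => hjj (Fin.succ_injective _ e)]
    · intro _
      rw [show (γ.sd f g i h).p = 0 from rfl, Function.update_of_ne (Fin.succ_ne_zero l)]
      show grow (γ.fn (g l : A)) y j'.succ = 0
      rw [grow_succ, hlw]
      simp

theorem Cyc.top (x : Fin k → ℝ) :
    (γ.sd f g i h).V 0 (Fin.insertNth 0 1 x) = 0 := by
  rw [SD.V_eq, dB_sum_right]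
  refine Finset.sum_eq_zero fun j _ => ?_
  refine Fin.cases ?_ (fun j => ?_) j
  · rw [dB_self _ (γ.sd f g i h).hpq, mul_zero]
  · have : (γ.sd f g i h).P (Fin.insertNth 0 1 x : Fin (k + 1) → ℝ) j.succ = 0 := by
      rw [γ.sd_P]
      simp [Qf]
    rw [this, zero_mul]

theorem Cyc.bottom (x : Fin k → ℝ) :
    ((-Complex.I) ^ k * Complex.I * (γ.sd f g i h).V 0 (Fin.insertNth 0 0 x)).re = 0 := by
  set y : Fin (k + 1) → ℝ := Fin.insertNth 0 0 x with hy
  have hy0 : y 0 = 0 := by simp [hy]
  have hV : (γ.sd f g i h).V 0 y = (Matrix.of fun l => (γ.sd f g i h).rows 0 l y).det := rfl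
  rw [hV]
  refine re_det_zero (fun l => (γ.sd f g i h).rows 0 l y) (p := 0) ?_ (fun l j => if l = i.succ then
      1 / 2 * (BW (γ.fn (f.1 : A) (tl k y)) * (lw (γ.fn (f.1 : A)) j (tl k y)).re) else
      Fin.cases 0 (fun l' => (lw (γ.fn (g l' : A)) j (tl k y)).im) l) ?_
  · show (γ.sd f g i h).rows 0 0 y = Pi.single 0 1
    unfold SD.rows
    rw [γ.sd_p, γ.sd_q, if_neg (Fin.succ_ne_zero i).symm, if_pos rfl]
  · intro l hl j
    show (γ.sd f g i h).rows 0 l y j.succ = _
    unfold SD.rows
    rw [γ.sd_p, γ.sd_q]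
    by_cases h1 : l = i.succ
    · rw [if_pos h1, if_pos h1]
      show Qf (γ.fn (f.1 : A)) y j.succ = _
      unfold Qf
      rw [Fin.cons_succ, hy0]
      push_cast
      ring
    · rw [if_neg h1, if_neg h1]
      revert hl h1
      refine Fin.cases ?_ (fun l => ?_) l
      · intro hl
        exact absurd rfl hl
      · intro _ _
        rw [if_neg (show ¬ (l.succ = 0) from Fin.succ_ne_zero l)]
        show grow (γ.fn (g l : A)) y j.succ = _
        rw [grow_succ, hy0]
        simp

include h in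
theorem Cyc.reg_self : γ.reg (br f g) = 0 := by
  set S := γ.sd f g i h with hS
  have hst := S.stokes
  have hint : ∫ y in Icc (0 : Fin (k + 1) → ℝ) 1, (detC (k + 1) fun l => S.J l y) =
      - ∫ x in Icc (0 : Fin k → ℝ) 1, S.V 0 (Fin.insertNth 0 0 x) := by
    rw [hst, Fin.sum_univ_succ]
    have h0 : ∑ j : Fin k, ((∫ x in Icc (0 : Fin k → ℝ) 1, S.V j.succ (j.succ.insertNth 1 x)) -
      ∫ x in Icc (0 : Fin k → ℝ) 1, S.V j.succ (j.succ.insertNth 0 x)) = 0 := by
      refine Finset.sum_eq_zero fun j _ => ?_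
      rcases γ.closed j with hj | ⟨⟨j0, hj0, hj0'⟩, j1, hj1, hj1'⟩
      · simp only [hS, γ.side_periodic h hj, sub_self]
      · simp only [hS, γ.side_degenerate h hj0 hj0', γ.side_degenerate h hj1 hj1', integral_zero,
          sub_self]
    rw [h0]
    simp only [hS, γ.top h]
    simp
  have hcV : ContinuousOn (fun x : Fin k → ℝ => S.V 0 (Fin.insertNth 0 0 x)) (Icc 0 1) := by
    refine (S.continuousOn_V 0).comp ?_ ?_
    · refine Continuous.continuousOn (continuous_pi fun j => ?_)
      refine Fin.cases ?_ (fun j => ?_) j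
      · simpa using continuous_const
      · simpa using continuous_apply j
    · intro x hx
      constructor
      · intro j
        refine Fin.cases ?_ (fun j => ?_) j
        · simp
        · simpa using hx.1 j
      · intro j
        refine Fin.cases ?_ (fun j => ?_) j
        · simp
        · simpa using hx.2 j
  have hc := S.continuousOn_det
  rw [γ.reg_br]
  have e1 : ∀ y : Fin (k + 1) → ℝ, γ.fr f g y =
      Complex.reCLM ((-Complex.I) ^ k * Complex.I * detC (k + 1) fun l => S.J l y) := fun y => rfl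
  simp only [e1]
  rw [ContinuousLinearMap.integral_comp_comm, integral_const_mul, hint, mul_neg,
    ← integral_const_mul, map_neg, ← ContinuousLinearMap.integral_comp_comm]
  · have e2 : ∀ x : Fin k → ℝ, Complex.reCLM ((-Complex.I) ^ k * Complex.I *
        S.V 0 (Fin.insertNth 0 0 x)) = 0 := γ.bottom h
    simp only [e2, integral_zero, neg_zero]
  · exact (continuousOn_const.mul hcV).integrableOn_compact isCompact_Icc
  · exact (continuousOn_const.mul hc).integrableOn_compact isCompact_Icc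

end main

section final

variable {A : Type*} [CommRing A] {k : ℕ} (γ : Cyc A k)

/-- The regulator on a closed cubical chain vanishes on the relations. -/
theorem Cyc.reg_of_mem {s : FS A k} (hs : s ∈ Rels A k) : γ.reg s = 0 := by
  have hle : Rels A k ≤ LinearMap.ker γ.reg := by
    unfold Rels
    rw [Submodule.span_le]
    rintro s (((⟨f, g, i, a, b, rfl⟩ | ⟨f, g, i, j, hij, h, rfl⟩) | ⟨x, y, a, b, c, g, h, rfl⟩) |
      ⟨f, g, i, h, rfl⟩)
    · rw [SetLike.mem_coe, LinearMap.mem_ker, map_sub, map_sub, γ.reg_br, γ.reg_br, γ.reg_br,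
        ← integral_sub' (γ.int_fr _ _) (γ.int_fr _ _),
        ← integral_sub' ((γ.int_fr _ _).sub (γ.int_fr _ _)) (γ.int_fr _ _)]
      refine (integral_congr_ae (Filter.Eventually.of_forall fun y => ?_)).trans
        (integral_zero (Fin (k + 1) → ℝ) ℝ)
      simp only [Pi.sub_apply, γ.fr_mul]
      ring
    · rw [SetLike.mem_coe, LinearMap.mem_ker, γ.reg_br]
      simp only [γ.fr_eq f g hij h, integral_zero]
    · rw [SetLike.mem_coe, LinearMap.mem_ker, map_add, map_sub, map_add, map_sub, γ.reg_br,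
        γ.reg_br, γ.reg_br, γ.reg_br, γ.reg_br,
        ← integral_sub' (γ.int_fr _ _) (γ.int_fr _ _),
        ← integral_add' ((γ.int_fr _ _).sub (γ.int_fr _ _)) (γ.int_fr _ _),
        ← integral_sub' (((γ.int_fr _ _).sub (γ.int_fr _ _)).add (γ.int_fr _ _)) (γ.int_fr _ _),
        ← integral_add' ((((γ.int_fr _ _).sub (γ.int_fr _ _)).add (γ.int_fr _ _)).sub
          (γ.int_fr _ _)) (γ.int_fr _ _)]
      refine (integral_congr_ae (Filter.Eventually.of_forall fun Y => ?_)).trans
        (integral_zero (Fin (k + 1) → ℝ) ℝ)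
      exact γ.fr_five h g Y
    · exact γ.reg_self h
  exact hle hs

/-- An element with nonzero regulator has a nonzero class. -/
theorem Cyc.not_mem {s : FS A k} (h : γ.reg s ≠ 0) : s ∉ Rels A k := fun hs => h (γ.reg_of_mem hs)

end final

end Pool.Agent.Helper90.HB
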